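import Pool.Agent.H993R2.TP.Alive

set_option autoImplicit false
set_option linter.unusedSectionVars false

/-!
Part 1, averaged over the labels.
-/

namespace Pool.Agent.H993R2.TP

open scoped BigOperators Classical

noncomputable section

variable {V : Type} [Fintype V] {m : ℕ}

namespace Ctx

/-- Gibbs average over the sets avoiding the index `i` -/
def EI (C : Ctx V) (i : Fin m) (Ψ : (Fin m → V) → Finset (Fin m) → ℝ) (u : Fin m → V) : ℝ :=
  (∑ S ∈ (Finset.univ.erase i).powerset, C.wv u S * Ψ u S) / C.Z u Finset.univ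

def good0 (C : Ctx V) (As hm : ℝ) (u : Fin m → V) (i : Fin m) (S : Finset (Fin m)) : Prop :=
  C.kk u i S ≤ As ∧ ((C.L u i S).card : ℝ) ≤ hm ∧ ∀ b ∈ S, ¬ C.bp (u i) (u b)

variable {C : Ctx V}

lemma EI_le_EA {i : Fin m} {Ψ : (Fin m → V) → Finset (Fin m) → ℝ} {u : Fin m → V}
    (h0 : ∀ S, 0 ≤ Ψ u S) : C.EI i Ψ u ≤ C.EA (Finset.univ.erase i) Ψ u := by
  unfold EI EA
  apply div_le_div_of_nonneg_left
  · exact Finset.sum_nonneg fun _ _ => mul_nonneg (wv_nonneg _ _) (h0 _)
  · exact Z_pos _ _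
  · exact Z_mono (Finset.erase_subset _ _)

lemma EI_eq (i : Fin m) (Ψ : (Fin m → V) → Finset (Fin m) → ℝ) (u : Fin m → V) :
    C.EA Finset.univ (fun u S => ind (i ∉ S) * Ψ u S) u = C.EI i Ψ u := by
  unfold EI EA
  congr 1
  have h1 : ∑ S ∈ (Finset.univ.erase i : Finset (Fin m)).powerset, C.wv u S * Ψ u S
      = ∑ S ∈ (Finset.univ.erase i : Finset (Fin m)).powerset,
        C.wv u S * (ind (i ∉ S) * Ψ u S) := by
    refine Finset.sum_congr rfl fun S hS => ?_
    have : i ∉ S := fun h => Finset.notMem_erase i _ (Finset.mem_powerset.mp hS h)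
    rw [ind_pos this, one_mul]
  rw [h1]
  symm
  apply Finset.sum_subset (Finset.powerset_mono.mpr (Finset.erase_subset _ _))
  intro S _ hS
  have : i ∈ S := by
    by_contra h
    apply hS
    rw [Finset.mem_powerset]
    intro a ha
    rw [Finset.mem_erase]
    exact ⟨fun h' => h (h' ▸ ha), Finset.mem_univ _⟩
  rw [ind_neg (not_not.mpr this)]
  ring

lemma sum_big (x : V) : ∑ v, ind (C.big v x) ≤ nn V / C.B := by
  have hB := C.hB
  rw [le_div_iff₀ hB, Finset.sum_mul]
  calc ∑ v, ind (C.big v x) * C.B ≤ ∑ v, C.k v x := by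
        refine Finset.sum_le_sum fun v _ => ?_
        by_cases h : C.big v x
        · rw [ind_pos h, one_mul]; exact h
        · rw [ind_neg h, zero_mul]; exact C.k_nonneg _ _
    _ ≤ _ := C.sum_k' x

lemma sum_eq_one (x : V) : ∑ v, ind (v = x) ≤ 1 :=
  sum_ind_le_one _ fun a b ha hb => ha.trans hb.symm

lemma sum_bp (x : V) : ∑ v, ind (C.bp v x) ≤ 1 + nn V / C.B := by
  calc ∑ v, ind (C.bp v x) ≤ ∑ v, (ind (v = x) + ind (C.big v x)) :=
        Finset.sum_le_sum fun v _ => ind_or_le _ _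
    _ ≤ _ := by
        rw [Finset.sum_add_distrib]
        exact add_le_add (sum_eq_one x) (sum_big x)

/-! averages over the label of `i` for fixed `S` -/

lemma kk_update {u : Fin m → V} {i : Fin m} {v : V} {S : Finset (Fin m)} (hi : i ∉ S) :
    C.kk (Function.update u i v) i S = ∑ b ∈ S, C.k v (u b) := by
  unfold kk
  refine Finset.sum_congr rfl fun b hb => ?_
  rw [Function.update_self, upd_ne hi hb]

lemma avg_kk {u : Fin m → V} {i : Fin m} {S : Finset (Fin m)} (hi : i ∉ S)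
    (hv : C.valid u S) : ∑ v, C.kk (Function.update u i v) i S ≤ C.κ * nn V := by
  simp only [kk_update hi]
  rw [Finset.sum_comm]
  calc ∑ b ∈ S, ∑ v, C.k v (u b) ≤ ∑ _b ∈ S, nn V :=
        Finset.sum_le_sum fun b _ => C.sum_k' (u b)
    _ = S.card * nn V := by rw [Finset.sum_const, nsmul_eq_mul]
    _ ≤ C.κ * nn V := mul_le_mul_of_nonneg_right (valid_card hv) nn_nonneg

lemma ite_eq_ind (p : Prop) [inst : Decidable p] : (if p then (1 : ℝ) else 0) = ind p := by
  by_cases h : p
  · rw [if_pos h, ind_pos h]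
  · rw [if_neg h, ind_neg h]

lemma L_card_le (u : Fin m → V) (i : Fin m) (S : Finset (Fin m)) :
    ((C.L u i S).card : ℝ) ≤ ∑ l ∈ S, ∑ j ∈ S, ind (C.M (u l) (u i) (u j)) := by
  unfold L
  rw [Finset.card_filter]
  push_cast
  refine Finset.sum_le_sum fun l _ => ?_
  have h := ind_exists_le S (fun j => C.M (u l) (u i) (u j))
  rw [ite_eq_ind]
  exact h

lemma avg_L {u : Fin m → V} {i : Fin m} {S : Finset (Fin m)} (hi : i ∉ S)
    (hv : C.valid u S) :
    ∑ v, ((C.L (Function.update u i v) i S).card : ℝ) ≤ C.κ ^ 2 := by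
  calc ∑ v, ((C.L (Function.update u i v) i S).card : ℝ)
      ≤ ∑ v, ∑ l ∈ S, ∑ j ∈ S, ind (C.M (u l) v (u j)) := by
        refine Finset.sum_le_sum fun v _ => (L_card_le _ _ _).trans (le_of_eq ?_)
        refine Finset.sum_congr rfl fun l hl => Finset.sum_congr rfl fun j hj => ?_
        rw [Function.update_self, upd_ne hi hl, upd_ne hi hj]
    _ = ∑ l ∈ S, ∑ j ∈ S, ∑ v, ind (C.M (u l) v (u j)) := by
        rw [Finset.sum_comm]
        refine Finset.sum_congr rfl fun l _ => Finset.sum_comm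
    _ ≤ ∑ _l ∈ S, ∑ _j ∈ S, (1 : ℝ) :=
        Finset.sum_le_sum fun l _ => Finset.sum_le_sum fun j _ => C.sum_M2 _ _
    _ = (S.card : ℝ) ^ 2 := by simp; ring
    _ ≤ C.κ ^ 2 := by
        have := valid_card hv
        gcongr

lemma avg_bp {u : Fin m → V} {i : Fin m} {S : Finset (Fin m)} (hi : i ∉ S)
    (hv : C.valid u S) :
    ∑ v, ∑ b ∈ S, ind (C.bp (Function.update u i v i) (Function.update u i v b))
      ≤ C.κ * (1 + nn V / C.B) := by
  have hB := C.hB
  have h0 : 0 ≤ 1 + nn V / C.B := by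
    have := nn_nonneg (V := V)
    positivity
  rw [Finset.sum_comm]
  calc ∑ b ∈ S, ∑ v, ind (C.bp (Function.update u i v i) (Function.update u i v b))
      ≤ ∑ b ∈ S, (1 + nn V / C.B) := by
        refine Finset.sum_le_sum fun b hb => ?_
        simp only [Function.update_self, upd_ne hi hb]
        exact sum_bp _
    _ = S.card * (1 + nn V / C.B) := by rw [Finset.sum_const, nsmul_eq_mul]
    _ ≤ _ := mul_le_mul_of_nonneg_right (valid_card hv) h0

lemma rm_card_le (u : Fin m → V) (i : Fin m) (S : Finset (Fin m)) :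
    ((C.rm u i S).card : ℝ) ≤ ∑ a ∈ S, ∑ b ∈ S, ind (C.M (u i) (u a) (u b)) := by
  unfold rm ro
  rw [Finset.card_filter]
  push_cast
  refine Finset.sum_le_sum fun a _ => ?_
  have h := ind_exists_le S (fun b => a < b ∧ C.M (u i) (u a) (u b))
  rw [ite_eq_ind]
  exact h.trans (Finset.sum_le_sum fun b _ => ind_mono fun h => h.2)

lemma avg_rm {u : Fin m → V} {i : Fin m} {S : Finset (Fin m)} (hi : i ∉ S) :
    ∑ v, ((C.rm (Function.update u i v) i S).card : ℝ) ≤ C.W2 u S := by
  calc ∑ v, ((C.rm (Function.update u i v) i S).card : ℝ)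
      ≤ ∑ v, ∑ a ∈ S, ∑ b ∈ S, ind (C.M v (u a) (u b)) := by
        refine Finset.sum_le_sum fun v _ => (rm_card_le _ _ _).trans (le_of_eq ?_)
        refine Finset.sum_congr rfl fun l hl => Finset.sum_congr rfl fun j hj => ?_
        rw [Function.update_self, upd_ne hi hl, upd_ne hi hj]
    _ = C.W2 u S := by
        unfold W2
        rw [Finset.sum_comm]
        refine Finset.sum_congr rfl fun l _ => ?_
        rw [Finset.sum_comm]
        rfl

lemma good0_Φ {As hm : ℝ} {u : Fin m → V} {i : Fin m} (S : Finset (Fin m))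
    (h : C.good0 As hm u i S) : C.good0 As hm u i (C.Φ u i S) := by
  have hs := Φ_subset (C := C) u i S
  refine ⟨(kk_mono hs).trans h.1, le_trans ?_ h.2.1, fun b hb => h.2.2 b (hs hb)⟩
  exact_mod_cast Finset.card_le_card (L_mono hs)

/-- pointwise version of Part 1 -/
lemma part1_pt {As hm c0 : ℝ} (hAs : 0 < As) (hhm : 0 < hm) (hc0 : 0 < c0) (u : Fin m → V)
    (i : Fin m) :
    C.EI i (fun _ _ => 1) u ≤ ind (¬ C.typ u i)
      + C.EI i (fun u S => C.kk u i S / As + ((C.L u i S).card : ℝ) / hm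
          + ∑ b ∈ S, ind (C.bp (u i) (u b)) + 3 / c0 * ((C.rm u i S).card : ℝ)) u
      + Real.exp c0 * C.EI i (fun u S => ind (C.alive u i S ∧ C.good0 As hm u i S)) u := by
  have hZ := Z_pos (C := C) u Finset.univ
  have hnn2 : 0 ≤ C.EI i (fun u S => C.kk u i S / As + ((C.L u i S).card : ℝ) / hm
          + ∑ b ∈ S, ind (C.bp (u i) (u b)) + 3 / c0 * ((C.rm u i S).card : ℝ)) u := by
    unfold EI
    refine div_nonneg (Finset.sum_nonneg fun S _ => mul_nonneg (wv_nonneg _ _) ?_) hZ.le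
    have h1 := kk_nonneg (C := C) u i S
    have h2 : 0 ≤ ∑ b ∈ S, ind (C.bp (u i) (u b)) := Finset.sum_nonneg fun _ _ => ind_nonneg _
    positivity
  have hnn3 : 0 ≤ C.EI i (fun u S => ind (C.alive u i S ∧ C.good0 As hm u i S)) u := by
    unfold EI
    exact div_nonneg (Finset.sum_nonneg fun S _ => mul_nonneg (wv_nonneg _ _) (ind_nonneg _)) hZ.le
  by_cases ht : C.typ u i
  swap
  · rw [ind_pos ht]
    have h1 : C.EI i (fun _ _ => 1) u ≤ 1 := by
      refine (EI_le_EA fun _ => by norm_num).trans ?_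
      rw [EA_const]
    have h3 := mul_nonneg (Real.exp_pos c0).le hnn3
    linarith
  rw [ind_neg (not_not.mpr ht), zero_add]
  unfold EI
  rw [mul_div_assoc', ← add_div]
  apply div_le_div_of_nonneg_right _ hZ.le
  set A := (Finset.univ.erase i : Finset (Fin m)) with hA
  have hiS : ∀ S ∈ A.powerset, i ∉ S := fun S hS h =>
    Finset.notMem_erase i _ (Finset.mem_powerset.mp hS h)
  have hpt : ∀ S ∈ A.powerset, C.wv u S * 1 ≤
      C.wv u S * (C.kk u i S / As + ((C.L u i S).card : ℝ) / hm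
          + ∑ b ∈ S, ind (C.bp (u i) (u b)))
      + C.wv u S * (1 / c0 * C.F u i (C.Φ u i S))
      + C.wv u S * ind (C.good0 As hm u i S ∧ C.F u i (C.Φ u i S) ≤ c0) := by
    intro S _
    rw [← mul_add, ← mul_add]
    apply mul_le_mul_of_nonneg_left _ (wv_nonneg _ _)
    have h1 := kk_nonneg (C := C) u i S
    have h2 : 0 ≤ ∑ b ∈ S, ind (C.bp (u i) (u b)) := Finset.sum_nonneg fun _ _ => ind_nonneg _
    have h3 : 0 ≤ C.F u i (C.Φ u i S) := Finset.sum_nonneg fun _ _ => q_nonneg _ _ _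
    have h4 := ind_nonneg (C.good0 As hm u i S ∧ C.F u i (C.Φ u i S) ≤ c0)
    have h5 : 0 ≤ C.kk u i S / As := by positivity
    have h6 : 0 ≤ ((C.L u i S).card : ℝ) / hm := by positivity
    have h7 : 0 ≤ 1 / c0 * C.F u i (C.Φ u i S) := by positivity
    by_cases hF : C.F u i (C.Φ u i S) ≤ c0
    swap
    · have h8 : 1 ≤ 1 / c0 * C.F u i (C.Φ u i S) := by
        push Not at hF
        rw [one_div_mul_eq_div, le_div_iff₀ hc0]; linarith
      linarith
    by_cases hg : C.good0 As hm u i S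
    · rw [ind_pos ⟨hg, hF⟩]
      linarith
    · unfold good0 at hg
      by_cases hk : C.kk u i S ≤ As
      · by_cases hl : ((C.L u i S).card : ℝ) ≤ hm
        · have hb : ∃ b ∈ S, C.bp (u i) (u b) := by
            by_contra hcon
            push Not at hcon
            exact hg ⟨hk, hl, hcon⟩
          have h8 := ind_exists_le S (fun b => C.bp (u i) (u b))
          rw [ind_pos hb] at h8
          linarith
        · push Not at hl
          have h8 : 1 ≤ ((C.L u i S).card : ℝ) / hm := by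
            rw [le_div_iff₀ hhm]; linarith
          linarith
      · push Not at hk
        have h8 : 1 ≤ C.kk u i S / As := by
          rw [le_div_iff₀ hAs]; linarith
        linarith
  have hmass := mass1 (C := C) u i (C.good0 As hm u i) (fun S hS => good0_Φ S hS) c0
  have hF : ∑ S ∈ A.powerset, C.wv u S * (1 / c0 * C.F u i (C.Φ u i S))
      ≤ ∑ S ∈ A.powerset, C.wv u S * (3 / c0 * ((C.rm u i S).card : ℝ)) := by
    have h1 : ∑ S ∈ A.powerset, C.wv u S * C.F u i (C.Φ u i S)
        ≤ ∑ S ∈ A.powerset, C.wv u S * (2 * C.F u i S + ((C.rm u i S).card : ℝ)) := by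
      refine Finset.sum_le_sum fun S hS => ?_
      by_cases hv : C.valid u S
      · exact mul_le_mul_of_nonneg_left (claim2 hv (hiS S hS) ht) (wv_nonneg _ _)
      · rw [wv_of_not_valid hv]; simp
    have h2 := dbal (C := C) u i
    rw [← hA] at h2
    have h3 : ∑ S ∈ A.powerset, C.wv u S * (2 * C.F u i S + ((C.rm u i S).card : ℝ))
        = 2 * ∑ S ∈ A.powerset, C.wv u S * C.F u i S
          + ∑ S ∈ A.powerset, C.wv u S * ((C.rm u i S).card : ℝ) := by
      rw [Finset.mul_sum, ← Finset.sum_add_distrib]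
      refine Finset.sum_congr rfl fun S _ => ?_
      ring
    have h4 : ∑ S ∈ A.powerset, C.wv u S * (1 / c0 * C.F u i (C.Φ u i S))
        = 1 / c0 * ∑ S ∈ A.powerset, C.wv u S * C.F u i (C.Φ u i S) := by
      rw [Finset.mul_sum]
      refine Finset.sum_congr rfl fun S _ => ?_
      ring
    have h5 : ∑ S ∈ A.powerset, C.wv u S * (3 / c0 * ((C.rm u i S).card : ℝ))
        = 1 / c0 * (3 * ∑ S ∈ A.powerset, C.wv u S * ((C.rm u i S).card : ℝ)) := by
      rw [Finset.mul_sum, Finset.mul_sum]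
      refine Finset.sum_congr rfl fun S _ => ?_
      ring
    rw [h4, h5]
    apply mul_le_mul_of_nonneg_left _ (by positivity)
    linarith
  calc ∑ S ∈ A.powerset, C.wv u S * 1
      ≤ ∑ S ∈ A.powerset, (C.wv u S * (C.kk u i S / As + ((C.L u i S).card : ℝ) / hm
          + ∑ b ∈ S, ind (C.bp (u i) (u b)))
      + C.wv u S * (1 / c0 * C.F u i (C.Φ u i S))
      + C.wv u S * ind (C.good0 As hm u i S ∧ C.F u i (C.Φ u i S) ≤ c0)) :=
        Finset.sum_le_sum hpt
    _ = ∑ S ∈ A.powerset, (C.wv u S * (C.kk u i S / As + ((C.L u i S).card : ℝ) / hm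
          + ∑ b ∈ S, ind (C.bp (u i) (u b))))
        + ∑ S ∈ A.powerset, C.wv u S * (1 / c0 * C.F u i (C.Φ u i S))
        + ∑ S ∈ A.powerset,
          C.wv u S * ind (C.good0 As hm u i S ∧ C.F u i (C.Φ u i S) ≤ c0) := by
        rw [Finset.sum_add_distrib, Finset.sum_add_distrib]
    _ ≤ ∑ S ∈ A.powerset, (C.wv u S * (C.kk u i S / As + ((C.L u i S).card : ℝ) / hm
          + ∑ b ∈ S, ind (C.bp (u i) (u b))))
        + ∑ S ∈ A.powerset, C.wv u S * (3 / c0 * ((C.rm u i S).card : ℝ))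
        + Real.exp c0 * ∑ S ∈ A.powerset,
          C.wv u S * ind (C.alive u i S ∧ C.good0 As hm u i S) := by
        gcongr
    _ = _ := by
        rw [← Finset.sum_add_distrib]
        congr 1
        refine Finset.sum_congr rfl fun S _ => ?_
        ring

/-- the averaged error terms -/
lemma part1_err {As hm c0 w0 : ℝ} (hAs : 0 < As) (hhm : 0 < hm) (hc0 : 0 < c0)
    (hw0 : 1 ≤ C.bb * w0) (i : Fin m) :
    E (C.EI i (fun u S => C.kk u i S / As + ((C.L u i S).card : ℝ) / hm
          + ∑ b ∈ S, ind (C.bp (u i) (u b)) + 3 / c0 * ((C.rm u i S).card : ℝ)))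
      ≤ (1 / nn V) * (C.κ * nn V / As + C.κ ^ 2 / hm + C.κ * (1 + nn V / C.B)
        + 3 / c0 * (w0 * (C.κ + m * Real.exp (-C.bb * w0)))) := by
  have hN := nn_pos C
  have h1 : E (C.EI i (fun u S => C.kk u i S / As + ((C.L u i S).card : ℝ) / hm
          + ∑ b ∈ S, ind (C.bp (u i) (u b)) + 3 / c0 * ((C.rm u i S).card : ℝ)))
      ≤ E (C.EA (Finset.univ.erase i) (fun u S => C.kk u i S / As + ((C.L u i S).card : ℝ) / hm
          + ∑ b ∈ S, ind (C.bp (u i) (u b)) + 3 / c0 * ((C.rm u i S).card : ℝ))) := by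
    apply E_mono
    intro u
    apply EI_le_EA
    intro S
    have h1 := kk_nonneg (C := C) u i S
    have h2 : 0 ≤ ∑ b ∈ S, ind (C.bp (u i) (u b)) := Finset.sum_nonneg fun _ _ => ind_nonneg _
    positivity
  refine h1.trans ?_
  have h2 := EA_int (C := C) (A := Finset.univ.erase i) (i := i) (Finset.notMem_erase i _)
    (fun u S => C.kk u i S / As + ((C.L u i S).card : ℝ) / hm
          + ∑ b ∈ S, ind (C.bp (u i) (u b)) + 3 / c0 * ((C.rm u i S).card : ℝ))
    (fun u S => (C.κ * nn V / As + C.κ ^ 2 / hm + C.κ * (1 + nn V / C.B)) + 3 / c0 * C.W2 u S)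
    1 (by
      intro u S hS hv
      have hiS : i ∉ S := fun h => Finset.notMem_erase i _ (hS h)
      have e1 := avg_kk hiS hv
      have e2 := avg_L hiS hv
      have e3 := avg_bp hiS hv
      have e4 := avg_rm (C := C) (u := u) hiS
      rw [Finset.sum_add_distrib, Finset.sum_add_distrib, Finset.sum_add_distrib,
        ← Finset.sum_div, ← Finset.sum_div, ← Finset.mul_sum, one_mul]
      have e5 : (∑ v, C.kk (Function.update u i v) i S) / As ≤ C.κ * nn V / As :=
        div_le_div_of_nonneg_right e1 hAs.le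
      have e6 : (∑ v, ((C.L (Function.update u i v) i S).card : ℝ)) / hm ≤ C.κ ^ 2 / hm :=
        div_le_div_of_nonneg_right e2 hhm.le
      have e7 : 3 / c0 * ∑ v, ((C.rm (Function.update u i v) i S).card : ℝ)
          ≤ 3 / c0 * C.W2 u S := mul_le_mul_of_nonneg_left e4 (by positivity)
      linarith)
  refine h2.trans ?_
  apply mul_le_mul_of_nonneg_left _ (by positivity)
  rw [← E_const C (m := m) (C.κ * nn V / As + C.κ ^ 2 / hm + C.κ * (1 + nn V / C.B)
        + 3 / c0 * (w0 * (C.κ + m * Real.exp (-C.bb * w0))))]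
  apply E_mono
  intro u
  rw [EA_add, EA_const, EA_smul]
  have h3 := stepA (C := C) (Finset.univ.erase i) u hw0
  have h4 : 0 ≤ 3 / c0 := by positivity
  have h5 := mul_le_mul_of_nonneg_left h3 h4
  linarith

lemma sum_EI_one : (m : ℝ) - C.κ ≤ ∑ i, E (C.EI (m := m) i (fun _ _ => 1)) := by
  rw [← E_sum]
  rw [← E_const C (m := m) ((m : ℝ) - C.κ)]
  apply E_mono
  intro u
  have h1 : ∀ i : Fin m, C.EI i (fun _ _ => 1) u
      = C.EA Finset.univ (fun _ S => ind (i ∉ S) * 1) u := fun i => (EI_eq i _ u).symm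
  rw [Finset.sum_congr rfl fun i _ => h1 i]
  rw [← EA_sum]
  rw [← EA_const (C := C) Finset.univ ((m : ℝ) - C.κ) u]
  apply EA_mono
  intro S _ hv
  have h2 : ∑ i : Fin m, ind (i ∉ S) * 1 = m - S.card := by
    simp only [ind_not, mul_one, Finset.sum_sub_distrib]
    congr 1
    · simp
    · rw [← Finset.sum_subset (Finset.subset_univ S) (fun x _ hx => ind_neg hx),
        Finset.sum_congr rfl (fun x hx => ind_pos hx)]
      simp
  rw [h2]
  have := valid_card hv
  linarith

/-- Part 1 -/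
theorem part1 {As hm c0 w0 : ℝ} (hAs : 0 < As) (hhm : 0 < hm) (hc0 : 0 < c0)
    (hw0 : 1 ≤ C.bb * w0) :
    (m : ℝ) - C.κ - ∑ i : Fin m, E (fun u : Fin m → V => ind (¬ C.typ u i))
      - m * ((1 / nn V) * (C.κ * nn V / As + C.κ ^ 2 / hm + C.κ * (1 + nn V / C.B)
        + 3 / c0 * (w0 * (C.κ + m * Real.exp (-C.bb * w0)))))
      ≤ Real.exp c0 * ∑ i : Fin m,
        E (C.EI i (fun u S => ind (C.alive u i S ∧ C.good0 As hm u i S))) := by
  have h1 := sum_EI_one (C := C) (m := m)
  have h2 : ∀ i : Fin m, E (C.EI (m := m) i (fun _ _ => 1)) ≤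
      E (fun u : Fin m → V => ind (¬ C.typ u i))
      + (1 / nn V) * (C.κ * nn V / As + C.κ ^ 2 / hm + C.κ * (1 + nn V / C.B)
        + 3 / c0 * (w0 * (C.κ + m * Real.exp (-C.bb * w0))))
      + Real.exp c0 * E (C.EI i (fun u S => ind (C.alive u i S ∧ C.good0 As hm u i S))) := by
    intro i
    have h3 := E_mono (fun u : Fin m → V => part1_pt (C := C) hAs hhm hc0 u i)
    rw [E_add, E_add, E_smul] at h3
    have h4 := part1_err (C := C) hAs hhm hc0 hw0 i
    linarith
  have h3 := Finset.sum_le_sum (fun (i : Fin m) (_ : i ∈ Finset.univ) => h2 i)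
  rw [Finset.sum_add_distrib, Finset.sum_add_distrib, Finset.sum_const, Finset.card_univ,
    Fintype.card_fin, nsmul_eq_mul, ← Finset.mul_sum] at h3
  linarith

end Ctx

end

end Pool.Agent.H993R2.TP
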