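import Pool.Agent.H993R2.TP.Ext
import Pool.Agent.H993R2.TP.Part1

set_option autoImplicit false
set_option linter.unusedSectionVars false
set_option linter.unusedVariables false

/-!
Thinning.
-/

namespace Pool.Agent.H993R2.TP

open scoped BigOperators Classical

noncomputable section

variable {m : ℕ}

/-! ### average over a `ρ`-random subset -/

def AT (ρ : ℝ) (S : Finset (Fin m)) (f : Finset (Fin m) → ℝ) : ℝ :=
  ∑ T ∈ S.powerset, ρ ^ T.card * (1 - ρ) ^ (S \ T).card * f T

lemma AT_mono {ρ : ℝ} (hρ : 0 ≤ ρ) (hρ1 : ρ ≤ 1) {S : Finset (Fin m)}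
    {f g : Finset (Fin m) → ℝ} (h : ∀ T ⊆ S, f T ≤ g T) : AT ρ S f ≤ AT ρ S g := by
  unfold AT
  refine Finset.sum_le_sum fun T hT => ?_
  apply mul_le_mul_of_nonneg_left (h T (Finset.mem_powerset.mp hT))
  have : 0 ≤ 1 - ρ := by linarith
  positivity

lemma AT_nonneg {ρ : ℝ} (hρ : 0 ≤ ρ) (hρ1 : ρ ≤ 1) {S : Finset (Fin m)}
    {f : Finset (Fin m) → ℝ} (h : ∀ T ⊆ S, 0 ≤ f T) : 0 ≤ AT ρ S f := by
  unfold AT
  refine Finset.sum_nonneg fun T hT => ?_
  have : 0 ≤ 1 - ρ := by linarith
  have := h T (Finset.mem_powerset.mp hT)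
  positivity

lemma AT_add (ρ : ℝ) (S : Finset (Fin m)) (f g : Finset (Fin m) → ℝ) :
    AT ρ S (fun T => f T + g T) = AT ρ S f + AT ρ S g := by
  unfold AT
  rw [← Finset.sum_add_distrib]
  exact Finset.sum_congr rfl fun T _ => by ring

lemma AT_sub (ρ : ℝ) (S : Finset (Fin m)) (f g : Finset (Fin m) → ℝ) :
    AT ρ S (fun T => f T - g T) = AT ρ S f - AT ρ S g := by
  unfold AT
  rw [← Finset.sum_sub_distrib]
  exact Finset.sum_congr rfl fun T _ => by ring

lemma AT_smul (ρ : ℝ) (S : Finset (Fin m)) (c : ℝ) (f : Finset (Fin m) → ℝ) :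
    AT ρ S (fun T => c * f T) = c * AT ρ S f := by
  unfold AT
  rw [Finset.mul_sum]
  exact Finset.sum_congr rfl fun T _ => by ring

lemma AT_sum {α : Type*} (ρ : ℝ) (S : Finset (Fin m)) (s : Finset α)
    (f : α → Finset (Fin m) → ℝ) :
    AT ρ S (fun T => ∑ a ∈ s, f a T) = ∑ a ∈ s, AT ρ S (f a) := by
  unfold AT
  rw [Finset.sum_comm]
  exact Finset.sum_congr rfl fun T _ => by rw [Finset.mul_sum]

lemma AT_one (ρ : ℝ) (S : Finset (Fin m)) : AT ρ S (fun _ => 1) = 1 := by
  unfold AT
  have h := Finset.sum_pow_mul_eq_add_pow ρ (1 - ρ) S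
  rw [show ρ + (1 - ρ) = 1 by ring, one_pow] at h
  refine (Finset.sum_congr rfl fun T hT => ?_).trans h
  rw [Finset.card_sdiff_of_subset (Finset.mem_powerset.mp hT), mul_one]

lemma AT_sub_ind (ρ : ℝ) {S L : Finset (Fin m)} (hL : L ⊆ S) :
    AT ρ S (fun T => ind (L ⊆ T)) = ρ ^ L.card := by
  have h1 := AT_one ρ (S \ L)
  calc AT ρ S (fun T => ind (L ⊆ T))
      = ∑ T ∈ S.powerset.filter (fun T => L ⊆ T), ρ ^ T.card * (1 - ρ) ^ (S \ T).card := by
        unfold AT
        rw [Finset.sum_filter]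
        refine Finset.sum_congr rfl fun T _ => ?_
        beta_reduce
        by_cases h : L ⊆ T
        · rw [if_pos h, ind_pos h, mul_one]
        · rw [if_neg h, ind_neg h, mul_zero]
    _ = ∑ T ∈ (S \ L).powerset, ρ ^ L.card * (ρ ^ T.card * (1 - ρ) ^ ((S \ L) \ T).card * 1) := by
        refine Finset.sum_nbij' (fun T => T \ L) (fun T => L ∪ T) ?_ ?_ ?_ ?_ ?_
        · intro T hT
          rw [Finset.mem_filter, Finset.mem_powerset] at hT
          rw [Finset.mem_powerset]
          exact Finset.sdiff_subset_sdiff hT.1 (Finset.Subset.refl L)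
        · intro T hT
          rw [Finset.mem_powerset] at hT
          rw [Finset.mem_filter, Finset.mem_powerset]
          exact ⟨Finset.union_subset hL (hT.trans Finset.sdiff_subset),
            Finset.subset_union_left⟩
        · intro T hT
          rw [Finset.mem_filter, Finset.mem_powerset] at hT
          exact Finset.union_sdiff_of_subset hT.2
        · intro T hT
          rw [Finset.mem_powerset] at hT
          rw [Finset.union_sdiff_cancel_left]
          rw [Finset.disjoint_left]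
          intro a ha haT
          exact (Finset.mem_sdiff.mp (hT haT)).2 ha
        · intro T hT
          rw [Finset.mem_filter, Finset.mem_powerset] at hT
          have e1 : T.card = L.card + (T \ L).card := by
            rw [Finset.card_sdiff_of_subset hT.2]
            have := Finset.card_le_card hT.2
            omega
          have e2 : (S \ L) \ (T \ L) = S \ T := by
            ext a
            simp only [Finset.mem_sdiff]
            constructor
            · rintro ⟨⟨h1, h2⟩, h3⟩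
              refine ⟨h1, fun h => h3 ⟨h, h2⟩⟩
            · rintro ⟨h1, h2⟩
              refine ⟨⟨h1, fun h => h2 (hT.2 h)⟩, fun h => h2 h.1⟩
          rw [e2, mul_one]
          conv_lhs => rw [e1, pow_add]
          ring
    _ = ρ ^ L.card * AT ρ (S \ L) (fun _ => 1) := by
        unfold AT; rw [Finset.mul_sum]
    _ = ρ ^ L.card := by rw [h1, mul_one]

lemma AT_card (ρ : ℝ) (S : Finset (Fin m)) : AT ρ S (fun T => (T.card : ℝ)) = ρ * S.card := by
  have h1 : AT ρ S (fun T => (T.card : ℝ)) = AT ρ S (fun T => ∑ l ∈ S, ind ({l} ⊆ T)) := by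
    unfold AT
    refine Finset.sum_congr rfl fun T hT => ?_
    congr 1
    have h2 : ∑ l ∈ T, ind ({l} ⊆ T) = ∑ l ∈ S, ind ({l} ⊆ T) :=
      Finset.sum_subset (Finset.mem_powerset.mp hT)
        (fun x _ hx => ind_neg (fun h => hx (Finset.singleton_subset_iff.mp h)))
    have h3 : ∑ l ∈ T, ind ({l} ⊆ T) = (T.card : ℝ) := by
      rw [Finset.sum_congr rfl (fun x hx => ind_pos (Finset.singleton_subset_iff.mpr hx))]
      simp
    beta_reduce
    rw [← h2, h3]
  rw [h1, AT_sum]
  rw [Finset.sum_congr rfl fun l hl => AT_sub_ind ρ (Finset.singleton_subset_iff.mpr hl)]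
  simp only [Finset.card_singleton, pow_one, Finset.sum_const, nsmul_eq_mul]
  ring

/-- change of variables `(S, T) ↦ (S \ T, T)` -/
lemma sum_cov (f : Finset (Fin m) → Finset (Fin m) → ℝ) :
    ∑ S ∈ (Finset.univ : Finset (Fin m)).powerset, ∑ T ∈ S.powerset, f (S \ T) T
      = ∑ S1 ∈ (Finset.univ : Finset (Fin m)).powerset,
        ∑ T ∈ (Finset.univ \ S1).powerset, f S1 T := by
  rw [Finset.sum_sigma', Finset.sum_sigma']
  refine Finset.sum_nbij' (fun p => ⟨p.1 \ p.2, p.2⟩) (fun p => ⟨p.1 ∪ p.2, p.2⟩)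
    ?_ ?_ ?_ ?_ ?_
  · rintro ⟨S, T⟩ h
    simp only [Finset.mem_sigma, Finset.mem_powerset] at *
    refine ⟨Finset.subset_univ _, ?_⟩
    intro a ha
    simp only [Finset.mem_sdiff, Finset.mem_univ, true_and, not_and, not_not]
    intro _; exact ha
  · rintro ⟨S, T⟩ h
    simp only [Finset.mem_sigma, Finset.mem_powerset] at *
    exact ⟨Finset.subset_univ _, Finset.subset_union_right⟩
  · rintro ⟨S, T⟩ h
    simp only [Finset.mem_sigma, Finset.mem_powerset] at *
    rw [Finset.sdiff_union_of_subset h.2]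
  · rintro ⟨S, T⟩ h
    simp only [Finset.mem_sigma, Finset.mem_powerset] at *
    have hd : Disjoint S T := by
      rw [Finset.disjoint_left]
      intro a ha haT
      exact (Finset.mem_sdiff.mp (h.2 haT)).2 ha
    rw [Finset.union_sdiff_cancel_right hd]
  · rintro ⟨S, T⟩ _
    rfl

variable {V : Type} [Fintype V]

namespace Ctx

variable {C : Ctx V}

/-- combination of the upper bound with a lower bound for the extension partition function -/
lemma comb {ρ ζ0 : ℝ} (hρ : 0 < ρ) (hρ1 : ρ ≤ 1) (hζ0 : 0 < ζ0) (hζρ : ζ0 ≤ ρ) (u : Fin m → V)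
    (g : Finset (Fin m) → Finset (Fin m) → ℝ)
    (hg : ∀ S, C.valid u S → ∀ T ⊆ S,
      g S T ≤ Real.log (C.Zx ρ u (S \ T) / C.wv u (S \ T))) :
    C.EA Finset.univ (fun _ S => AT ρ S (g S)) u
      ≤ ζ0 * m + Real.log (ρ / ζ0) * (ρ * C.κ) := by
  set lam := Real.log (ρ / ζ0) with hlam
  have hlam0 : 0 ≤ lam := Real.log_nonneg (by rw [le_div_iff₀ hζ0]; linarith)
  have hρ2 : 0 ≤ 1 - ρ := by linarith
  -- the key inequality
  have key : ∑ S ∈ (Finset.univ : Finset (Fin m)).powerset, C.wv u S *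
      AT ρ S (fun T => g S T - ζ0 * m - lam * T.card) ≤ 0 := by
    have e1 : ∑ S ∈ (Finset.univ : Finset (Fin m)).powerset, C.wv u S *
        AT ρ S (fun T => g S T - ζ0 * m - lam * T.card)
        = ∑ S ∈ (Finset.univ : Finset (Fin m)).powerset, ∑ T ∈ S.powerset,
          (fun S1 T => (ρ ^ T.card * C.wv u (S1 ∪ T)) * (1 - ρ) ^ S1.card *
            (g (S1 ∪ T) T - ζ0 * m - lam * T.card)) (S \ T) T := by
      refine Finset.sum_congr rfl fun S _ => ?_
      unfold AT
      rw [Finset.mul_sum]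
      refine Finset.sum_congr rfl fun T hT => ?_
      simp only
      rw [Finset.sdiff_union_of_subset (Finset.mem_powerset.mp hT)]
      ring
    rw [e1, sum_cov (fun S1 T => (ρ ^ T.card * C.wv u (S1 ∪ T)) * (1 - ρ) ^ S1.card *
            (g (S1 ∪ T) T - ζ0 * m - lam * T.card))]
    refine Finset.sum_nonpos fun S1 _ => ?_
    have e2 : ∑ T ∈ (Finset.univ \ S1).powerset, (ρ ^ T.card * C.wv u (S1 ∪ T)) *
        (1 - ρ) ^ S1.card * (g (S1 ∪ T) T - ζ0 * m - lam * T.card)
        = (1 - ρ) ^ S1.card * ∑ T ∈ (Finset.univ \ S1).powerset,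
          (ρ ^ T.card * C.wv u (S1 ∪ T)) * (g (S1 ∪ T) T - ζ0 * m - lam * T.card) := by
      rw [Finset.mul_sum]
      refine Finset.sum_congr rfl fun T _ => ?_
      ring
    rw [e2]
    apply mul_nonpos_of_nonneg_of_nonpos (by positivity)
    by_cases hv1 : C.valid u S1
    swap
    · apply le_of_eq
      refine Finset.sum_eq_zero fun T _ => ?_
      rw [wv_of_not_valid (fun h => hv1 (valid_mono Finset.subset_union_left h))]
      ring
    have hJ := J1 (C := C) hρ hζ0 hv1
    rw [← hlam] at hJ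
    have h3 : ∑ T ∈ (Finset.univ \ S1).powerset,
          (ρ ^ T.card * C.wv u (S1 ∪ T)) * (g (S1 ∪ T) T - ζ0 * m - lam * T.card)
        ≤ ∑ T ∈ (Finset.univ \ S1).powerset,
          (ρ ^ T.card * C.wv u (S1 ∪ T)) * (Real.log (C.Zx ρ u S1 / C.wv u S1) - ζ0 * m
            - lam * T.card) := by
      refine Finset.sum_le_sum fun T hT => ?_
      by_cases hv : C.valid u (S1 ∪ T)
      · have hd : Disjoint S1 T := by
          rw [Finset.disjoint_left]
          intro a ha haT
          exact (Finset.mem_sdiff.mp ((Finset.mem_powerset.mp hT) haT)).2 ha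
        have h4 := hg (S1 ∪ T) hv T Finset.subset_union_right
        rw [Finset.union_sdiff_cancel_right hd] at h4
        apply mul_le_mul_of_nonneg_left _ (mul_nonneg (pow_nonneg hρ.le _) (wv_nonneg _ _))
        linarith
      · rw [wv_of_not_valid hv]; simp
    refine h3.trans ?_
    have h5 : ∑ T ∈ (Finset.univ \ S1).powerset,
          (ρ ^ T.card * C.wv u (S1 ∪ T)) * (Real.log (C.Zx ρ u S1 / C.wv u S1) - ζ0 * m
            - lam * T.card)
        = (Real.log (C.Zx ρ u S1 / C.wv u S1) - ζ0 * m) * C.Zx ρ u S1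
          - lam * ∑ T ∈ (Finset.univ \ S1).powerset,
            (ρ ^ T.card * C.wv u (S1 ∪ T)) * T.card := by
      unfold Zx
      rw [Finset.mul_sum, Finset.mul_sum, ← Finset.sum_sub_distrib]
      refine Finset.sum_congr rfl fun T _ => ?_
      ring
    rw [h5]
    linarith
  -- unfold the average
  unfold EA
  rw [div_le_iff₀ (Z_pos _ _)]
  have h6 : ∀ S ∈ (Finset.univ : Finset (Fin m)).powerset, C.wv u S * AT ρ S (g S)
      ≤ C.wv u S * AT ρ S (fun T => g S T - ζ0 * m - lam * T.card)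
        + (ζ0 * m + lam * (ρ * C.κ)) * C.wv u S := by
    intro S _
    by_cases hv : C.valid u S
    swap
    · rw [wv_of_not_valid hv]; simp
    have h7 : AT ρ S (fun T => g S T - ζ0 * m - lam * T.card)
        = AT ρ S (g S) - ζ0 * m - lam * (ρ * S.card) := by
      have e7 := AT_smul ρ S (ζ0 * m) (fun _ => 1)
      rw [AT_one] at e7
      simp only [mul_one] at e7
      rw [AT_sub ρ S (fun T => g S T - ζ0 * m) (fun T => lam * (T.card : ℝ)),
        AT_sub ρ S (g S) (fun _ => ζ0 * m), AT_smul ρ S lam (fun T => (T.card : ℝ)), AT_card, e7]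
    rw [h7]
    have h8 := valid_card hv
    have h9 : lam * (ρ * S.card) ≤ lam * (ρ * C.κ) := by gcongr
    have h10 := wv_nonneg (C := C) u S
    nlinarith
  calc ∑ S ∈ (Finset.univ : Finset (Fin m)).powerset, C.wv u S * AT ρ S (g S)
      ≤ _ := Finset.sum_le_sum h6
    _ = ∑ S ∈ (Finset.univ : Finset (Fin m)).powerset, C.wv u S *
          AT ρ S (fun T => g S T - ζ0 * m - lam * T.card)
        + (ζ0 * m + lam * (ρ * C.κ)) * C.Z u Finset.univ := by
        rw [Finset.sum_add_distrib]
        unfold Z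
        rw [Finset.mul_sum]
    _ ≤ _ := by linarith

end Ctx

end

end Pool.Agent.H993R2.TP
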