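import Pool.Agent.H993R2.TP.Valid

set_option autoImplicit false
set_option linter.unusedSectionVars false

/-!
Part 1 : a positive proportion of the indices are page-alive.
-/

namespace Pool.Agent.H993R2.TP

open scoped BigOperators Classical

noncomputable section

variable {V : Type} [Fintype V] {m : ℕ}

namespace Ctx

/-- `a` is the smaller end of a spine with other end in `S` and page `u i` -/
def ro (C : Ctx V) (u : Fin m → V) (i a : Fin m) (S : Finset (Fin m)) : Prop :=
  ∃ b ∈ S, a < b ∧ C.M (u i) (u a) (u b)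

def rm (C : Ctx V) (u : Fin m → V) (i : Fin m) (S : Finset (Fin m)) : Finset (Fin m) :=
  S.filter (fun a => C.ro u i a S)

def cand (C : Ctx V) (u : Fin m → V) (i : Fin m) (S : Finset (Fin m)) : Finset (Fin m) :=
  ((Finset.univ.erase i) \ S).filter (fun a => C.ro u i a S)

def F (C : Ctx V) (u : Fin m → V) (i : Fin m) (S : Finset (Fin m)) : ℝ :=
  ∑ a ∈ C.cand u i S, C.q u a S

def Φ (C : Ctx V) (u : Fin m → V) (i : Fin m) (S : Finset (Fin m)) : Finset (Fin m) :=
  S \ C.rm u i S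

def alive (C : Ctx V) (u : Fin m → V) (i : Fin m) (S : Finset (Fin m)) : Prop :=
  ∀ a ∈ S, ∀ b ∈ S, ¬ C.M (u i) (u a) (u b)

def L (C : Ctx V) (u : Fin m → V) (i : Fin m) (S : Finset (Fin m)) : Finset (Fin m) :=
  S.filter (fun l => ∃ j ∈ S, C.M (u l) (u i) (u j))

variable {C : Ctx V}

lemma ro_mono {u : Fin m → V} {i a : Fin m} {S S' : Finset (Fin m)} (h : S ⊆ S')
    (hr : C.ro u i a S) : C.ro u i a S' := by
  obtain ⟨b, hb, h1, h2⟩ := hr
  exact ⟨b, h hb, h1, h2⟩

lemma mem_rm {u : Fin m → V} {i a : Fin m} {S : Finset (Fin m)} :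
    a ∈ C.rm u i S ↔ a ∈ S ∧ C.ro u i a S := by unfold rm; rw [Finset.mem_filter]

lemma mem_cand {u : Fin m → V} {i a : Fin m} {S : Finset (Fin m)} :
    a ∈ C.cand u i S ↔ (a ≠ i ∧ a ∉ S) ∧ C.ro u i a S := by
  unfold cand; rw [Finset.mem_filter, Finset.mem_sdiff, Finset.mem_erase]; simp

lemma mem_Φ {u : Fin m → V} {i a : Fin m} {S : Finset (Fin m)} :
    a ∈ C.Φ u i S ↔ a ∈ S ∧ ¬ C.ro u i a S := by
  unfold Φ; rw [Finset.mem_sdiff, mem_rm]; tauto

lemma mem_L {u : Fin m → V} {i l : Fin m} {S : Finset (Fin m)} :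
    l ∈ C.L u i S ↔ l ∈ S ∧ ∃ j ∈ S, C.M (u l) (u i) (u j) := by
  unfold L; rw [Finset.mem_filter]

lemma Φ_subset (u : Fin m → V) (i : Fin m) (S : Finset (Fin m)) : C.Φ u i S ⊆ S :=
  Finset.sdiff_subset

lemma L_subset (u : Fin m → V) (i : Fin m) (S : Finset (Fin m)) : C.L u i S ⊆ S :=
  Finset.filter_subset _ _

lemma L_mono {u : Fin m → V} {i : Fin m} {S S' : Finset (Fin m)} (h : S ⊆ S') :
    C.L u i S ⊆ C.L u i S' := by
  intro l hl
  rw [mem_L] at *
  obtain ⟨h1, j, hj, h2⟩ := hl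
  exact ⟨h h1, j, h hj, h2⟩

lemma alive_Φ (u : Fin m → V) (i : Fin m) (S : Finset (Fin m)) : C.alive u i (C.Φ u i S) := by
  intro a ha b hb hM
  rw [mem_Φ] at ha hb
  have hne : a ≠ b := by
    rintro rfl
    exact C.ne2 hM rfl
  rcases lt_or_gt_of_ne hne with h | h
  · exact ha.2 ⟨b, hb.1, h, hM⟩
  · exact hb.2 ⟨a, ha.1, h, C.symm hM⟩

lemma rm_end {u : Fin m → V} {i a : Fin m} {S : Finset (Fin m)} (hv : C.valid u S)
    (ha : a ∈ C.rm u i S) : ∃ b ∈ C.Φ u i S, a < b ∧ C.M (u i) (u a) (u b) := by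
  rw [mem_rm] at ha
  obtain ⟨haS, b, hb, hab, hM⟩ := ha
  refine ⟨b, ?_, hab, hM⟩
  rw [mem_Φ]
  refine ⟨hb, ?_⟩
  rintro ⟨c, hc, hbc, hM2⟩
  have h1 : u a = u c := C.fn (C.symm hM) hM2
  have h2 : a = c := valid_inj hv haS hc h1
  omega

lemma rm_subset_cand {u : Fin m → V} {i : Fin m} {S : Finset (Fin m)} (hv : C.valid u S)
    (hi : i ∉ S) : C.rm u i S ⊆ C.cand u i (C.Φ u i S) := by
  intro a ha
  obtain ⟨b, hb, hab, hM⟩ := rm_end hv ha
  rw [mem_cand]
  rw [mem_rm] at ha
  refine ⟨⟨?_, ?_⟩, b, hb, hab, hM⟩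
  · rintro rfl; exact hi ha.1
  · rw [mem_Φ]; tauto

lemma Φ_union_rm (u : Fin m → V) (i : Fin m) (S : Finset (Fin m)) :
    C.Φ u i S ∪ C.rm u i S = S :=
  Finset.sdiff_union_of_subset (Finset.filter_subset _ _)

lemma wv_union_le (u : Fin m → V) (S R : Finset (Fin m)) (hd : Disjoint S R) :
    C.wv u (S ∪ R) ≤ C.wv u S * ∏ a ∈ R, C.q u a S := by
  induction R using Finset.induction_on with
  | empty => simp
  | insert a R ha ih =>
    have hd' : Disjoint S R := Finset.disjoint_of_subset_right (Finset.subset_insert a R) hd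
    have haS : a ∉ S := fun h => Finset.disjoint_left.mp hd h (Finset.mem_insert_self a R)
    have haSR : a ∉ S ∪ R := by
      rw [Finset.mem_union]; tauto
    rw [Finset.union_insert, wv_insert haSR, Finset.prod_insert ha]
    calc C.wv u (S ∪ R) * C.q u a (S ∪ R)
        ≤ (C.wv u S * ∏ a ∈ R, C.q u a S) * C.q u a S := by
          apply mul_le_mul (ih hd') (q_anti Finset.subset_union_left) (q_nonneg _ _ _)
          exact mul_nonneg (wv_nonneg _ _) (Finset.prod_nonneg fun _ _ => q_nonneg _ _ _)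
      _ = C.wv u S * (C.q u a S * ∏ a ∈ R, C.q u a S) := by ring

lemma claim1 (u : Fin m → V) (i : Fin m) (S0 : Finset (Fin m)) :
    ∑ S ∈ (Finset.univ.erase i).powerset.filter (fun S => C.Φ u i S = S0), C.wv u S
      ≤ C.wv u S0 * Real.exp (C.F u i S0) := by
  set FF := ((Finset.univ.erase i).powerset.filter (fun S => C.Φ u i S = S0)).filter
    (fun S => C.valid u S) with hFF
  have h1 : ∑ S ∈ (Finset.univ.erase i).powerset.filter (fun S => C.Φ u i S = S0), C.wv u S
      = ∑ S ∈ FF, C.wv u S := by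
    symm
    apply Finset.sum_subset (Finset.filter_subset _ _)
    intro S hS hS'
    apply wv_of_not_valid
    intro hv
    exact hS' (Finset.mem_filter.mpr ⟨hS, hv⟩)
  have hmem : ∀ S ∈ FF, i ∉ S ∧ C.Φ u i S = S0 ∧ C.valid u S := by
    intro S hS
    rw [hFF, Finset.mem_filter, Finset.mem_filter, Finset.mem_powerset] at hS
    refine ⟨fun h => ?_, hS.1.2, hS.2⟩
    exact Finset.notMem_erase i _ (hS.1.1 h)
  have hinj : Set.InjOn (fun S => C.rm u i S) (FF : Set (Finset (Fin m))) := by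
    intro S hS S' hS' h
    have h1 := (hmem S hS).2.1
    have h2 := (hmem S' hS').2.1
    simp only at h
    rw [← Φ_union_rm (C := C) u i S, ← Φ_union_rm (C := C) u i S', h1, h2, h]
  have h2 : ∑ S ∈ FF, C.wv u S = ∑ R ∈ FF.image (fun S => C.rm u i S), C.wv u (S0 ∪ R) := by
    rw [Finset.sum_image hinj]
    refine Finset.sum_congr rfl fun S hS => ?_
    congr 1
    rw [← (hmem S hS).2.1, Φ_union_rm]
  have hdis : ∀ R ∈ (C.cand u i S0).powerset, Disjoint S0 R := by
    intro R hR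
    rw [Finset.mem_powerset] at hR
    rw [Finset.disjoint_left]
    intro a ha haR
    have := hR haR
    rw [mem_cand] at this
    exact this.1.2 ha
  rw [h1, h2]
  calc ∑ R ∈ FF.image (fun S => C.rm u i S), C.wv u (S0 ∪ R)
      ≤ ∑ R ∈ (C.cand u i S0).powerset, C.wv u (S0 ∪ R) := by
        apply Finset.sum_le_sum_of_subset_of_nonneg
        · intro R hR
          rw [Finset.mem_image] at hR
          obtain ⟨S, hS, rfl⟩ := hR
          rw [Finset.mem_powerset, ← (hmem S hS).2.1]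
          exact rm_subset_cand (hmem S hS).2.2 (hmem S hS).1
        · intro _ _ _; exact wv_nonneg _ _
    _ ≤ ∑ R ∈ (C.cand u i S0).powerset, C.wv u S0 * ∏ a ∈ R, C.q u a S0 :=
        Finset.sum_le_sum fun R hR => wv_union_le u S0 R (hdis R hR)
    _ = C.wv u S0 * ∏ a ∈ C.cand u i S0, (1 + C.q u a S0) := by
        rw [← Finset.mul_sum, Finset.prod_one_add]
    _ ≤ C.wv u S0 * ∏ a ∈ C.cand u i S0, Real.exp (C.q u a S0) := by
        apply mul_le_mul_of_nonneg_left _ (wv_nonneg _ _)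
        apply Finset.prod_le_prod
        · intro a _
          have := q_nonneg (C := C) u a S0
          linarith
        · intro a _
          have := Real.add_one_le_exp (C.q u a S0)
          linarith
    _ = C.wv u S0 * Real.exp (C.F u i S0) := by
        rw [← Real.exp_sum]; rfl

lemma mass1 (u : Fin m → V) (i : Fin m) (P : Finset (Fin m) → Prop)
    (hP : ∀ S, P S → P (C.Φ u i S)) (c0 : ℝ) :
    ∑ S ∈ (Finset.univ.erase i).powerset, C.wv u S * ind (P S ∧ C.F u i (C.Φ u i S) ≤ c0)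
      ≤ Real.exp c0 * ∑ S ∈ (Finset.univ.erase i).powerset,
        C.wv u S * ind (C.alive u i S ∧ P S) := by
  have hmaps : ∀ S ∈ (Finset.univ.erase i).powerset, C.Φ u i S ∈ (Finset.univ.erase i).powerset := by
    intro S hS
    rw [Finset.mem_powerset] at *
    exact (Φ_subset u i S).trans hS
  rw [← Finset.sum_fiberwise_of_maps_to hmaps, Finset.mul_sum]
  refine Finset.sum_le_sum fun S0 hS0 => ?_
  by_cases h0 : C.alive u i S0 ∧ P S0 ∧ C.F u i S0 ≤ c0
  · have h1 : ∀ S ∈ (Finset.univ.erase i).powerset.filter (fun S => C.Φ u i S = S0),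
        C.wv u S * ind (P S ∧ C.F u i (C.Φ u i S) ≤ c0) ≤ C.wv u S := by
      intro S _
      have := ind_le_one (P S ∧ C.F u i (C.Φ u i S) ≤ c0)
      have h2 := wv_nonneg (C := C) u S
      nlinarith
    calc _ ≤ ∑ S ∈ (Finset.univ.erase i).powerset.filter (fun S => C.Φ u i S = S0), C.wv u S :=
          Finset.sum_le_sum h1
      _ ≤ C.wv u S0 * Real.exp (C.F u i S0) := claim1 u i S0
      _ ≤ C.wv u S0 * Real.exp c0 :=
          mul_le_mul_of_nonneg_left (Real.exp_le_exp.mpr h0.2.2) (wv_nonneg _ _)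
      _ = Real.exp c0 * (C.wv u S0 * ind (C.alive u i S0 ∧ P S0)) := by
          rw [ind_pos ⟨h0.1, h0.2.1⟩]; ring
  · have h1 : ∑ S ∈ (Finset.univ.erase i).powerset.filter (fun S => C.Φ u i S = S0),
        C.wv u S * ind (P S ∧ C.F u i (C.Φ u i S) ≤ c0) = 0 := by
      refine Finset.sum_eq_zero fun S hS => ?_
      rw [Finset.mem_filter] at hS
      rw [ind_neg, mul_zero]
      rintro ⟨h2, h3⟩
      apply h0
      rw [← hS.2]
      exact ⟨alive_Φ u i S, hP S h2, h3⟩
    rw [h1]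
    exact mul_nonneg (Real.exp_pos _).le (mul_nonneg (wv_nonneg _ _) (ind_nonneg _))

/-- detailed balance -/
lemma dbal (u : Fin m → V) (i : Fin m) :
    ∑ S ∈ (Finset.univ.erase i).powerset, C.wv u S * C.F u i S
      ≤ ∑ S ∈ (Finset.univ.erase i).powerset, C.wv u S * ((C.rm u i S).card : ℝ) := by
  set A := (Finset.univ.erase i : Finset (Fin m)) with hA
  have h1 : ∀ S ∈ A.powerset, C.wv u S * C.F u i S
      = ∑ a ∈ A \ S, C.wv u S * C.q u a S * ind (C.ro u i a S) := by
    intro S _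
    unfold F cand
    rw [← hA, Finset.sum_filter, Finset.mul_sum]
    refine Finset.sum_congr rfl fun a _ => ?_
    by_cases h : C.ro u i a S
    · rw [if_pos h, ind_pos h]; ring
    · rw [if_neg h, ind_neg h]; ring
  rw [Finset.sum_congr rfl h1,
    sum_sum_notMem A (fun a S => C.wv u S * C.q u a S * ind (C.ro u i a S))]
  have h2 : ∑ a ∈ A, ∑ S ∈ (A.erase a).powerset, C.wv u S * C.q u a S * ind (C.ro u i a S)
      = ∑ S ∈ A.powerset, ∑ a ∈ S, C.wv u S * ind (C.ro u i a (S.erase a)) := by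
    rw [sum_sum_mem A (fun a S => C.wv u S * ind (C.ro u i a (S.erase a)))]
    refine Finset.sum_congr rfl fun a _ => Finset.sum_congr rfl fun S hS => ?_
    have haS : a ∉ S := fun h => Finset.notMem_erase a A (Finset.mem_powerset.mp hS h)
    rw [Finset.erase_insert haS, wv_insert haS]
  rw [h2]
  refine Finset.sum_le_sum fun S _ => ?_
  rw [← Finset.mul_sum]
  apply mul_le_mul_of_nonneg_left _ (wv_nonneg _ _)
  unfold rm
  rw [Finset.card_filter]
  push_cast
  refine Finset.sum_le_sum fun a _ => ?_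
  refine (ind_mono (ro_mono (Finset.erase_subset a S))).trans ?_
  unfold ind
  exact le_rfl

/-! ### typical indices -/

/-- a configuration of two spines with the same page, given by indices -/
def twoSp (C : Ctx V) (u : Fin m → V) (x a b a' b' : Fin m) : Prop :=
  [x, a, b, a', b'].Nodup ∧ C.M (u x) (u a) (u b) ∧ C.M (u x) (u a') (u b')

def soft (C : Ctx V) (u : Fin m → V) (x : Fin m) : ℝ :=
  ∑ a, ∑ b, ∑ a', ∑ b', ind (C.twoSp u x a b a' b') * C.k (u a) (u a')

/-- coincidence of type 4 -/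
def t4 (C : Ctx V) (u : Fin m → V) (x a b a' : Fin m) : Prop :=
  [x, a, b, a'].Nodup ∧ C.M (u x) (u a) (u b) ∧ u a = u a'

def t5 (C : Ctx V) (u : Fin m → V) (x a b a' b' : Fin m) : Prop :=
  C.twoSp u x a b a' b' ∧ C.big (u a) (u a')

def t6 (C : Ctx V) (u : Fin m → V) (x a b a' b' r : Fin m) : Prop :=
  C.twoSp u x a b a' b' ∧ r ≠ x ∧ r ≠ a ∧ r ≠ a' ∧ ¬ C.big (u a) (u b) ∧ ¬ C.big (u a') (u b') ∧
    C.tri (u a) (u a') (u r)

def typ (C : Ctx V) (u : Fin m → V) (i : Fin m) : Prop :=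
  (∀ a b a', ¬ C.t4 u i a b a') ∧ (∀ a b a' b', ¬ C.t5 u i a b a' b') ∧
  (∀ a b a' b' r, ¬ C.t6 u i a b a' b' r) ∧ C.bb * C.soft u i ≤ Real.log 2

lemma soft_term_le {u : Fin m → V} {i a b : Fin m} :
    ∑ a', ∑ b', ind (C.twoSp u i a b a' b') * C.k (u a) (u a') ≤ C.soft u i := by
  unfold soft
  calc ∑ a', ∑ b', ind (C.twoSp u i a b a' b') * C.k (u a) (u a')
      ≤ ∑ b, ∑ a', ∑ b', ind (C.twoSp u i a b a' b') * C.k (u a) (u a') :=
        Finset.single_le_sum
          (f := fun b => ∑ a', ∑ b', ind (C.twoSp u i a b a' b') * C.k (u a) (u a'))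
          (fun _ _ => Finset.sum_nonneg fun _ _ => Finset.sum_nonneg fun _ _ =>
            mul_nonneg (ind_nonneg _) (C.k_nonneg _ _)) (Finset.mem_univ b)
    _ ≤ ∑ a, ∑ b, ∑ a', ∑ b', ind (C.twoSp u i a b a' b') * C.k (u a) (u a') :=
        Finset.single_le_sum
          (f := fun a => ∑ b, ∑ a', ∑ b', ind (C.twoSp u i a b a' b') * C.k (u a) (u a'))
          (fun _ _ => Finset.sum_nonneg fun _ _ => Finset.sum_nonneg fun _ _ =>
            Finset.sum_nonneg fun _ _ => mul_nonneg (ind_nonneg _) (C.k_nonneg _ _))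
          (Finset.mem_univ a)

lemma q_claim2 {u : Fin m → V} {i a : Fin m} {S : Finset (Fin m)} (hv : C.valid u S)
    (hi : i ∉ S) (ht : C.typ u i) (hai : a ≠ i) (haS : a ∉ S) (hr : C.ro u i a (C.Φ u i S)) :
    C.q u a (C.Φ u i S) ≤ 2 * C.q u a S := by
  obtain ⟨b, hb, hab, hM⟩ := hr
  have hbS := Φ_subset u i S hb
  by_cases hva : C.valid u (insert a (C.Φ u i S))
  swap
  · have h1 : C.q u a (C.Φ u i S) = 0 := by unfold q; rw [ind_neg hva, zero_mul]
    rw [h1]
    have := q_nonneg (C := C) u a S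
    linarith
  obtain ⟨ht4, ht5, ht6, hsoft⟩ := ht
  have habne : a ≠ b := hab.ne
  have hnab : ¬ C.bp (u a) (u b) :=
    hva.1 a (Finset.mem_insert_self _ _) b (Finset.mem_insert_of_mem hb) habne
  -- facts about removed elements
  have key : ∀ a' ∈ C.rm u i S, ∃ b' ∈ S, a' ≠ b' ∧ C.M (u i) (u a') (u b') ∧ u a ≠ u a' ∧
      C.twoSp u i a b a' b' := by
    intro a' ha'
    obtain ⟨b', hb', hab', hM'⟩ := rm_end hv ha'
    have ha'S := (mem_rm.mp ha').1
    have hb'S := Φ_subset u i S hb'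
    have h1 : a ≠ a' := fun h => haS (h ▸ ha'S)
    have h2 : b ≠ a' := by
      rintro rfl
      exact (mem_Φ.mp hb).2 (mem_rm.mp ha').2
    have h3 : b' ≠ a' := hab'.ne'
    have h4 : i ≠ b := fun h => hi (h ▸ hbS)
    have h5 : i ≠ a' := fun h => hi (h ▸ ha'S)
    have h6 : i ≠ b' := fun h => hi (h ▸ hb'S)
    have h7 : a ≠ b' := fun h => haS (h ▸ hb'S)
    have hne : u a ≠ u a' := by
      intro h
      refine ht4 a b a' ⟨?_, hM, h⟩
      simp [hai.symm, h4, h5, habne, h1, h2]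
    have h8 : b ≠ b' := by
      rintro rfl
      exact hne (C.fn (C.symm hM) (C.symm hM'))
    refine ⟨b', hb'S, h3.symm, hM', hne, ?_, hM, hM'⟩
    simp [hai.symm, h4, h5, h6, habne, h1, h2, h7, h8, h3.symm]
  have hval : C.valid u (insert a S) := by
    have hpair : ∀ c ∈ S, ¬ C.bp (u a) (u c) := by
      intro c hc
      by_cases hcΦ : c ∈ C.Φ u i S
      · exact hva.1 a (Finset.mem_insert_self _ _) c (Finset.mem_insert_of_mem hcΦ)
          (fun h => haS (h ▸ hc))
      · have hcr : c ∈ C.rm u i S := by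
          rw [mem_Φ] at hcΦ
          rw [mem_rm]
          tauto
        obtain ⟨b', hb'S, _, hM', hne, h2⟩ := key c hcr
        rintro (h | h)
        · exact hne h
        · exact ht5 a b c b' ⟨h2, h⟩
    have htri : ∀ c ∈ S, ∀ d ∈ S, ¬ C.tri (u a) (u c) (u d) := by
      have haux : ∀ c ∈ C.rm u i S, ∀ d ∈ S, ¬ C.tri (u a) (u c) (u d) := by
        intro c hc d hd htr
        obtain ⟨b', hb'S, hcb', hM', hne, h2⟩ := key c hc
        have hcS := (mem_rm.mp hc).1
        refine ht6 a b c b' d ⟨h2, fun h => hi (h ▸ hd), fun h => haS (h ▸ hd), ?_, ?_, ?_, htr⟩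
        · rintro rfl
          exact C.tri_ne23 htr rfl
        · exact fun h => hnab (Or.inr h)
        · exact fun h => hv.1 c hcS b' hb'S hcb' (Or.inr h)
      intro c hc d hd htr
      by_cases hcr : c ∈ C.rm u i S
      · exact haux c hcr d hd htr
      by_cases hdr : d ∈ C.rm u i S
      · exact haux d hdr c hc (C.tri_swap23 htr)
      have hcΦ : c ∈ C.Φ u i S := by
        rw [mem_rm] at hcr; rw [mem_Φ]; tauto
      have hdΦ : d ∈ C.Φ u i S := by
        rw [mem_rm] at hdr; rw [mem_Φ]; tauto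
      have ha1 : a ∈ insert a (C.Φ u i S) := Finset.mem_insert_self _ _
      have hc1 : c ∈ insert a (C.Φ u i S) := Finset.mem_insert_of_mem hcΦ
      have hd1 : d ∈ insert a (C.Φ u i S) := Finset.mem_insert_of_mem hdΦ
      rcases htr with h | h | h
      · exact hva.2 a ha1 c hc1 d hd1 h
      · exact hva.2 c hc1 a ha1 d hd1 h
      · exact hva.2 d hd1 a ha1 c hc1 h
    constructor
    · intro x hx y hy hxy
      rw [Finset.mem_insert] at hx hy
      rcases hx with rfl | hx <;> rcases hy with rfl | hy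
      · exact absurd rfl hxy
      · exact hpair y hy
      · exact fun h => hpair x hx (C.bp_symm h)
      · exact hv.1 x hx y hy hxy
    · intro x hx y hy z hz hMM
      rw [Finset.mem_insert] at hx hy hz
      rcases hx with rfl | hx <;> rcases hy with rfl | hy <;> rcases hz with rfl | hz
      · exact C.ne1 hMM rfl
      · exact C.ne1 hMM rfl
      · exact C.ne3 hMM rfl
      · exact htri y hy z hz (Or.inl hMM)
      · exact C.ne2 hMM rfl
      · exact htri x hx z hz (Or.inr (Or.inl hMM))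
      · exact htri x hx y hy (Or.inr (Or.inl (C.symm hMM)))
      · exact hv.2 x hx y hy z hz hMM
  -- the exponential factor
  have hkk : C.kk u a S = C.kk u a (C.Φ u i S) + ∑ a' ∈ C.rm u i S, C.k (u a) (u a') := by
    unfold kk Φ
    exact (Finset.sum_sdiff (Finset.filter_subset _ _)).symm
  have hrm : ∑ a' ∈ C.rm u i S, C.k (u a) (u a') ≤ C.soft u i := by
    refine le_trans ?_ (soft_term_le (C := C) (u := u) (i := i) (a := a) (b := b))
    calc ∑ a' ∈ C.rm u i S, C.k (u a) (u a')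
        ≤ ∑ a' ∈ C.rm u i S, ∑ b', ind (C.twoSp u i a b a' b') * C.k (u a) (u a') := by
          refine Finset.sum_le_sum fun a' ha' => ?_
          obtain ⟨b', _, _, _, _, h2⟩ := key a' ha'
          calc C.k (u a) (u a') = ind (C.twoSp u i a b a' b') * C.k (u a) (u a') := by
                rw [ind_pos h2, one_mul]
            _ ≤ _ := Finset.single_le_sum
                (f := fun b' => ind (C.twoSp u i a b a' b') * C.k (u a) (u a'))
                (fun _ _ => mul_nonneg (ind_nonneg _) (C.k_nonneg _ _)) (Finset.mem_univ b')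
      _ ≤ ∑ a', ∑ b', ind (C.twoSp u i a b a' b') * C.k (u a) (u a') :=
          Finset.sum_le_sum_of_subset_of_nonneg (Finset.subset_univ _)
            fun _ _ _ => Finset.sum_nonneg fun _ _ => mul_nonneg (ind_nonneg _) (C.k_nonneg _ _)
  unfold q
  rw [ind_pos hva, ind_pos hval, one_mul, one_mul]
  have hbb := C.hbb
  have h2 : (2 : ℝ) = Real.exp (Real.log 2) := (Real.exp_log (by norm_num)).symm
  rw [h2, ← Real.exp_add]
  apply Real.exp_le_exp.mpr
  rw [hkk]
  have := mul_le_mul_of_nonneg_left hrm hbb.le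
  linarith

lemma claim2 {u : Fin m → V} {i : Fin m} {S : Finset (Fin m)} (hv : C.valid u S)
    (hi : i ∉ S) (ht : C.typ u i) :
    C.F u i (C.Φ u i S) ≤ 2 * C.F u i S + ((C.rm u i S).card : ℝ) := by
  have hsub : C.cand u i (C.Φ u i S) ⊆ C.rm u i S ∪ (C.cand u i (C.Φ u i S)).filter
      (fun a => a ∉ S) := by
    intro a ha
    rw [Finset.mem_union, Finset.mem_filter]
    by_cases haS : a ∈ S
    · left
      rw [mem_cand] at ha
      rw [mem_rm]
      have := ha.1.2
      rw [mem_Φ] at this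
      tauto
    · right; exact ⟨ha, haS⟩
  have h1 : C.F u i (C.Φ u i S) ≤ ∑ a ∈ C.rm u i S ∪ (C.cand u i (C.Φ u i S)).filter
      (fun a => a ∉ S), C.q u a (C.Φ u i S) :=
    Finset.sum_le_sum_of_subset_of_nonneg hsub fun _ _ _ => q_nonneg _ _ _
  have hd : Disjoint (C.rm u i S) ((C.cand u i (C.Φ u i S)).filter (fun a => a ∉ S)) := by
    rw [Finset.disjoint_left]
    intro a ha ha'
    rw [mem_rm] at ha
    rw [Finset.mem_filter] at ha'
    exact ha'.2 ha.1
  rw [Finset.sum_union hd] at h1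
  have h2 : ∑ a ∈ C.rm u i S, C.q u a (C.Φ u i S) ≤ ((C.rm u i S).card : ℝ) := by
    calc _ ≤ ∑ _a ∈ C.rm u i S, (1 : ℝ) := Finset.sum_le_sum fun a _ => q_le_one _ _ _
      _ = _ := by simp
  have h3 : ∑ a ∈ (C.cand u i (C.Φ u i S)).filter (fun a => a ∉ S), C.q u a (C.Φ u i S)
      ≤ 2 * C.F u i S := by
    unfold F
    rw [Finset.mul_sum]
    calc _ ≤ ∑ a ∈ (C.cand u i (C.Φ u i S)).filter (fun a => a ∉ S), 2 * C.q u a S := by
          refine Finset.sum_le_sum fun a ha => ?_
          rw [Finset.mem_filter, mem_cand] at ha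
          exact q_claim2 hv hi ht ha.1.1.1 ha.2 ha.1.2
      _ ≤ _ := by
          apply Finset.sum_le_sum_of_subset_of_nonneg
          · intro a ha
            rw [Finset.mem_filter, mem_cand] at ha
            rw [mem_cand]
            exact ⟨⟨ha.1.1.1, ha.2⟩, ro_mono (Φ_subset u i S) ha.1.2⟩
          · intro _ _ _
            exact mul_nonneg (by norm_num) (q_nonneg _ _ _)
  linarith

end Ctx

end

end Pool.Agent.H993R2.TP
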