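import Pool.Agent.H993R2.TP.Part1

set_option autoImplicit false
set_option linter.unusedSectionVars false
set_option linter.unusedVariables false

/-!
Expected numbers of coincidences.
-/

namespace Pool.Agent.H993R2.TP

open scoped BigOperators Classical

noncomputable section

variable {V : Type} [Fintype V] {m : ℕ}

namespace Ctx

variable {C : Ctx V}

lemma twoSp_split {x a b a' b' : Fin m} (h : [x, a, b, a', b'].Nodup) :
    x ≠ a ∧ x ≠ b ∧ x ≠ a' ∧ x ≠ b' ∧ a ≠ b ∧ a ≠ a' ∧ a ≠ b' ∧ b ≠ a' ∧ b ≠ b' ∧ a' ≠ b' := by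
  simp only [List.nodup_cons, List.mem_cons, List.not_mem_nil, or_false, not_or,
    List.nodup_nil, and_true, not_false_eq_true] at h
  tauto

lemma E_const_nonneg_mul (c : ℝ) : E (fun _ : Fin m → V => c) = c * E (fun _ : Fin m → V => (1:ℝ)) := by
  rw [← E_smul]; simp

/-- two spines with the same page and a kernel on the first ends -/
lemma E_two {x a b a' b' : Fin m} (K2 : V → V → ℝ) (c : ℝ) (hK : ∀ y z, 0 ≤ K2 y z)
    (hc : ∀ y, ∑ v, K2 y v ≤ c) :
    E (fun u : Fin m → V => ind (C.twoSp u x a b a' b') * K2 (u a) (u a')) ≤ c / nn V ^ 3 := by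
  have hN := nn_pos C
  have hc0 : 0 ≤ c := by
    by_cases hne : Nonempty V
    · obtain ⟨y⟩ := hne
      exact (Finset.sum_nonneg fun v _ => hK y v).trans (hc y)
    · exfalso
      have := C.hN
      rw [Fintype.card_pos_iff] at this
      exact hne this
  by_cases hnd : [x, a, b, a', b'].Nodup
  swap
  · have h1 : ∀ u : Fin m → V, ind (C.twoSp u x a b a' b') * K2 (u a) (u a') ≤ 0 := by
      intro u
      rw [ind_neg (fun h => hnd h.1), zero_mul]
    have h2 := E_mono h1
    rw [E_const C] at h2
    have : 0 ≤ c / nn V ^ 3 := by positivity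
    linarith
  obtain ⟨hxa, hxb, hxa', hxb', hab, haa', hab', hba', hbb', ha'b'⟩ := twoSp_split hnd
  have s1 : E (fun u : Fin m → V => ind (C.twoSp u x a b a' b') * K2 (u a) (u a'))
      ≤ (1 / nn V) * E (fun u : Fin m → V => ind (C.M (u x) (u a) (u b)) * K2 (u a) (u a')) := by
    apply E_int C _ _ b' 1
    intro u
    rw [one_mul]
    calc ∑ v, ind (C.twoSp (Function.update u b' v) x a b a' b') *
          K2 (Function.update u b' v a) (Function.update u b' v a')
        ≤ ∑ v, (ind (C.M (u x) (u a) (u b)) * K2 (u a) (u a')) * ind (C.M (u x) (u a') v) := by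
          refine Finset.sum_le_sum fun v _ => ?_
          unfold twoSp
          rw [ind_and, ind_and, Function.update_of_ne hxb', Function.update_of_ne hab',
            Function.update_of_ne hbb', Function.update_of_ne ha'b', Function.update_self,
            ind_pos hnd]
          apply le_of_eq; ring
      _ = (ind (C.M (u x) (u a) (u b)) * K2 (u a) (u a')) * ∑ v, ind (C.M (u x) (u a') v) := by
          rw [Finset.mul_sum]
      _ ≤ (ind (C.M (u x) (u a) (u b)) * K2 (u a) (u a')) * 1 :=
          mul_le_mul_of_nonneg_left (C.sum_M3 _ _) (mul_nonneg (ind_nonneg _) (hK _ _))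
      _ = _ := mul_one _
  have s2 : E (fun u : Fin m → V => ind (C.M (u x) (u a) (u b)) * K2 (u a) (u a'))
      ≤ (1 / nn V) * E (fun u : Fin m → V => K2 (u a) (u a')) := by
    apply E_int C _ _ b 1
    intro u
    rw [one_mul]
    calc ∑ v, ind (C.M (Function.update u b v x) (Function.update u b v a)
            (Function.update u b v b)) * K2 (Function.update u b v a) (Function.update u b v a')
        = ∑ v, K2 (u a) (u a') * ind (C.M (u x) (u a) v) := by
          refine Finset.sum_congr rfl fun v _ => ?_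
          rw [Function.update_of_ne hxb, Function.update_of_ne hab,
            Function.update_of_ne hba'.symm, Function.update_self]
          ring
      _ = K2 (u a) (u a') * ∑ v, ind (C.M (u x) (u a) v) := by
          rw [Finset.mul_sum]
      _ ≤ K2 (u a) (u a') * 1 := mul_le_mul_of_nonneg_left (C.sum_M3 _ _) (hK _ _)
      _ = _ := mul_one _
  have s3 : E (fun u : Fin m → V => K2 (u a) (u a')) ≤ (c / nn V) * E (fun _ : Fin m → V => (1 : ℝ)) := by
    apply E_int C _ _ a' c
    intro u
    rw [mul_one]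
    calc ∑ v, K2 (Function.update u a' v a) (Function.update u a' v a')
        = ∑ v, K2 (u a) v := by
          refine Finset.sum_congr rfl fun v _ => ?_
          rw [Function.update_of_ne haa', Function.update_self]
      _ ≤ c := hc _
  rw [E_const C, mul_one] at s3
  calc _ ≤ _ := s1
    _ ≤ (1 / nn V) * ((1 / nn V) * (c / nn V)) := by
        apply mul_le_mul_of_nonneg_left _ (by positivity)
        exact s2.trans (mul_le_mul_of_nonneg_left s3 (by positivity))
    _ = c / nn V ^ 3 := by field_simp

lemma E_k {i j : Fin m} : E (fun u : Fin m → V => C.k (u i) (u j)) ≤ 1 := by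
  have hN := nn_pos C
  by_cases hij : i = j
  · subst hij
    have h1 : ∀ u : Fin m → V, C.k (u i) (u i) ≤ 1 := by
      intro u; rw [C.k_self]; norm_num
    have h2 := E_mono h1
    rwa [E_const C] at h2
  · have s3 : E (fun u : Fin m → V => C.k (u i) (u j))
        ≤ (nn V / nn V) * E (fun _ : Fin m → V => (1 : ℝ)) := by
      apply E_int C _ _ j (nn V)
      intro u
      rw [mul_one]
      calc ∑ v, C.k (Function.update u j v i) (Function.update u j v j)
          = ∑ v, C.k (u i) v := by
            refine Finset.sum_congr rfl fun v _ => ?_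
            rw [Function.update_of_ne hij, Function.update_self]
        _ ≤ _ := C.sum_k _
    rw [E_const C, mul_one, div_self hN.ne'] at s3
    exact s3

lemma E_bp {i j : Fin m} (hij : i ≠ j) : E (fun u : Fin m → V => ind (C.bp (u i) (u j)))
    ≤ 1 / nn V + 1 / C.B := by
  have hN := nn_pos C
  have hB := C.hB
  have s3 : E (fun u : Fin m → V => ind (C.bp (u i) (u j)))
      ≤ ((1 + nn V / C.B) / nn V) * E (fun _ : Fin m → V => (1 : ℝ)) := by
    apply E_int C _ _ i
    intro u
    rw [mul_one]
    calc ∑ v, ind (C.bp (Function.update u i v i) (Function.update u i v j))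
        = ∑ v, ind (C.bp v (u j)) := by
          refine Finset.sum_congr rfl fun v _ => ?_
          rw [Function.update_of_ne hij.symm, Function.update_self]
      _ ≤ _ := sum_bp _
  rw [E_const C, mul_one] at s3
  refine s3.trans (le_of_eq ?_)
  field_simp

lemma E_tri {i j k : Fin m} : E (fun u : Fin m → V => ind (C.tri (u i) (u j) (u k)))
    ≤ 3 / nn V := by
  have hN := nn_pos C
  by_cases hd : i ≠ j ∧ i ≠ k ∧ j ≠ k
  swap
  · have h1 : ∀ u : Fin m → V, ind (C.tri (u i) (u j) (u k)) ≤ 0 := by
      intro u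
      rw [ind_neg]
      intro h
      apply hd
      refine ⟨?_, ?_, ?_⟩
      · rintro rfl; exact C.tri_ne12 h rfl
      · rintro rfl; exact C.tri_ne13 h rfl
      · rintro rfl; exact C.tri_ne23 h rfl
    have h2 := E_mono h1
    rw [E_const C] at h2
    have : 0 ≤ 3 / nn V := by positivity
    linarith
  obtain ⟨hij, hik, hjk⟩ := hd
  have s1 : E (fun u : Fin m → V => ind (C.tri (u i) (u j) (u k)))
      ≤ (1 / nn V) * E (fun u : Fin m → V => 2 + C.k (u i) (u j)) := by
    apply E_int C _ _ k 1
    intro u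
    rw [one_mul]
    calc ∑ v, ind (C.tri (Function.update u k v i) (Function.update u k v j)
            (Function.update u k v k)) = ∑ v, ind (C.tri (u i) (u j) v) := by
          refine Finset.sum_congr rfl fun v _ => ?_
          rw [Function.update_of_ne hik, Function.update_of_ne hjk, Function.update_self]
      _ ≤ _ := C.sum_tri3 _ _
  have s2 := E_k (C := C) (i := i) (j := j)
  rw [E_add, E_const C] at s1
  calc _ ≤ _ := s1
    _ ≤ (1 / nn V) * (2 + 1) := by
        apply mul_le_mul_of_nonneg_left _ (by positivity)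
        linarith
    _ = _ := by ring

lemma E_soft : E (fun u : Fin m → V => ∑ x, C.soft u x) ≤ m ^ 5 / nn V ^ 2 := by
  have hN := nn_pos C
  unfold soft
  rw [E_sum]
  have h1 : ∀ x a b a' b' : Fin m,
      E (fun u : Fin m → V => ind (C.twoSp u x a b a' b') * C.k (u a) (u a')) ≤ 1 / nn V ^ 2 := by
    intro x a b a' b'
    have h := E_two (C := C) (x := x) (a := a) (b := b) (a' := a') (b' := b') (fun y z => C.k y z)
      (nn V) (fun y z => C.k_nonneg y z) (fun y => C.sum_k y)
    refine h.trans (le_of_eq ?_)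
    field_simp
  calc ∑ x, E (fun u : Fin m → V => ∑ a, ∑ b, ∑ a', ∑ b',
        ind (C.twoSp u x a b a' b') * C.k (u a) (u a'))
      = ∑ x : Fin m, ∑ a : Fin m, ∑ b : Fin m, ∑ a' : Fin m, ∑ b' : Fin m,
        E (fun u : Fin m → V => ind (C.twoSp u x a b a' b') * C.k (u a) (u a')) := by
        refine Finset.sum_congr rfl fun x _ => ?_
        rw [E_sum]
        refine Finset.sum_congr rfl fun a _ => ?_
        rw [E_sum]
        refine Finset.sum_congr rfl fun b _ => ?_
        rw [E_sum]
        refine Finset.sum_congr rfl fun a' _ => ?_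
        rw [E_sum]
    _ ≤ ∑ _x : Fin m, ∑ _a : Fin m, ∑ _b : Fin m, ∑ _a' : Fin m, ∑ _b' : Fin m,
        1 / nn V ^ 2 :=
        Finset.sum_le_sum fun x _ => Finset.sum_le_sum fun a _ => Finset.sum_le_sum fun b _ =>
          Finset.sum_le_sum fun a' _ => Finset.sum_le_sum fun b' _ => h1 x a b a' b'
    _ = m ^ 5 / nn V ^ 2 := by
        simp only [Finset.sum_const, Finset.card_univ, Fintype.card_fin, nsmul_eq_mul]
        ring

/-- expected number of `t4` -/
lemma E_t4 (x a b a' : Fin m) : E (fun u : Fin m → V => ind (C.t4 u x a b a')) ≤ 1 / nn V ^ 2 := by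
  have hN := nn_pos C
  by_cases hnd : [x, a, b, a'].Nodup
  swap
  · have h1 : ∀ u : Fin m → V, ind (C.t4 u x a b a') ≤ 0 := by
      intro u
      rw [ind_neg (fun h => hnd h.1)]
    have h2 := E_mono h1
    rw [E_const C] at h2
    have : 0 ≤ 1 / nn V ^ 2 := by positivity
    linarith
  have hnd' := hnd
  simp only [List.nodup_cons, List.mem_cons, List.not_mem_nil, or_false, not_or,
    List.nodup_nil, and_true, not_false_eq_true] at hnd'
  obtain ⟨⟨hxa, hxb, hxa'⟩, ⟨hab, haa'⟩, hba'⟩ := hnd'
  have s1 : E (fun u : Fin m → V => ind (C.t4 u x a b a'))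
      ≤ (1 / nn V) * E (fun u : Fin m → V => ind (C.M (u x) (u a) (u b))) := by
    apply E_int C _ _ a' 1
    intro u
    rw [one_mul]
    calc ∑ v, ind (C.t4 (Function.update u a' v) x a b a')
        = ∑ v, ind (C.M (u x) (u a) (u b)) * ind (v = u a) := by
          refine Finset.sum_congr rfl fun v _ => ?_
          unfold t4
          rw [ind_and, ind_and, Function.update_of_ne hxa', Function.update_of_ne haa',
            Function.update_of_ne hba', Function.update_self, ind_pos hnd, one_mul]
          congr 2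
          exact propext ⟨fun h => h.symm, fun h => h.symm⟩
      _ = ind (C.M (u x) (u a) (u b)) * ∑ v, ind (v = u a) := by rw [Finset.mul_sum]
      _ ≤ ind (C.M (u x) (u a) (u b)) * 1 :=
          mul_le_mul_of_nonneg_left (sum_eq_one _) (ind_nonneg _)
      _ = _ := mul_one _
  have s2 : E (fun u : Fin m → V => ind (C.M (u x) (u a) (u b)))
      ≤ (1 / nn V) * E (fun _ : Fin m → V => (1 : ℝ)) := by
    apply E_int C _ _ b 1
    intro u
    rw [one_mul]
    calc ∑ v, ind (C.M (Function.update u b v x) (Function.update u b v a)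
            (Function.update u b v b))
        = ∑ v, ind (C.M (u x) (u a) v) := by
          refine Finset.sum_congr rfl fun v _ => ?_
          rw [Function.update_of_ne hxb, Function.update_of_ne hab, Function.update_self]
      _ ≤ 1 := C.sum_M3 _ _
  rw [E_const C, mul_one] at s2
  calc _ ≤ _ := s1
    _ ≤ (1 / nn V) * (1 / nn V) := mul_le_mul_of_nonneg_left s2 (by positivity)
    _ = _ := by field_simp

lemma E_t5 (x a b a' b' : Fin m) :
    E (fun u : Fin m → V => ind (C.t5 u x a b a' b')) ≤ 1 / (nn V ^ 2 * C.B) := by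
  have hN := nn_pos C
  have hB := C.hB
  have h := E_two (C := C) (x := x) (a := a) (b := b) (a' := a') (b' := b')
    (fun y z => ind (C.big y z)) (nn V / C.B) (fun y z => ind_nonneg _) (fun y => by
      calc ∑ v, ind (C.big y v) = ∑ v, ind (C.big v y) := by
            refine Finset.sum_congr rfl fun v _ => ?_
            congr 1
            exact propext ⟨C.big_symm, C.big_symm⟩
        _ ≤ _ := sum_big y)
  have h2 : ∀ u : Fin m → V, ind (C.t5 u x a b a' b')
      = ind (C.twoSp u x a b a' b') * ind (C.big (u a) (u a')) := fun u => ind_and _ _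
  simp only [h2]
  refine h.trans (le_of_eq ?_)
  field_simp

/-- `t6` with the sixth index different from the ends of the spines -/
lemma E_t6_gen {x a b a' b' r : Fin m} (hrb : r ≠ b) (hrb' : r ≠ b') :
    E (fun u : Fin m → V => ind (C.t6 u x a b a' b' r)) ≤ 3 / nn V ^ 3 := by
  have hN := nn_pos C
  by_cases hd : r ≠ x ∧ r ≠ a ∧ r ≠ a'
  swap
  · have h1 : ∀ u : Fin m → V, ind (C.t6 u x a b a' b' r) ≤ 0 := by
      intro u
      rw [ind_neg (fun h => hd ⟨h.2.1, h.2.2.1, h.2.2.2.1⟩)]
    have h2 := E_mono h1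
    rw [E_const C] at h2
    have : 0 ≤ 3 / nn V ^ 3 := by positivity
    linarith
  obtain ⟨hrx, hra, hra'⟩ := hd
  have s1 : E (fun u : Fin m → V => ind (C.t6 u x a b a' b' r))
      ≤ (1 / nn V) * E (fun u : Fin m → V =>
        ind (C.twoSp u x a b a' b') * (2 + C.k (u a) (u a'))) := by
    apply E_int C _ _ r 1
    intro u
    rw [one_mul]
    calc ∑ v, ind (C.t6 (Function.update u r v) x a b a' b' r)
        ≤ ∑ v, ind (C.twoSp u x a b a' b') * ind (C.tri (u a) (u a') v) := by
          refine Finset.sum_le_sum fun v _ => ?_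
          rw [← ind_and]
          apply ind_mono
          rintro ⟨h1, _, _, _, _, _, h2⟩
          unfold twoSp at h1
          rw [Function.update_of_ne hrx.symm, Function.update_of_ne hra.symm,
            Function.update_of_ne hrb.symm, Function.update_of_ne hra'.symm,
            Function.update_of_ne hrb'.symm] at h1
          rw [Function.update_of_ne hra.symm, Function.update_of_ne hra'.symm,
            Function.update_self] at h2
          exact ⟨h1, h2⟩
      _ = ind (C.twoSp u x a b a' b') * ∑ v, ind (C.tri (u a) (u a') v) := by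
          rw [Finset.mul_sum]
      _ ≤ _ := mul_le_mul_of_nonneg_left (C.sum_tri3 _ _) (ind_nonneg _)
  have s2 := E_two (C := C) (x := x) (a := a) (b := b) (a' := a') (b' := b')
    (fun y z => 2 + C.k y z) (3 * nn V) (fun y z => by have := C.k_nonneg y z; linarith)
    (fun y => by
      rw [Finset.sum_add_distrib]
      have := C.sum_k y
      have h3 : ∑ _v : V, (2 : ℝ) = 2 * nn V := by
        unfold nn; simp; ring
      rw [h3]
      unfold nn at *
      linarith)
  calc _ ≤ _ := s1
    _ ≤ (1 / nn V) * (3 * nn V / nn V ^ 3) := mul_le_mul_of_nonneg_left s2 (by positivity)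
    _ = _ := by field_simp

lemma E_t6_b {x a b a' b' : Fin m} :
    E (fun u : Fin m → V => ind (C.t6 u x a b a' b' b)) ≤ (2 + C.B) / nn V ^ 3 := by
  have hN := nn_pos C
  have hB := C.hB
  by_cases hnd : [x, a, b, a', b'].Nodup
  swap
  · have h1 : ∀ u : Fin m → V, ind (C.t6 u x a b a' b' b) ≤ 0 := by
      intro u
      rw [ind_neg (fun h => hnd h.1.1)]
    have h2 := E_mono h1
    rw [E_const C] at h2
    have : 0 ≤ (2 + C.B) / nn V ^ 3 := by positivity
    linarith
  obtain ⟨hxa, hxb, hxa', hxb', hab, haa', hab', hba', hbb', ha'b'⟩ := twoSp_split hnd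
  have s1 : E (fun u : Fin m → V => ind (C.t6 u x a b a' b' b))
      ≤ (1 / nn V) * E (fun u : Fin m → V => ind (C.M (u x) (u a) (u b) ∧ ¬ C.big (u a) (u b) ∧
        C.tri (u a) (u a') (u b))) := by
    apply E_int C _ _ b' 1
    intro u
    rw [one_mul]
    calc ∑ v, ind (C.t6 (Function.update u b' v) x a b a' b' b)
        ≤ ∑ v, ind (C.M (u x) (u a) (u b) ∧ ¬ C.big (u a) (u b) ∧
        C.tri (u a) (u a') (u b)) * ind (C.M (u x) (u a') v) := by
          refine Finset.sum_le_sum fun v _ => ?_
          rw [← ind_and]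
          apply ind_mono
          rintro ⟨⟨_, h1, h1'⟩, _, _, _, h2, _, h3⟩
          rw [Function.update_of_ne hxb', Function.update_of_ne hab',
            Function.update_of_ne hbb'] at h1
          rw [Function.update_of_ne hxb', Function.update_of_ne ha'b',
            Function.update_self] at h1'
          rw [Function.update_of_ne hab', Function.update_of_ne hbb'] at h2
          rw [Function.update_of_ne hab', Function.update_of_ne ha'b',
            Function.update_of_ne hbb'] at h3
          exact ⟨⟨h1, h2, h3⟩, h1'⟩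
      _ = ind (C.M (u x) (u a) (u b) ∧ ¬ C.big (u a) (u b) ∧
        C.tri (u a) (u a') (u b)) * ∑ v, ind (C.M (u x) (u a') v) := by
          rw [Finset.mul_sum]
      _ ≤ _ := mul_le_mul_of_nonneg_left (C.sum_M3 _ _) (ind_nonneg _)
      _ = _ := mul_one _
  have s2 : E (fun u : Fin m → V => ind (C.M (u x) (u a) (u b) ∧ ¬ C.big (u a) (u b) ∧
        C.tri (u a) (u a') (u b)))
      ≤ ((2 + C.B) / nn V) * E (fun u : Fin m → V => ind (C.M (u x) (u a) (u b))) := by
    apply E_int C _ _ a'
    intro u
    calc ∑ v, ind (C.M (Function.update u a' v x) (Function.update u a' v a)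
            (Function.update u a' v b) ∧
            ¬ C.big (Function.update u a' v a) (Function.update u a' v b) ∧
            C.tri (Function.update u a' v a) (Function.update u a' v a')
              (Function.update u a' v b))
        = ∑ v, ind (C.M (u x) (u a) (u b)) * (ind (¬ C.big (u a) (u b)) *
            ind (C.tri (u a) v (u b))) := by
          refine Finset.sum_congr rfl fun v _ => ?_
          rw [Function.update_of_ne hxa', Function.update_of_ne haa',
            Function.update_of_ne hba', Function.update_self, ind_and, ind_and]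
      _ = ind (C.M (u x) (u a) (u b)) * (ind (¬ C.big (u a) (u b)) *
            ∑ v, ind (C.tri (u a) v (u b))) := by
          rw [Finset.mul_sum, Finset.mul_sum]
      _ ≤ ind (C.M (u x) (u a) (u b)) * (2 + C.B) := by
          apply mul_le_mul_of_nonneg_left _ (ind_nonneg _)
          apply ind_mul_le_of_imp _ (by positivity)
          intro hnb
          have h1 := C.sum_tri2 (u a) (u b)
          unfold big at hnb
          push Not at hnb
          linarith
      _ = _ := by ring
  have s3 : E (fun u : Fin m → V => ind (C.M (u x) (u a) (u b)))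
      ≤ (1 / nn V) * E (fun _ : Fin m → V => (1 : ℝ)) := by
    apply E_int C _ _ b 1
    intro u
    rw [one_mul]
    calc ∑ v, ind (C.M (Function.update u b v x) (Function.update u b v a)
            (Function.update u b v b))
        = ∑ v, ind (C.M (u x) (u a) v) := by
          refine Finset.sum_congr rfl fun v _ => ?_
          rw [Function.update_of_ne hxb, Function.update_of_ne hab, Function.update_self]
      _ ≤ 1 := C.sum_M3 _ _
  rw [E_const C, mul_one] at s3
  calc _ ≤ _ := s1
    _ ≤ (1 / nn V) * (((2 + C.B) / nn V) * (1 / nn V)) := by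
        apply mul_le_mul_of_nonneg_left _ (by positivity)
        exact s2.trans (mul_le_mul_of_nonneg_left s3 (by positivity))
    _ = _ := by field_simp

lemma t6_swap {u : Fin m → V} {x a b a' b' r : Fin m} (h : C.t6 u x a b a' b' r) :
    C.t6 u x a' b' a b r := by
  obtain ⟨⟨h1, h1', h1''⟩, h2, h3, h4, h5, h6, h7⟩ := h
  obtain ⟨hxa, hxb, hxa', hxb', hab, haa', hab', hba', hbb', ha'b'⟩ := twoSp_split h1
  refine ⟨⟨?_, h1'', h1'⟩, h2, h4, h3, h6, h5, C.tri_swap12 h7⟩
  simp only [List.nodup_cons, List.mem_cons, List.not_mem_nil, or_false, not_or,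
    List.nodup_nil, and_true, not_false_eq_true]
  exact ⟨⟨hxa', hxb', hxa, hxb⟩, ⟨ha'b', haa'.symm, hba'.symm⟩, ⟨hab'.symm, hbb'.symm⟩, hab⟩

/-- the total expected number of `t6` coincidences -/
def B6 (C : Ctx V) (m : ℕ) : ℝ := (3 * m ^ 6 + 2 * m ^ 5 * (2 + C.B)) / nn V ^ 3

lemma E_t6 : E (fun u : Fin m → V => ∑ x, ∑ a, ∑ b, ∑ a', ∑ b', ∑ r,
    ind (C.t6 u x a b a' b' r)) ≤ C.B6 m := by
  have hN := nn_pos C
  have hB := C.hB
  have h1 : ∀ x a b a' b' r : Fin m, E (fun u : Fin m → V => ind (C.t6 u x a b a' b' r))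
      ≤ 3 / nn V ^ 3 + (if r = b then (2 + C.B) / nn V ^ 3 else 0)
        + (if r = b' then (2 + C.B) / nn V ^ 3 else 0) := by
    intro x a b a' b' r
    have p1 : 0 ≤ 3 / nn V ^ 3 := by positivity
    have p2 : 0 ≤ (2 + C.B) / nn V ^ 3 := by positivity
    by_cases hrb : r = b
    · subst hrb
      have := E_t6_b (C := C) (x := x) (a := a) (b := r) (a' := a') (b' := b')
      rw [if_pos rfl]
      split_ifs <;> linarith
    · by_cases hrb' : r = b'
      · subst hrb'
        rw [if_neg hrb, if_pos rfl]
        have h2 := E_t6_b (C := C) (x := x) (a := a') (b := r) (a' := a) (b' := b)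
        have h3 : E (fun u : Fin m → V => ind (C.t6 u x a b a' r r))
            ≤ E (fun u : Fin m → V => ind (C.t6 u x a' r a b r)) :=
          E_mono fun u => ind_mono fun h => t6_swap h
        linarith
      · rw [if_neg hrb, if_neg hrb']
        have := E_t6_gen (C := C) (x := x) (a := a) (b := b) (a' := a') (b' := b') hrb hrb'
        linarith
  calc E (fun u : Fin m → V => ∑ x, ∑ a, ∑ b, ∑ a', ∑ b', ∑ r, ind (C.t6 u x a b a' b' r))
      = ∑ x : Fin m, ∑ a : Fin m, ∑ b : Fin m, ∑ a' : Fin m, ∑ b' : Fin m, ∑ r : Fin m,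
        E (fun u : Fin m → V => ind (C.t6 u x a b a' b' r)) := by
        rw [E_sum]
        refine Finset.sum_congr rfl fun x _ => ?_
        rw [E_sum]
        refine Finset.sum_congr rfl fun a _ => ?_
        rw [E_sum]
        refine Finset.sum_congr rfl fun b _ => ?_
        rw [E_sum]
        refine Finset.sum_congr rfl fun a' _ => ?_
        rw [E_sum]
        refine Finset.sum_congr rfl fun b' _ => ?_
        rw [E_sum]
    _ ≤ ∑ _x : Fin m, ∑ _a : Fin m, ∑ b : Fin m, ∑ _a' : Fin m, ∑ b' : Fin m, ∑ r : Fin m,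
        (3 / nn V ^ 3 + (if r = b then (2 + C.B) / nn V ^ 3 else 0)
        + (if r = b' then (2 + C.B) / nn V ^ 3 else 0)) :=
        Finset.sum_le_sum fun x _ => Finset.sum_le_sum fun a _ => Finset.sum_le_sum fun b _ =>
          Finset.sum_le_sum fun a' _ => Finset.sum_le_sum fun b' _ =>
            Finset.sum_le_sum fun r _ => h1 x a b a' b' r
    _ = C.B6 m := by
        unfold B6
        simp only [Finset.sum_add_distrib, Finset.sum_ite_eq', Finset.mem_univ, if_true,
          Finset.sum_const, Finset.card_univ, Fintype.card_fin, nsmul_eq_mul]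
        field_simp
        ring

/-- expected number of atypical indices -/
lemma E_atyp : ∑ i : Fin m, E (fun u : Fin m → V => ind (¬ C.typ u i))
    ≤ m ^ 4 / nn V ^ 2 + m ^ 5 / (nn V ^ 2 * C.B) + C.B6 m
      + C.bb / Real.log 2 * (m ^ 5 / nn V ^ 2) := by
  have hN := nn_pos C
  have hB := C.hB
  have hbb := C.hbb
  have hl2 : 0 < Real.log 2 := Real.log_pos (by norm_num)
  have hpt : ∀ (u : Fin m → V) (i : Fin m), ind (¬ C.typ u i) ≤
      ∑ a, ∑ b, ∑ a', ind (C.t4 u i a b a') + ∑ a, ∑ b, ∑ a', ∑ b', ind (C.t5 u i a b a' b')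
      + ∑ a, ∑ b, ∑ a', ∑ b', ∑ r, ind (C.t6 u i a b a' b' r)
      + C.bb / Real.log 2 * C.soft u i := by
    intro u i
    have n1 : 0 ≤ ∑ a, ∑ b, ∑ a', ind (C.t4 u i a b a') :=
      Finset.sum_nonneg fun _ _ => Finset.sum_nonneg fun _ _ => Finset.sum_nonneg fun _ _ =>
        ind_nonneg _
    have n2 : 0 ≤ ∑ a, ∑ b, ∑ a', ∑ b', ind (C.t5 u i a b a' b') :=
      Finset.sum_nonneg fun _ _ => Finset.sum_nonneg fun _ _ => Finset.sum_nonneg fun _ _ =>
        Finset.sum_nonneg fun _ _ => ind_nonneg _
    have n3 : 0 ≤ ∑ a, ∑ b, ∑ a', ∑ b', ∑ r, ind (C.t6 u i a b a' b' r) :=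
      Finset.sum_nonneg fun _ _ => Finset.sum_nonneg fun _ _ => Finset.sum_nonneg fun _ _ =>
        Finset.sum_nonneg fun _ _ => Finset.sum_nonneg fun _ _ => ind_nonneg _
    have n4' : 0 ≤ C.soft u i :=
      Finset.sum_nonneg fun _ _ => Finset.sum_nonneg fun _ _ => Finset.sum_nonneg fun _ _ =>
        Finset.sum_nonneg fun _ _ => mul_nonneg (ind_nonneg _) (C.k_nonneg _ _)
    have n4 : 0 ≤ C.bb / Real.log 2 * C.soft u i := by positivity
    by_cases ht : C.typ u i
    · rw [ind_neg (not_not.mpr ht)]; linarith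
    rw [ind_pos ht]
    unfold typ at ht
    by_cases h4 : ∀ a b a', ¬ C.t4 u i a b a'
    · by_cases h5 : ∀ a b a' b', ¬ C.t5 u i a b a' b'
      · by_cases h6 : ∀ a b a' b' r, ¬ C.t6 u i a b a' b' r
        · have h7 : ¬ C.bb * C.soft u i ≤ Real.log 2 := fun h => ht ⟨h4, h5, h6, h⟩
          push Not at h7
          have : 1 ≤ C.bb / Real.log 2 * C.soft u i := by
            rw [div_mul_eq_mul_div, le_div_iff₀ hl2]; linarith
          linarith
        · push Not at h6
          have h6' : ∃ a ∈ (Finset.univ : Finset (Fin m)), ∃ b ∈ (Finset.univ : Finset (Fin m)),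
              ∃ a' ∈ (Finset.univ : Finset (Fin m)), ∃ b' ∈ (Finset.univ : Finset (Fin m)),
              ∃ r ∈ (Finset.univ : Finset (Fin m)), C.t6 u i a b a' b' r := by
            simpa using h6
          have : (1 : ℝ) ≤ ∑ a, ∑ b, ∑ a', ∑ b', ∑ r, ind (C.t6 u i a b a' b' r) := by
            rw [← ind_pos h6']
            refine (ind_exists_le _ _).trans (Finset.sum_le_sum fun a _ => ?_)
            refine (ind_exists_le _ _).trans (Finset.sum_le_sum fun b _ => ?_)
            refine (ind_exists_le _ _).trans (Finset.sum_le_sum fun a' _ => ?_)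
            refine (ind_exists_le _ _).trans (Finset.sum_le_sum fun b' _ => ?_)
            exact ind_exists_le _ _
          linarith
      · push Not at h5
        have h5' : ∃ a ∈ (Finset.univ : Finset (Fin m)), ∃ b ∈ (Finset.univ : Finset (Fin m)),
            ∃ a' ∈ (Finset.univ : Finset (Fin m)), ∃ b' ∈ (Finset.univ : Finset (Fin m)),
            C.t5 u i a b a' b' := by
          simpa using h5
        have : (1 : ℝ) ≤ ∑ a, ∑ b, ∑ a', ∑ b', ind (C.t5 u i a b a' b') := by
          rw [← ind_pos h5']
          refine (ind_exists_le _ _).trans (Finset.sum_le_sum fun a _ => ?_)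
          refine (ind_exists_le _ _).trans (Finset.sum_le_sum fun b _ => ?_)
          refine (ind_exists_le _ _).trans (Finset.sum_le_sum fun a' _ => ?_)
          exact ind_exists_le _ _
        linarith
    · push Not at h4
      have h4' : ∃ a ∈ (Finset.univ : Finset (Fin m)), ∃ b ∈ (Finset.univ : Finset (Fin m)),
          ∃ a' ∈ (Finset.univ : Finset (Fin m)), C.t4 u i a b a' := by
        simpa using h4
      have : (1 : ℝ) ≤ ∑ a, ∑ b, ∑ a', ind (C.t4 u i a b a') := by
        rw [← ind_pos h4']
        refine (ind_exists_le _ _).trans (Finset.sum_le_sum fun a _ => ?_)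
        refine (ind_exists_le _ _).trans (Finset.sum_le_sum fun b _ => ?_)
        exact ind_exists_le _ _
      linarith
  have e4 : E (fun u : Fin m → V => ∑ i, ∑ a, ∑ b, ∑ a', ind (C.t4 u i a b a'))
      ≤ m ^ 4 / nn V ^ 2 := by
    calc _ = ∑ i : Fin m, ∑ a : Fin m, ∑ b : Fin m, ∑ a' : Fin m,
        E (fun u : Fin m → V => ind (C.t4 u i a b a')) := by
          rw [E_sum]
          refine Finset.sum_congr rfl fun x _ => ?_
          rw [E_sum]
          refine Finset.sum_congr rfl fun a _ => ?_
          rw [E_sum]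
          refine Finset.sum_congr rfl fun b _ => ?_
          rw [E_sum]
      _ ≤ ∑ _i : Fin m, ∑ _a : Fin m, ∑ _b : Fin m, ∑ _a' : Fin m, 1 / nn V ^ 2 :=
          Finset.sum_le_sum fun x _ => Finset.sum_le_sum fun a _ => Finset.sum_le_sum fun b _ =>
            Finset.sum_le_sum fun a' _ => E_t4 x a b a'
      _ = _ := by
          simp only [Finset.sum_const, Finset.card_univ, Fintype.card_fin, nsmul_eq_mul]
          ring
  have e5 : E (fun u : Fin m → V => ∑ i, ∑ a, ∑ b, ∑ a', ∑ b', ind (C.t5 u i a b a' b'))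
      ≤ m ^ 5 / (nn V ^ 2 * C.B) := by
    calc _ = ∑ i : Fin m, ∑ a : Fin m, ∑ b : Fin m, ∑ a' : Fin m, ∑ b' : Fin m,
        E (fun u : Fin m → V => ind (C.t5 u i a b a' b')) := by
          rw [E_sum]
          refine Finset.sum_congr rfl fun x _ => ?_
          rw [E_sum]
          refine Finset.sum_congr rfl fun a _ => ?_
          rw [E_sum]
          refine Finset.sum_congr rfl fun b _ => ?_
          rw [E_sum]
          refine Finset.sum_congr rfl fun a' _ => ?_
          rw [E_sum]
      _ ≤ ∑ _i : Fin m, ∑ _a : Fin m, ∑ _b : Fin m, ∑ _a' : Fin m, ∑ _b' : Fin m,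
          1 / (nn V ^ 2 * C.B) :=
          Finset.sum_le_sum fun x _ => Finset.sum_le_sum fun a _ => Finset.sum_le_sum fun b _ =>
            Finset.sum_le_sum fun a' _ => Finset.sum_le_sum fun b' _ => E_t5 x a b a' b'
      _ = _ := by
          simp only [Finset.sum_const, Finset.card_univ, Fintype.card_fin, nsmul_eq_mul]
          ring
  have e6 := E_t6 (C := C) (m := m)
  have e7 := E_soft (C := C) (m := m)
  calc ∑ i : Fin m, E (fun u : Fin m → V => ind (¬ C.typ u i))
      ≤ ∑ i : Fin m, E (fun u : Fin m → V =>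
          ∑ a, ∑ b, ∑ a', ind (C.t4 u i a b a') + ∑ a, ∑ b, ∑ a', ∑ b', ind (C.t5 u i a b a' b')
      + ∑ a, ∑ b, ∑ a', ∑ b', ∑ r, ind (C.t6 u i a b a' b' r)
      + C.bb / Real.log 2 * C.soft u i) :=
        Finset.sum_le_sum fun i _ => E_mono fun u => hpt u i
    _ = E (fun u : Fin m → V => ∑ i, ∑ a, ∑ b, ∑ a', ind (C.t4 u i a b a'))
        + E (fun u : Fin m → V => ∑ i, ∑ a, ∑ b, ∑ a', ∑ b', ind (C.t5 u i a b a' b'))
        + E (fun u : Fin m → V => ∑ i, ∑ a, ∑ b, ∑ a', ∑ b', ∑ r, ind (C.t6 u i a b a' b' r))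
        + C.bb / Real.log 2 * E (fun u : Fin m → V => ∑ x, C.soft u x) := by
        rw [E_sum, E_sum, E_sum, E_sum]
        simp only [E_add, E_smul, Finset.sum_add_distrib, Finset.mul_sum]
    _ ≤ _ := by
        gcongr

/-- indices taking part in a coincidence -/
def coin (C : Ctx V) (u : Fin m → V) (i : Fin m) : Prop :=
  (∃ i', i' ≠ i ∧ C.bp (u i) (u i')) ∨ (∃ l j i' j' r, C.t6 u l i j i' j' r)

lemma E_coin : ∑ i : Fin m, E (fun u : Fin m → V => ind (C.coin u i))
    ≤ m ^ 2 * (1 / nn V + 1 / C.B) + C.B6 m := by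
  have hN := nn_pos C
  have hB := C.hB
  have hpt : ∀ (u : Fin m → V) (i : Fin m), ind (C.coin u i) ≤
      ∑ i', ind (i' ≠ i ∧ C.bp (u i) (u i'))
      + ∑ l, ∑ j, ∑ i', ∑ j', ∑ r, ind (C.t6 u l i j i' j' r) := by
    intro u i
    unfold coin
    refine (ind_or_le _ _).trans (add_le_add (ind_exists_le' _) ?_)
    refine (ind_exists_le' _).trans (Finset.sum_le_sum fun l _ => ?_)
    refine (ind_exists_le' _).trans (Finset.sum_le_sum fun j _ => ?_)
    refine (ind_exists_le' _).trans (Finset.sum_le_sum fun i' _ => ?_)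
    refine (ind_exists_le' _).trans (Finset.sum_le_sum fun j' _ => ?_)
    exact ind_exists_le' _
  have e1 : ∀ i i' : Fin m, E (fun u : Fin m → V => ind (i' ≠ i ∧ C.bp (u i) (u i')))
      ≤ 1 / nn V + 1 / C.B := by
    intro i i'
    by_cases h : i' = i
    · have h1 : ∀ u : Fin m → V, ind (i' ≠ i ∧ C.bp (u i) (u i')) ≤ 0 := by
        intro u; rw [ind_neg (fun h' => h'.1 h)]
      have h2 := E_mono h1
      rw [E_const C] at h2
      have : 0 ≤ 1 / nn V + 1 / C.B := by positivity
      linarith
    · refine le_trans (E_mono fun u => ind_mono fun h => h.2) (E_bp (fun h' => h h'.symm))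
  have e6 := E_t6 (C := C) (m := m)
  have e7 : ∑ i : Fin m, E (fun u : Fin m → V =>
      ∑ l, ∑ j, ∑ i', ∑ j', ∑ r, ind (C.t6 u l i j i' j' r)) ≤ C.B6 m := by
    rw [← E_sum]
    refine le_trans (E_mono fun u => ?_) e6
    rw [Finset.sum_comm]
  calc ∑ i : Fin m, E (fun u : Fin m → V => ind (C.coin u i))
      ≤ ∑ i : Fin m, E (fun u : Fin m → V => ∑ i', ind (i' ≠ i ∧ C.bp (u i) (u i'))
      + ∑ l, ∑ j, ∑ i', ∑ j', ∑ r, ind (C.t6 u l i j i' j' r)) :=
        Finset.sum_le_sum fun i _ => E_mono fun u => hpt u i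
    _ = ∑ i : Fin m, ∑ i' : Fin m, E (fun u : Fin m → V => ind (i' ≠ i ∧ C.bp (u i) (u i')))
        + ∑ i : Fin m, E (fun u : Fin m → V =>
          ∑ l, ∑ j, ∑ i', ∑ j', ∑ r, ind (C.t6 u l i j i' j' r)) := by
        rw [← Finset.sum_add_distrib]
        refine Finset.sum_congr rfl fun i _ => ?_
        rw [E_add, E_sum]
    _ ≤ ∑ _i : Fin m, ∑ _i' : Fin m, (1 / nn V + 1 / C.B) + C.B6 m :=
        add_le_add (Finset.sum_le_sum fun i _ => Finset.sum_le_sum fun i' _ => e1 i i') e7
    _ = _ := by
        simp only [Finset.sum_const, Finset.card_univ, Fintype.card_fin, nsmul_eq_mul]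
        ring

end Ctx

end

end Pool.Agent.H993R2.TP
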