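import Pool.Agent.H993R2.TP.Valid

set_option autoImplicit false
set_option linter.unusedSectionVars false
set_option linter.unusedVariables false

/-!
Extension partition functions: upper bound (J1), lower bound (J2) and their combination.
-/

namespace Pool.Agent.H993R2.TP

open scoped BigOperators Classical

noncomputable section

variable {m : ℕ}

/-! ### a tangent-line form of Jensen's inequality -/

lemma jensen {α : Type*} (s : Finset α) (p y : α → ℝ) (hp : ∀ a ∈ s, 0 ≤ p a)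
    (h1 : 1 ≤ ∑ a ∈ s, p a) :
    Real.exp ((∑ a ∈ s, p a * y a) / ∑ a ∈ s, p a) ≤ ∑ a ∈ s, p a * Real.exp (y a) := by
  set Zp := ∑ a ∈ s, p a with hZp
  set c := (∑ a ∈ s, p a * y a) / Zp with hc
  have hZ : 0 < Zp := by linarith
  have hc' : c * Zp = ∑ a ∈ s, p a * y a := by rw [hc]; field_simp
  have h2 : ∀ a ∈ s, p a * (Real.exp c * (1 + (y a - c))) ≤ p a * Real.exp (y a) := by
    intro a ha
    apply mul_le_mul_of_nonneg_left _ (hp a ha)
    have h3 := Real.add_one_le_exp (y a - c)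
    calc Real.exp c * (1 + (y a - c)) ≤ Real.exp c * Real.exp (y a - c) :=
          mul_le_mul_of_nonneg_left (by linarith) (Real.exp_pos c).le
      _ = Real.exp (y a) := by rw [← Real.exp_add]; congr 1; ring
  calc Real.exp c ≤ Real.exp c * Zp := by
        have := Real.exp_pos c
        nlinarith
    _ = ∑ a ∈ s, p a * (Real.exp c * (1 + (y a - c))) := by
        have : ∀ a ∈ s, p a * (Real.exp c * (1 + (y a - c)))
            = Real.exp c * (1 - c) * p a + Real.exp c * (p a * y a) := fun a _ => by ring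
        rw [Finset.sum_congr rfl this, Finset.sum_add_distrib, ← Finset.mul_sum, ← Finset.mul_sum,
          ← hc', ← hZp]
        ring
    _ ≤ _ := Finset.sum_le_sum h2

/-! ### hard-core measures -/

def wt (cf : Finset (Fin m) → Prop) (ζ : ℝ) (T : Finset (Fin m)) : ℝ := ind (cf T) * ζ ^ T.card

section HC

variable {cf : Finset (Fin m) → Prop} {ζ : ℝ}

lemma wt_nonneg (hζ : 0 ≤ ζ) (T : Finset (Fin m)) : 0 ≤ wt cf ζ T :=
  mul_nonneg (ind_nonneg _) (pow_nonneg hζ _)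

lemma wt_insert (hmono : ∀ T T', T ⊆ T' → cf T' → cf T) {a : Fin m} {T : Finset (Fin m)}
    (ha : a ∉ T) : wt cf ζ (insert a T) = ζ * (wt cf ζ T * ind (cf (insert a T))) := by
  unfold wt
  rw [Finset.card_insert_of_notMem ha, pow_succ]
  by_cases h : cf (insert a T)
  · rw [ind_pos h, ind_pos (hmono _ _ (Finset.subset_insert a T) h)]; ring
  · rw [ind_neg h]; ring

lemma hc_p1 (hζ : 0 ≤ ζ) (hmono : ∀ T T', T ⊆ T' → cf T' → cf T) (Q : Finset (Fin m))
    (i : Fin m) (f : Finset (Fin m) → ℝ) (hf : ∀ T, 0 ≤ f T) :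
    ∑ T ∈ Q.powerset, wt cf ζ T * (ind (i ∈ T) * f (T.erase i))
      ≤ ζ * ∑ T ∈ Q.powerset, wt cf ζ T * f T := by
  by_cases hi : i ∈ Q
  · conv_lhs => rw [← Finset.insert_erase hi]
    rw [Finset.sum_powerset_insert (Finset.notMem_erase i Q)]
    have h1 : ∑ T ∈ (Q.erase i).powerset, wt cf ζ T * (ind (i ∈ T) * f (T.erase i)) = 0 := by
      refine Finset.sum_eq_zero fun T hT => ?_
      rw [ind_neg]
      · ring
      · exact fun h => Finset.notMem_erase i Q (Finset.mem_powerset.mp hT h)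
    rw [h1, zero_add, Finset.mul_sum]
    calc ∑ T ∈ (Q.erase i).powerset, wt cf ζ (insert i T) *
          (ind (i ∈ insert i T) * f ((insert i T).erase i))
        ≤ ∑ T ∈ (Q.erase i).powerset, ζ * (wt cf ζ T * f T) := by
          refine Finset.sum_le_sum fun T hT => ?_
          have hiT : i ∉ T := fun h => Finset.notMem_erase i Q (Finset.mem_powerset.mp hT h)
          rw [Finset.erase_insert hiT, ind_pos (Finset.mem_insert_self i T), one_mul,
            wt_insert hmono hiT]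
          have h2 := ind_le_one (cf (insert i T))
          have h3 := wt_nonneg (cf := cf) hζ T
          have h4 := hf T
          calc ζ * (wt cf ζ T * ind (cf (insert i T))) * f T
              = (ζ * (wt cf ζ T * f T)) * ind (cf (insert i T)) := by ring
            _ ≤ (ζ * (wt cf ζ T * f T)) * 1 := by gcongr
            _ = _ := by ring
      _ ≤ ∑ T ∈ Q.powerset, ζ * (wt cf ζ T * f T) := by
          apply Finset.sum_le_sum_of_subset_of_nonneg
            (Finset.powerset_mono.mpr (Finset.erase_subset i Q))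
          intro T _ _
          exact mul_nonneg hζ (mul_nonneg (wt_nonneg hζ T) (hf T))
  · have h1 : ∑ T ∈ Q.powerset, wt cf ζ T * (ind (i ∈ T) * f (T.erase i)) = 0 := by
      refine Finset.sum_eq_zero fun T hT => ?_
      rw [ind_neg]
      · ring
      · exact fun h => hi (Finset.mem_powerset.mp hT h)
    rw [h1]
    exact mul_nonneg hζ (Finset.sum_nonneg fun T _ => mul_nonneg (wt_nonneg hζ T) (hf T))

lemma hc_p1' (hζ : 0 ≤ ζ) (hmono : ∀ T T', T ⊆ T' → cf T' → cf T) (Q : Finset (Fin m))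
    (i : Fin m) : ∑ T ∈ Q.powerset, wt cf ζ T * ind (i ∈ T)
      ≤ ζ * ∑ T ∈ Q.powerset, wt cf ζ T := by
  have h := hc_p1 hζ hmono Q i (fun _ => 1) (fun _ => by norm_num)
  simpa using h

lemma hc_p2 (hζ : 0 ≤ ζ) (hmono : ∀ T T', T ⊆ T' → cf T' → cf T) (Q : Finset (Fin m))
    {i j : Fin m} (hij : i ≠ j) : ∑ T ∈ Q.powerset, wt cf ζ T * (ind (i ∈ T) * ind (j ∈ T))
      ≤ ζ ^ 2 * ∑ T ∈ Q.powerset, wt cf ζ T := by
  have h := hc_p1 hζ hmono Q i (fun T => ind (j ∈ T)) (fun _ => ind_nonneg _)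
  have h2 := hc_p1' hζ hmono Q j
  have h3 : ∀ T : Finset (Fin m), ind (j ∈ T.erase i) = ind (j ∈ T) := by
    intro T
    congr 1
    rw [Finset.mem_erase]
    exact propext ⟨fun h => h.2, fun h => ⟨hij.symm, h⟩⟩
  simp only [h3] at h
  calc _ ≤ _ := h
    _ ≤ ζ * (ζ * ∑ T ∈ Q.powerset, wt cf ζ T) := mul_le_mul_of_nonneg_left h2 hζ
    _ = _ := by ring

/-- occupation probability from below -/
lemma hc_p3 (hζ : 0 < ζ) (hζ1 : ζ ≤ 1) (hmono : ∀ T T', T ⊆ T' → cf T' → cf T)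
    (Q : Finset (Fin m)) (c2 : Fin m → Fin m → Prop) (c3 : Fin m → Fin m → Fin m → Prop)
    (hc : ∀ T ⊆ Q, ∀ i ∈ Q, i ∉ T → cf T → ¬ cf (insert i T) →
      (∃ j ∈ T, c2 i j) ∨ (∃ j ∈ T, ∃ k ∈ T, j ≠ k ∧ c3 i j k))
    {i : Fin m} (hi : i ∈ Q) :
    (ζ / 2) * (1 - ζ * ∑ j ∈ Q, ind (c2 i j) - ζ ^ 2 * ∑ j ∈ Q, ∑ k ∈ Q, ind (j ≠ k ∧ c3 i j k))
      * ∑ T ∈ Q.powerset, wt cf ζ T ≤ ∑ T ∈ Q.powerset, wt cf ζ T * ind (i ∈ T) := by
  set ZZ := ∑ T ∈ Q.powerset, wt cf ζ T with hZZ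
  set P := ∑ T ∈ Q.powerset, wt cf ζ T * ind (i ∈ T) with hP
  set bad := ∑ T ∈ (Q.erase i).powerset, wt cf ζ T * ind (¬ cf (insert i T)) with hbad
  have hiT : ∀ T ∈ (Q.erase i).powerset, i ∉ T := fun T hT h =>
    Finset.notMem_erase i Q (Finset.mem_powerset.mp hT h)
  have hP0 : 0 ≤ P := Finset.sum_nonneg fun T _ => mul_nonneg (wt_nonneg hζ.le T) (ind_nonneg _)
  have hZZ0 : 0 ≤ ZZ := Finset.sum_nonneg fun T _ => wt_nonneg hζ.le T
  have e1 : P = ζ * ∑ T ∈ (Q.erase i).powerset, wt cf ζ T * ind (cf (insert i T)) := by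
    rw [hP]
    conv_lhs => rw [← Finset.insert_erase hi]
    rw [Finset.sum_powerset_insert (Finset.notMem_erase i Q)]
    have h1 : ∑ T ∈ (Q.erase i).powerset, wt cf ζ T * ind (i ∈ T) = 0 := by
      refine Finset.sum_eq_zero fun T hT => ?_
      rw [ind_neg (hiT T hT)]; ring
    rw [h1, zero_add, Finset.mul_sum]
    refine Finset.sum_congr rfl fun T hT => ?_
    rw [wt_insert hmono (hiT T hT), ind_pos (Finset.mem_insert_self i T), mul_one]
  have e2 : ZZ = ∑ T ∈ (Q.erase i).powerset, wt cf ζ T + P := by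
    rw [hZZ]
    conv_lhs => rw [← Finset.insert_erase hi]
    rw [Finset.sum_powerset_insert (Finset.notMem_erase i Q)]
    congr 1
    rw [e1, Finset.mul_sum]
    refine Finset.sum_congr rfl fun T hT => ?_
    rw [wt_insert hmono (hiT T hT)]
  have e3 : ∑ T ∈ (Q.erase i).powerset, wt cf ζ T
      = ∑ T ∈ (Q.erase i).powerset, wt cf ζ T * ind (cf (insert i T)) + bad := by
    rw [hbad, ← Finset.sum_add_distrib]
    refine Finset.sum_congr rfl fun T _ => ?_
    rw [ind_not]; ring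
  have hbad_le : bad ≤ ζ * (∑ j ∈ Q, ind (c2 i j)) * ZZ
      + ζ ^ 2 * (∑ j ∈ Q, ∑ k ∈ Q, ind (j ≠ k ∧ c3 i j k)) * ZZ := by
    have h1 : ∀ T ∈ (Q.erase i).powerset, wt cf ζ T * ind (¬ cf (insert i T)) ≤
        wt cf ζ T * (∑ j ∈ Q, ind (c2 i j) * ind (j ∈ T)
          + ∑ j ∈ Q, ∑ k ∈ Q, ind (j ≠ k ∧ c3 i j k) * (ind (j ∈ T) * ind (k ∈ T))) := by
      intro T hT
      have hTQ : T ⊆ Q := (Finset.mem_powerset.mp hT).trans (Finset.erase_subset i Q)
      have hs1 : 0 ≤ ∑ j ∈ Q, ind (c2 i j) * ind (j ∈ T) :=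
        Finset.sum_nonneg fun j _ => mul_nonneg (ind_nonneg _) (ind_nonneg _)
      have hs2 : 0 ≤ ∑ j ∈ Q, ∑ k ∈ Q, ind (j ≠ k ∧ c3 i j k) * (ind (j ∈ T) * ind (k ∈ T)) :=
        Finset.sum_nonneg fun j _ => Finset.sum_nonneg fun k _ =>
          mul_nonneg (ind_nonneg _) (mul_nonneg (ind_nonneg _) (ind_nonneg _))
      by_cases hcf : cf T
      swap
      · unfold wt; rw [ind_neg hcf]; simp
      by_cases hcf' : cf (insert i T)
      · rw [ind_neg (not_not.mpr hcf'), mul_zero]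
        exact mul_nonneg (wt_nonneg hζ.le T) (by linarith)
      · rw [ind_pos hcf']
        apply mul_le_mul_of_nonneg_left _ (wt_nonneg hζ.le T)
        rcases hc T hTQ i hi (hiT T hT) hcf hcf' with ⟨j, hj, hcj⟩ | ⟨j, hj, k, hk, hjk, hcj⟩
        · have h2 : (1 : ℝ) ≤ ∑ j ∈ Q, ind (c2 i j) * ind (j ∈ T) := by
            calc (1 : ℝ) = ind (c2 i j) * ind (j ∈ T) := by rw [ind_pos hcj, ind_pos hj]; ring
              _ ≤ _ := Finset.single_le_sum (f := fun j => ind (c2 i j) * ind (j ∈ T))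
                  (fun j _ => mul_nonneg (ind_nonneg _) (ind_nonneg _)) (hTQ hj)
          linarith
        · have h2 : (1 : ℝ) ≤ ∑ j ∈ Q, ∑ k ∈ Q,
              ind (j ≠ k ∧ c3 i j k) * (ind (j ∈ T) * ind (k ∈ T)) := by
            calc (1 : ℝ) = ind (j ≠ k ∧ c3 i j k) * (ind (j ∈ T) * ind (k ∈ T)) := by
                  rw [ind_pos ⟨hjk, hcj⟩, ind_pos hj, ind_pos hk]; ring
              _ ≤ ∑ k ∈ Q, ind (j ≠ k ∧ c3 i j k) * (ind (j ∈ T) * ind (k ∈ T)) :=
                  Finset.single_le_sum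
                  (f := fun k => ind (j ≠ k ∧ c3 i j k) * (ind (j ∈ T) * ind (k ∈ T)))
                  (fun k _ => mul_nonneg (ind_nonneg _) (mul_nonneg (ind_nonneg _)
                    (ind_nonneg _))) (hTQ hk)
              _ ≤ _ := Finset.single_le_sum
                  (f := fun j => ∑ k ∈ Q, ind (j ≠ k ∧ c3 i j k) * (ind (j ∈ T) * ind (k ∈ T)))
                  (fun j _ => Finset.sum_nonneg fun k _ => mul_nonneg (ind_nonneg _)
                    (mul_nonneg (ind_nonneg _) (ind_nonneg _))) (hTQ hj)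
          linarith
    have h2 : bad ≤ ∑ T ∈ Q.powerset, wt cf ζ T * (∑ j ∈ Q, ind (c2 i j) * ind (j ∈ T)
          + ∑ j ∈ Q, ∑ k ∈ Q, ind (j ≠ k ∧ c3 i j k) * (ind (j ∈ T) * ind (k ∈ T))) := by
      refine (Finset.sum_le_sum h1).trans ?_
      apply Finset.sum_le_sum_of_subset_of_nonneg
            (Finset.powerset_mono.mpr (Finset.erase_subset i Q))
      intro T _ _
      apply mul_nonneg (wt_nonneg hζ.le T)
      apply add_nonneg
      · exact Finset.sum_nonneg fun j _ => mul_nonneg (ind_nonneg _) (ind_nonneg _)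
      · exact Finset.sum_nonneg fun j _ => Finset.sum_nonneg fun k _ =>
          mul_nonneg (ind_nonneg _) (mul_nonneg (ind_nonneg _) (ind_nonneg _))
    refine h2.trans ?_
    simp only [mul_add, Finset.sum_add_distrib]
    apply add_le_add
    · calc ∑ T ∈ Q.powerset, wt cf ζ T * ∑ j ∈ Q, ind (c2 i j) * ind (j ∈ T)
          = ∑ j ∈ Q, ind (c2 i j) * ∑ T ∈ Q.powerset, wt cf ζ T * ind (j ∈ T) := by
            simp only [Finset.mul_sum]
            rw [Finset.sum_comm]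
            refine Finset.sum_congr rfl fun j _ => Finset.sum_congr rfl fun T _ => ?_
            ring
        _ ≤ ∑ j ∈ Q, ind (c2 i j) * (ζ * ZZ) :=
            Finset.sum_le_sum fun j _ =>
              mul_le_mul_of_nonneg_left (hc_p1' hζ.le hmono Q j) (ind_nonneg _)
        _ = _ := by rw [← Finset.sum_mul]; ring
    · calc ∑ T ∈ Q.powerset, wt cf ζ T * ∑ j ∈ Q, ∑ k ∈ Q,
            ind (j ≠ k ∧ c3 i j k) * (ind (j ∈ T) * ind (k ∈ T))
          = ∑ j ∈ Q, ∑ k ∈ Q, ind (j ≠ k ∧ c3 i j k) *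
            ∑ T ∈ Q.powerset, wt cf ζ T * (ind (j ∈ T) * ind (k ∈ T)) := by
            simp only [Finset.mul_sum]
            rw [Finset.sum_comm]
            refine Finset.sum_congr rfl fun j _ => ?_
            rw [Finset.sum_comm]
            refine Finset.sum_congr rfl fun k _ => Finset.sum_congr rfl fun T _ => ?_
            ring
        _ ≤ ∑ j ∈ Q, ∑ k ∈ Q, ind (j ≠ k ∧ c3 i j k) * (ζ ^ 2 * ZZ) := by
            refine Finset.sum_le_sum fun j _ => Finset.sum_le_sum fun k _ => ?_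
            by_cases hjk : j ≠ k
            · exact mul_le_mul_of_nonneg_left (hc_p2 hζ.le hmono Q hjk) (ind_nonneg _)
            · rw [ind_neg (fun h => hjk h.1)]; simp
        _ = _ := by
            simp only [← Finset.sum_mul]; ring
  -- conclusion
  set X2 := ∑ j ∈ Q, ind (c2 i j) with hX2
  set X3 := ∑ j ∈ Q, ∑ k ∈ Q, ind (j ≠ k ∧ c3 i j k) with hX3
  have e4 : P * (1 + ζ) = ζ * (ZZ - bad) := by
    have : ∑ T ∈ (Q.erase i).powerset, wt cf ζ T * ind (cf (insert i T)) = ZZ - P - bad := by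
      linarith
    rw [this] at e1
    linarith
  have h5 : ζ * ((1 - ζ * X2 - ζ ^ 2 * X3) * ZZ) ≤ P * (1 + ζ) := by
    rw [e4]
    apply mul_le_mul_of_nonneg_left _ hζ.le
    nlinarith
  have h6 : P * (1 + ζ) ≤ P * 2 := mul_le_mul_of_nonneg_left (by linarith) hP0
  have h7 : (ζ / 2) * (1 - ζ * X2 - ζ ^ 2 * X3) * ZZ
      = (ζ * ((1 - ζ * X2 - ζ ^ 2 * X3) * ZZ)) / 2 := by ring
  rw [h7]
  linarith

/-- lower bound for hard-core type partition functions -/
lemma hc_main (hζ : 0 < ζ) (hζ1 : ζ ≤ 1) (hmono : ∀ T T', T ⊆ T' → cf T' → cf T)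
    (h0 : cf ∅)
    (Q : Finset (Fin m)) (c2 : Fin m → Fin m → Prop) (c3 : Fin m → Fin m → Fin m → Prop)
    (hc : ∀ T ⊆ Q, ∀ i ∈ Q, i ∉ T → cf T → ¬ cf (insert i T) →
      (∃ j ∈ T, c2 i j) ∨ (∃ j ∈ T, ∃ k ∈ T, j ≠ k ∧ c3 i j k))
    (K : Fin m → Fin m → ℝ) (hK : ∀ i j, 0 ≤ K i j) (hK0 : ∀ i, K i i = 0)
    (Lg b : ℝ) (hLg : 0 ≤ Lg) (hb : 0 ≤ b) :
    Real.exp (Lg * ((ζ / 2) * ((Q.card : ℝ) - ζ * ∑ i ∈ Q, ∑ j ∈ Q, ind (c2 i j)
        - ζ ^ 2 * ∑ i ∈ Q, ∑ j ∈ Q, ∑ k ∈ Q, ind (j ≠ k ∧ c3 i j k)))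
        - b * (ζ ^ 2 * ∑ i ∈ Q, ∑ j ∈ Q, K i j))
      ≤ ∑ T ∈ Q.powerset, wt cf ζ T * Real.exp (Lg * T.card - b * ∑ i ∈ T, ∑ j ∈ T, K i j) := by
  set ZZ := ∑ T ∈ Q.powerset, wt cf ζ T with hZZ
  have hZ1 : 1 ≤ ZZ := by
    have h1 : wt cf ζ ∅ = 1 := by unfold wt; rw [ind_pos h0]; simp
    rw [← h1]
    exact Finset.single_le_sum (f := fun T => wt cf ζ T) (fun T _ => wt_nonneg hζ.le T)
      (Finset.empty_mem_powerset Q)
  have hZ0 : 0 < ZZ := by linarith
  refine le_trans ?_ (jensen Q.powerset (wt cf ζ)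
    (fun T => Lg * T.card - b * ∑ i ∈ T, ∑ j ∈ T, K i j) (fun T _ => wt_nonneg hζ.le T) hZ1)
  apply Real.exp_le_exp.mpr
  rw [← hZZ, le_div_iff₀ hZ0]
  -- number of points
  have e1 : ∑ T ∈ Q.powerset, wt cf ζ T * (T.card : ℝ)
      = ∑ i ∈ Q, ∑ T ∈ Q.powerset, wt cf ζ T * ind (i ∈ T) := by
    rw [Finset.sum_comm]
    refine Finset.sum_congr rfl fun T hT => ?_
    rw [← Finset.mul_sum]
    congr 1
    rw [← Finset.sum_subset (Finset.mem_powerset.mp hT) (fun x _ hx => ind_neg hx),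
        Finset.sum_congr rfl (fun x hx => ind_pos hx)]
    simp
  have e2 : (ζ / 2) * ((Q.card : ℝ) - ζ * ∑ i ∈ Q, ∑ j ∈ Q, ind (c2 i j)
        - ζ ^ 2 * ∑ i ∈ Q, ∑ j ∈ Q, ∑ k ∈ Q, ind (j ≠ k ∧ c3 i j k)) * ZZ
      ≤ ∑ T ∈ Q.powerset, wt cf ζ T * (T.card : ℝ) := by
    rw [e1]
    calc _ = ∑ i ∈ Q, (ζ / 2) * (1 - ζ * ∑ j ∈ Q, ind (c2 i j)
          - ζ ^ 2 * ∑ j ∈ Q, ∑ k ∈ Q, ind (j ≠ k ∧ c3 i j k)) * ZZ := by
          rw [← Finset.sum_mul, ← Finset.mul_sum]
          congr 2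
          rw [Finset.sum_sub_distrib, Finset.sum_sub_distrib, ← Finset.mul_sum, ← Finset.mul_sum]
          simp
      _ ≤ _ := Finset.sum_le_sum fun i hi => hc_p3 hζ hζ1 hmono Q c2 c3 hc hi
  have e3 : ∑ T ∈ Q.powerset, wt cf ζ T * ∑ i ∈ T, ∑ j ∈ T, K i j
      ≤ ζ ^ 2 * (∑ i ∈ Q, ∑ j ∈ Q, K i j) * ZZ := by
    have h1 : ∀ T ∈ Q.powerset, ∑ i ∈ T, ∑ j ∈ T, K i j
        = ∑ i ∈ Q, ∑ j ∈ Q, K i j * (ind (i ∈ T) * ind (j ∈ T)) := by
      intro T hT
      have hTQ := Finset.mem_powerset.mp hT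
      rw [← Finset.sum_subset hTQ]
      · refine Finset.sum_congr rfl fun i hi => ?_
        rw [← Finset.sum_subset hTQ]
        · refine Finset.sum_congr rfl fun j hj => ?_
          rw [ind_pos hi, ind_pos hj]; ring
        · intro j _ hj
          rw [ind_neg hj]; ring
      · intro i _ hi
        refine Finset.sum_eq_zero fun j _ => ?_
        rw [ind_neg hi]; ring
    calc ∑ T ∈ Q.powerset, wt cf ζ T * ∑ i ∈ T, ∑ j ∈ T, K i j
        = ∑ i ∈ Q, ∑ j ∈ Q, K i j * ∑ T ∈ Q.powerset, wt cf ζ T * (ind (i ∈ T) * ind (j ∈ T)) := by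
          rw [Finset.sum_congr rfl fun T hT => by rw [h1 T hT]]
          simp only [Finset.mul_sum]
          rw [Finset.sum_comm]
          refine Finset.sum_congr rfl fun i _ => ?_
          rw [Finset.sum_comm]
          refine Finset.sum_congr rfl fun j _ => Finset.sum_congr rfl fun T _ => ?_
          ring
      _ ≤ ∑ i ∈ Q, ∑ j ∈ Q, K i j * (ζ ^ 2 * ZZ) := by
          refine Finset.sum_le_sum fun i _ => Finset.sum_le_sum fun j _ => ?_
          by_cases hij : i = j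
          · subst hij; rw [hK0]; simp
          · exact mul_le_mul_of_nonneg_left (hc_p2 hζ.le hmono Q hij) (hK i j)
      _ = _ := by simp only [← Finset.sum_mul]; ring
  have e4 : ∑ T ∈ Q.powerset, wt cf ζ T * (Lg * T.card - b * ∑ i ∈ T, ∑ j ∈ T, K i j)
      = Lg * ∑ T ∈ Q.powerset, wt cf ζ T * (T.card : ℝ)
        - b * ∑ T ∈ Q.powerset, wt cf ζ T * ∑ i ∈ T, ∑ j ∈ T, K i j := by
    rw [Finset.mul_sum, Finset.mul_sum, ← Finset.sum_sub_distrib]
    refine Finset.sum_congr rfl fun T _ => ?_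
    ring
  rw [e4]
  have e5 := mul_le_mul_of_nonneg_left e2 hLg
  have e6 := mul_le_mul_of_nonneg_left e3 hb
  linarith

end HC

variable {V : Type} [Fintype V]

namespace Ctx

/-- extension partition function -/
def Zx (C : Ctx V) (ρ : ℝ) (u : Fin m → V) (S1 : Finset (Fin m)) : ℝ :=
  ∑ T ∈ (Finset.univ \ S1).powerset, ρ ^ T.card * C.wv u (S1 ∪ T)

variable {C : Ctx V}

lemma Zx_pos {ρ : ℝ} (hρ : 0 < ρ) {u : Fin m → V} {S1 : Finset (Fin m)}
    (hv : C.valid u S1) : 0 < C.Zx ρ u S1 := by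
  unfold Zx
  have h1 : C.wv u S1 ≤ ∑ T ∈ (Finset.univ \ S1).powerset, ρ ^ T.card * C.wv u (S1 ∪ T) := by
    calc C.wv u S1 = ρ ^ (∅ : Finset (Fin m)).card * C.wv u (S1 ∪ ∅) := by simp
      _ ≤ _ := Finset.single_le_sum (f := fun T : Finset (Fin m) => ρ ^ T.card * C.wv u (S1 ∪ T))
          (fun T _ => mul_nonneg (pow_nonneg hρ.le _) (wv_nonneg _ _))
          (Finset.empty_mem_powerset _)
  exact lt_of_lt_of_le (wv_pos hv) h1

/-- J1 : upper bound for the extension partition function -/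
lemma J1 {ρ ζ0 : ℝ} (hρ : 0 < ρ) (hζ0 : 0 < ζ0) {u : Fin m → V} {S1 : Finset (Fin m)}
    (hv : C.valid u S1) :
    Real.log (C.Zx ρ u S1 / C.wv u S1) * C.Zx ρ u S1 ≤ ζ0 * m * C.Zx ρ u S1
      + Real.log (ρ / ζ0) * ∑ T ∈ (Finset.univ \ S1).powerset,
        (ρ ^ T.card * C.wv u (S1 ∪ T)) * T.card := by
  set lam := Real.log (ρ / ζ0) with hlam
  have hZ := Zx_pos (C := C) hρ hv
  have hw := wv_pos (C := C) hv
  set p : Finset (Fin m) → ℝ := fun T => (ρ ^ T.card * C.wv u (S1 ∪ T)) / C.Zx ρ u S1 with hp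
  have hp0 : ∀ T ∈ (Finset.univ \ S1).powerset, 0 ≤ p T := fun T _ =>
    div_nonneg (mul_nonneg (pow_nonneg hρ.le _) (wv_nonneg _ _)) hZ.le
  have hp1 : ∑ T ∈ (Finset.univ \ S1).powerset, p T = 1 := by
    rw [hp]
    simp only
    rw [← Finset.sum_div]
    exact div_self hZ.ne'
  have hj := jensen (Finset.univ \ S1).powerset p (fun T => -lam * T.card) hp0 hp1.ge
  rw [hp1, div_one] at hj
  have h1 : ∑ T ∈ (Finset.univ \ S1).powerset, p T * Real.exp (-lam * T.card)
      ≤ C.wv u S1 * Real.exp (ζ0 * m) / C.Zx ρ u S1 := by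
    have h2 : ∀ T ∈ (Finset.univ \ S1).powerset, p T * Real.exp (-lam * T.card)
        ≤ C.wv u S1 / C.Zx ρ u S1 * ∏ _a ∈ T, ζ0 := by
      intro T _
      have h3 : Real.exp (-lam * T.card) = (ζ0 / ρ) ^ T.card := by
        rw [show -lam * (T.card : ℝ) = (T.card : ℝ) * (-lam) by ring, Real.exp_nat_mul, hlam,
          ← Real.log_inv, Real.exp_log (by positivity), inv_div]
      rw [h3, hp, Finset.prod_const]
      simp only
      calc ρ ^ T.card * C.wv u (S1 ∪ T) / C.Zx ρ u S1 * (ζ0 / ρ) ^ T.card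
          = C.wv u (S1 ∪ T) / C.Zx ρ u S1 * ζ0 ^ T.card := by
            rw [div_pow]; field_simp
        _ ≤ C.wv u S1 / C.Zx ρ u S1 * ζ0 ^ T.card := by
            have := wv_anti (C := C) (u := u) (Finset.subset_union_left : S1 ⊆ S1 ∪ T)
            gcongr
    calc _ ≤ ∑ T ∈ (Finset.univ \ S1).powerset, C.wv u S1 / C.Zx ρ u S1 * ∏ _a ∈ T, ζ0 :=
          Finset.sum_le_sum h2
      _ = C.wv u S1 / C.Zx ρ u S1 * ∏ _a ∈ (Finset.univ \ S1), (1 + ζ0) := by
          rw [← Finset.mul_sum, Finset.prod_one_add]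
      _ ≤ C.wv u S1 / C.Zx ρ u S1 * Real.exp (ζ0 * m) := by
          apply mul_le_mul_of_nonneg_left _ (by positivity)
          rw [Finset.prod_const]
          calc (1 + ζ0) ^ (Finset.univ \ S1).card ≤ (1 + ζ0) ^ m := by
                apply pow_le_pow_right₀ (by linarith)
                calc (Finset.univ \ S1).card ≤ (Finset.univ : Finset (Fin m)).card :=
                      Finset.card_le_card Finset.sdiff_subset
                  _ = m := by simp
            _ ≤ (Real.exp ζ0) ^ m := by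
                apply pow_le_pow_left₀ (by linarith)
                have := Real.add_one_le_exp ζ0
                linarith
            _ = Real.exp (ζ0 * m) := by rw [← Real.exp_nat_mul]; congr 1; ring
      _ = _ := by ring
  have h2 := hj.trans h1
  have h3 : ∑ T ∈ (Finset.univ \ S1).powerset, p T * (-lam * T.card)
      = -(lam * (∑ T ∈ (Finset.univ \ S1).powerset,
        (ρ ^ T.card * C.wv u (S1 ∪ T)) * T.card) / C.Zx ρ u S1) := by
    rw [hp]
    simp only
    rw [Finset.mul_sum, Finset.sum_div, ← Finset.sum_neg_distrib]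
    refine Finset.sum_congr rfl fun T _ => ?_
    ring
  rw [h3] at h2
  set SS := ∑ T ∈ (Finset.univ \ S1).powerset, (ρ ^ T.card * C.wv u (S1 ∪ T)) * (T.card : ℝ)
  have h4 : C.Zx ρ u S1 / C.wv u S1 ≤ Real.exp (ζ0 * m + lam * SS / C.Zx ρ u S1) := by
    rw [Real.exp_add, div_le_iff₀ hw]
    rw [le_div_iff₀ hZ] at h2
    have h5 : Real.exp (-(lam * SS / C.Zx ρ u S1)) * Real.exp (lam * SS / C.Zx ρ u S1) = 1 := by
      rw [← Real.exp_add]; simp
    have h6 := mul_le_mul_of_nonneg_right h2 (Real.exp_pos (lam * SS / C.Zx ρ u S1)).le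
    calc C.Zx ρ u S1 = (Real.exp (-(lam * SS / C.Zx ρ u S1)) *
          Real.exp (lam * SS / C.Zx ρ u S1)) * C.Zx ρ u S1 := by rw [h5, one_mul]
      _ = Real.exp (-(lam * SS / C.Zx ρ u S1)) * C.Zx ρ u S1 *
          Real.exp (lam * SS / C.Zx ρ u S1) := by ring
      _ ≤ _ := h6
      _ = _ := by ring
  have h5 : Real.log (C.Zx ρ u S1 / C.wv u S1) ≤ ζ0 * m + lam * SS / C.Zx ρ u S1 := by
    rw [Real.log_le_iff_le_exp (by positivity)]
    exact h4
  calc Real.log (C.Zx ρ u S1 / C.wv u S1) * C.Zx ρ u S1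
      ≤ (ζ0 * m + lam * SS / C.Zx ρ u S1) * C.Zx ρ u S1 :=
        mul_le_mul_of_nonneg_right h5 hZ.le
    _ = _ := by field_simp

/-- J2 : lower bound for the extension partition function -/
lemma J2 {ρ ζ As : ℝ} (hρ : 0 < ρ) (hζ : 0 < ζ) (hζ1 : ζ ≤ 1)
    (hLg : 0 ≤ Real.log (ρ * Real.exp (-C.bb * As) / ζ))
    {u : Fin m → V} {S1 Q : Finset (Fin m)} (hv : C.valid u S1) (hd : Disjoint S1 Q)
    (hQ1 : ∀ i ∈ Q, C.valid u (insert i S1))
    (hQ2 : ∀ i ∈ Q, ∀ j ∈ Q, i ≠ j → ¬ C.bp (u i) (u j))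
    (hQ3 : ∀ i ∈ Q, C.kk u i S1 ≤ As) :
    Real.log (ρ * Real.exp (-C.bb * As) / ζ) * ((ζ / 2) * ((Q.card : ℝ)
        - ζ * ∑ i ∈ Q, ∑ j ∈ Q, ind (∃ r ∈ S1, C.tri (u i) (u j) (u r))
        - ζ ^ 2 * ∑ i ∈ Q, ∑ j ∈ Q, ∑ k ∈ Q, ind (j ≠ k ∧ C.tri (u i) (u j) (u k))))
        - C.bb / 2 * (ζ ^ 2 * C.W2 u Q)
      ≤ Real.log (C.Zx ρ u S1 / C.wv u S1) := by
  set Lg := Real.log (ρ * Real.exp (-C.bb * As) / ζ) with hLgdef
  have hZ := Zx_pos (C := C) hρ hv
  have hw := wv_pos (C := C) hv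
  have hbb := C.hbb
  have h1 := hc_main (cf := fun T => C.valid u (S1 ∪ T)) hζ hζ1
    (fun T T' hTT' h => valid_mono (Finset.union_subset_union_right hTT') h)
    (by simpa using hv) Q
    (fun i j => ∃ r ∈ S1, C.tri (u i) (u j) (u r)) (fun i j k => C.tri (u i) (u j) (u k))
    (by
      intro T hT i hi hiT hcf hncf
      by_contra hcon
      push Not at hcon
      obtain ⟨hc2, hc3⟩ := hcon
      apply hncf
      have hvi := hQ1 i hi
      have hpair : ∀ c ∈ S1 ∪ T, ¬ C.bp (u i) (u c) := by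
        intro c hc
        rw [Finset.mem_union] at hc
        rcases hc with hc | hc
        · refine hvi.1 i (Finset.mem_insert_self _ _) c (Finset.mem_insert_of_mem hc) ?_
          rintro rfl
          exact Finset.disjoint_left.mp hd hc hi
        · refine hQ2 i hi c (hT hc) ?_
          rintro rfl
          exact hiT hc
      have htri : ∀ c ∈ S1 ∪ T, ∀ d ∈ S1 ∪ T, ¬ C.tri (u i) (u c) (u d) := by
        intro c hc d hd' htr
        rw [Finset.mem_union] at hc hd'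
        rcases hc with hc | hc <;> rcases hd' with hd' | hd'
        · have hi1 : i ∈ insert i S1 := Finset.mem_insert_self _ _
          have hc1 : c ∈ insert i S1 := Finset.mem_insert_of_mem hc
          have hd1 : d ∈ insert i S1 := Finset.mem_insert_of_mem hd'
          rcases htr with h | h | h
          · exact hvi.2 i hi1 c hc1 d hd1 h
          · exact hvi.2 c hc1 i hi1 d hd1 h
          · exact hvi.2 d hd1 i hi1 c hc1 h
        · exact hc2 d hd' c hc (C.tri_swap23 htr)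
        · exact hc2 c hc d hd' htr
        · exact hc3 c hc d hd' (fun h => C.tri_ne23 htr (congrArg u h)) htr
      show C.valid u (S1 ∪ insert i T)
      rw [Finset.union_insert]
      constructor
      · intro x hx y hy hxy
        rw [Finset.mem_insert] at hx hy
        rcases hx with rfl | hx <;> rcases hy with rfl | hy
        · exact absurd rfl hxy
        · exact hpair y hy
        · exact fun h => hpair x hx (C.bp_symm h)
        · exact hcf.1 x hx y hy hxy
      · intro x hx y hy z hz hMM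
        rw [Finset.mem_insert] at hx hy hz
        rcases hx with rfl | hx <;> rcases hy with rfl | hy <;> rcases hz with rfl | hz
        · exact C.ne1 hMM rfl
        · exact C.ne1 hMM rfl
        · exact C.ne3 hMM rfl
        · exact htri y hy z hz (Or.inl hMM)
        · exact C.ne2 hMM rfl
        · exact htri x hx z hz (Or.inr (Or.inl hMM))
        · exact htri x hx y hy (Or.inr (Or.inl (C.symm hMM)))
        · exact hcf.2 x hx y hy z hz hMM)
    (fun i j => C.k (u i) (u j)) (fun i j => C.k_nonneg _ _) (fun i => C.k_self _)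
    Lg (C.bb / 2) hLg (by linarith)
  have h2 : ∑ T ∈ Q.powerset, wt (fun T => C.valid u (S1 ∪ T)) ζ T *
      Real.exp (Lg * T.card - C.bb / 2 * ∑ i ∈ T, ∑ j ∈ T, C.k (u i) (u j))
      ≤ C.Zx ρ u S1 / C.wv u S1 := by
    unfold Zx
    rw [Finset.sum_div]
    have hsub : Q.powerset ⊆ (Finset.univ \ S1).powerset := by
      apply Finset.powerset_mono.mpr
      intro i hi
      rw [Finset.mem_sdiff]
      exact ⟨Finset.mem_univ _, fun h => Finset.disjoint_left.mp hd h hi⟩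
    refine le_trans ?_ (Finset.sum_le_sum_of_subset_of_nonneg hsub
      (fun T _ _ => div_nonneg (mul_nonneg (pow_nonneg hρ.le _) (wv_nonneg _ _)) hw.le))
    refine Finset.sum_le_sum fun T hT => ?_
    have hTQ := Finset.mem_powerset.mp hT
    by_cases hvT : C.valid u (S1 ∪ T)
    swap
    · unfold wt; rw [ind_neg hvT, wv_of_not_valid hvT]; simp
    have hdT : Disjoint S1 T := Finset.disjoint_of_subset_right hTQ hd
    unfold wt
    rw [ind_pos hvT, one_mul, wv_of_valid hvT, wv_of_valid hv, w_union hdT]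
    have h3 : ζ ^ T.card * Real.exp (Lg * T.card) = (ρ * Real.exp (-C.bb * As)) ^ T.card := by
      rw [show Lg * (T.card : ℝ) = (T.card : ℝ) * Lg by ring, Real.exp_nat_mul, hLgdef,
        Real.exp_log (by positivity), ← mul_pow]
      congr 1
      field_simp
    have h4 : (Real.exp (-C.bb * As)) ^ T.card ≤ Real.exp (- C.bb * ∑ i ∈ T, C.kk u i S1) := by
      rw [← Real.exp_nat_mul]
      apply Real.exp_le_exp.mpr
      have h5 : ∑ i ∈ T, C.kk u i S1 ≤ T.card * As := by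
        calc ∑ i ∈ T, C.kk u i S1 ≤ ∑ _i ∈ T, As :=
              Finset.sum_le_sum fun i hi => hQ3 i (hTQ hi)
          _ = T.card * As := by rw [Finset.sum_const, nsmul_eq_mul]
      nlinarith [mul_le_mul_of_nonneg_left h5 hbb.le]
    have h6 : C.w u S1 ≠ 0 := (w_pos u S1).ne'
    have h7 : ∑ i ∈ T, ∑ j ∈ T, C.k (u i) (u j) = C.W2 u T := rfl
    rw [h7]
    calc ζ ^ T.card * Real.exp (Lg * T.card - C.bb / 2 * C.W2 u T)
        = (ζ ^ T.card * Real.exp (Lg * T.card)) * Real.exp (-(C.bb / 2) * C.W2 u T) := by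
          rw [mul_assoc, ← Real.exp_add]; congr 2; ring
      _ = ρ ^ T.card * (Real.exp (-C.bb * As)) ^ T.card * Real.exp (-(C.bb / 2) * C.W2 u T) := by
          rw [h3, mul_pow]
      _ ≤ ρ ^ T.card * Real.exp (- C.bb * ∑ i ∈ T, C.kk u i S1)
          * Real.exp (-(C.bb / 2) * C.W2 u T) := by gcongr
      _ = ρ ^ T.card * (C.w u S1 * Real.exp (-(C.bb / 2) * C.W2 u T
          - C.bb * ∑ i ∈ T, C.kk u i S1)) / C.w u S1 := by
          rw [mul_assoc, ← Real.exp_add]
          field_simp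
          congr 1
          ring
  rw [Real.le_log_iff_exp_le (by positivity)]
  exact h1.trans h2

end Ctx

end

end Pool.Agent.H993R2.TP
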