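import Pool.Agent.H993R2.TP.Part2

set_option autoImplicit false
set_option linter.unusedSectionVars false
set_option linter.unusedVariables false

/-!
Choice of the constants.
-/

namespace Pool.Agent.H993R2.TP

open scoped BigOperators Classical

noncomputable section

variable {V : Type} [Fintype V]

namespace Ctx

/-- numerical hypotheses -/
structure Num (C : Ctx V) (K s D L β c0 f τ ρ : ℝ) (H m : ℕ) : Prop where
  hN : nn V = s ^ 2
  hκ : C.κ = K * s
  hB : C.B = L * s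
  hbb : C.bb = β * Real.log D / s
  K1 : 1 ≤ K
  s1 : 1 ≤ s
  sK : 16 * K ≤ s
  sW : 4000 * (D ^ 5 * (1 + L)) * Real.exp c0 ≤ s
  sD : 25 * D ^ 5 / (τ * f) ≤ s
  D2 : 8 ≤ D
  DK : 16 * K ≤ D
  Dρ : (1 / ρ) ^ (4 * (H + 1)) ≤ D
  LK : 16 * K ≤ L
  LD : 24 * D * Real.exp c0 ≤ L
  hβ : β = 1 / (64 * K)
  hc0 : c0 = 192 * (K + 1) / β
  hH : 16 * K ^ 2 ≤ H
  hf : f = Real.exp (-c0) / (4 * (H + 1))
  hτ : τ = f / (64 * K)
  hρ : ρ = τ * f / (20 * K)
  m1 : D * s ≤ m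
  m2 : (m : ℝ) ≤ 2 * D * s

variable {C : Ctx V} {K s D L β c0 f τ ρ : ℝ} {H m : ℕ}

namespace Num

variable (h : C.Num K s D L β c0 f τ ρ H m)
include h

lemma K0 : 0 < K := by have := h.K1; linarith
lemma s0 : 0 < s := by have := h.s1; linarith
lemma D0 : 0 < D := by have := h.D2; linarith
lemma L1 : 1 ≤ L := by have := h.LK; have := h.K1; linarith
lemma L0 : 0 < L := by have := h.L1; linarith
lemma β0 : 0 < β := by have := h.K0; rw [h.hβ]; positivity
lemma c00 : 0 < c0 := by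
  have := h.K0; have := h.β0; rw [h.hc0]; positivity
lemma f0 : 0 < f := by rw [h.hf]; positivity
lemma τ0 : 0 < τ := by have := h.K0; have := h.f0; rw [h.hτ]; positivity
lemma ρ0 : 0 < ρ := by have := h.K0; have := h.f0; have := h.τ0; rw [h.hρ]; positivity
lemma m0 : (0 : ℝ) < m := by
  have := h.m1; have := mul_pos h.D0 h.s0; linarith

lemma f_le : f ≤ 1 / 4 := by
  rw [h.hf, div_le_iff₀ (by positivity)]
  have h1 : Real.exp (-c0) ≤ 1 := Real.exp_le_one_iff.mpr (by have := h.c00; linarith)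
  have h2 : (0 : ℝ) ≤ H := Nat.cast_nonneg H
  linarith

lemma τ_le : τ ≤ 1 / 256 := by
  have h1 := h.f_le
  have h2 := h.K1
  have h3 := h.f0
  rw [h.hτ, div_le_iff₀ (by positivity)]
  nlinarith

lemma ρ_le : ρ ≤ 1 / 20 := by
  have h1 := h.f_le
  have h2 := h.K1
  have h3 := h.f0
  have h4 := h.τ_le
  have h5 := h.τ0
  rw [h.hρ, div_le_iff₀ (by positivity)]
  nlinarith

lemma log2 : 2 ≤ Real.log D := by
  rw [Real.le_log_iff_exp_le h.D0]
  have h1 : Real.exp 2 < 8 := by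
    have e1 := Real.exp_one_lt_d9
    have e2 : Real.exp 2 = Real.exp 1 * Real.exp 1 := by rw [← Real.exp_add]; norm_num
    rw [e2]
    have e3 := Real.exp_pos 1
    nlinarith
  have := h.D2
  linarith

lemma logD : Real.log D ≤ D := by
  have := Real.log_le_sub_one_of_pos h.D0
  linarith

/-- the basic scale -/
lemma mp (k : ℕ) : (m : ℝ) ^ k ≤ (2 * D * s) ^ k :=
  pow_le_pow_left₀ h.m0.le h.m2 k

lemma W1 : D ^ 5 ≤ D ^ 5 * (1 + L) := by
  have := h.L0
  have := pow_pos h.D0 5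
  nlinarith

lemma W0 : 0 < D ^ 5 * (1 + L) := by
  have := h.L0
  have := pow_pos h.D0 5
  positivity

lemma a4 : (m : ℝ) ^ 4 / nn V ^ 2 ≤ 8 * (D ^ 5 * (1 + L)) * (m / s) := by
  have hs := h.s0
  have hm := h.m0
  have hD := h.D0
  rw [h.hN, div_le_iff₀ (by positivity)]
  have h3 := h.mp 3
  have hD35 : D ^ 3 ≤ D ^ 5 * (1 + L) := by
    refine le_trans ?_ h.W1
    exact pow_le_pow_right₀ (by have := h.D2; linarith) (by norm_num)
  calc (m : ℝ) ^ 4 = m * m ^ 3 := by ring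
    _ ≤ m * (2 * D * s) ^ 3 := mul_le_mul_of_nonneg_left h3 hm.le
    _ = 8 * D ^ 3 * (m / s) * (s ^ 2) ^ 2 := by field_simp; ring
    _ ≤ 8 * (D ^ 5 * (1 + L)) * (m / s) * (s ^ 2) ^ 2 := by gcongr

lemma a5 : (m : ℝ) ^ 5 / (nn V ^ 2 * C.B) ≤ 16 * (D ^ 5 * (1 + L)) * (m / s) := by
  have hs := h.s0
  have hm := h.m0
  have hD := h.D0
  have hL := h.L0
  have hL1 := h.L1
  rw [h.hN, h.hB, div_le_iff₀ (by positivity)]
  have h3 := h.mp 4
  have hD35 : D ^ 4 ≤ D ^ 5 * (1 + L) := by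
    refine le_trans ?_ h.W1
    exact pow_le_pow_right₀ (by have := h.D2; linarith) (by norm_num)
  calc (m : ℝ) ^ 5 = m * m ^ 4 := by ring
    _ ≤ m * (2 * D * s) ^ 4 := mul_le_mul_of_nonneg_left h3 hm.le
    _ = 16 * D ^ 4 * (m / s) * ((s ^ 2) ^ 2 * (1 * s)) := by field_simp; ring
    _ ≤ 16 * (D ^ 5 * (1 + L)) * (m / s) * ((s ^ 2) ^ 2 * (L * s)) := by gcongr

lemma a6 : C.B6 m ≤ 192 * (D ^ 5 * (1 + L)) * (m / s) := by
  have hs := h.s0
  have hs1 := h.s1
  have hm := h.m0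
  have hD := h.D0
  have hL := h.L0
  have hL1 := h.L1
  unfold B6
  rw [h.hN, h.hB, div_le_iff₀ (by positivity)]
  have h5 := h.mp 5
  have h4 := h.mp 4
  have hD35 : D ^ 4 ≤ D ^ 5 := pow_le_pow_right₀ (by have := h.D2; linarith) (by norm_num)
  have e1 : 2 + L * s ≤ (2 + L) * s := by nlinarith
  calc 3 * (m : ℝ) ^ 6 + 2 * m ^ 5 * (2 + L * s)
      = m * (3 * m ^ 5) + m * (2 * m ^ 4 * (2 + L * s)) := by ring
    _ ≤ m * (3 * (2 * D * s) ^ 5) + m * (2 * (2 * D * s) ^ 4 * ((2 + L) * s)) := by gcongr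
    _ = (96 * D ^ 5 + 32 * D ^ 4 * (2 + L)) * (m / s) * (s ^ 2) ^ 3 := by field_simp; ring
    _ ≤ (96 * D ^ 5 + 32 * D ^ 5 * (2 + L)) * (m / s) * (s ^ 2) ^ 3 := by gcongr
    _ ≤ 192 * (D ^ 5 * (1 + L)) * (m / s) * (s ^ 2) ^ 3 := by
        apply mul_le_mul_of_nonneg_right _ (by positivity)
        apply mul_le_mul_of_nonneg_right _ (by positivity)
        have := pow_pos hD 5
        nlinarith

lemma a7 : C.bb / Real.log 2 * (m ^ 5 / nn V ^ 2) ≤ (D ^ 5 * (1 + L)) * (m / s) := by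
  have hs := h.s0
  have hm := h.m0
  have hD := h.D0
  have hL := h.L0
  have hK := h.K0
  have hK1 := h.K1
  have hl2 : (1 / 2 : ℝ) ≤ Real.log 2 := by have := Real.log_two_gt_d9; linarith
  have hl20 : 0 < Real.log 2 := by linarith
  have hlD := h.logD
  have hlD2 := h.log2
  have hβ : β ≤ 1 / 64 := by
    rw [h.hβ]
    apply div_le_div_of_nonneg_left (by norm_num) (by norm_num)
    linarith
  have h4 := h.mp 4
  have e1 : (m : ℝ) ^ 5 / (s ^ 2) ^ 2 ≤ 16 * D ^ 4 * m := by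
    rw [div_le_iff₀ (by positivity)]
    calc (m : ℝ) ^ 5 = m * m ^ 4 := by ring
      _ ≤ m * (2 * D * s) ^ 4 := mul_le_mul_of_nonneg_left h4 hm.le
      _ = 16 * D ^ 4 * m * (s ^ 2) ^ 2 := by ring
  have e2 : C.bb / Real.log 2 ≤ (1 / 32) * D / s := by
    rw [h.hbb, div_div, div_le_div_iff₀ (by positivity) hs]
    have h1 : β * Real.log D ≤ 1 / 64 * D := mul_le_mul hβ hlD (by linarith) (by norm_num)
    calc β * Real.log D * s ≤ 1 / 64 * D * s := by gcongr
      _ = 1 / 32 * D * (s * (1 / 2)) := by ring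
      _ ≤ 1 / 32 * D * (s * Real.log 2) := by gcongr
  rw [h.hN]
  calc C.bb / Real.log 2 * (m ^ 5 / (s ^ 2) ^ 2) ≤ ((1 / 32) * D / s) * (16 * D ^ 4 * m) := by
        gcongr
    _ = (1 / 2) * D ^ 5 * (m / s) := by ring
    _ ≤ (D ^ 5 * (1 + L)) * (m / s) := by
        apply mul_le_mul_of_nonneg_right _ (by positivity)
        have := h.W1
        have := pow_pos hD 5
        linarith

lemma Wm : (D ^ 5 * (1 + L)) * (m / s) ≤ (1 / 4000) * Real.exp (-c0) * m := by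
  have hs := h.s0
  have hm := h.m0
  have h1 := h.sW
  have h2 : Real.exp c0 * Real.exp (-c0) = 1 := by rw [← Real.exp_add]; simp
  have h3 := Real.exp_pos (-c0)
  rw [mul_div_assoc', div_le_iff₀ hs]
  have h4 : D ^ 5 * (1 + L) ≤ (1 / 4000) * Real.exp (-c0) * s := by
    calc D ^ 5 * (1 + L) = (1 / 4000) * Real.exp (-c0) *
          (4000 * (D ^ 5 * (1 + L)) * Real.exp c0) := by
          linear_combination (-(D ^ 5 * (1 + L))) * h2
      _ ≤ _ := by gcongr
  calc D ^ 5 * (1 + L) * m ≤ (1 / 4000) * Real.exp (-c0) * s * m := by gcongr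
    _ = _ := by ring

lemma expc0 : Real.exp (-c0) ≤ 1 := Real.exp_le_one_iff.mpr (by have := h.c00; linarith)

lemma atyp : ∑ i : Fin m, E (fun u : Fin m → V => ind (¬ C.typ u i)) ≤ m / 16 := by
  have h1 := E_atyp (C := C) (m := m)
  have h2 := h.a4
  have h3 := h.a5
  have h4 := h.a6
  have h5 := h.a7
  have h6 := h.Wm
  have h7 := h.expc0
  have h8 := h.m0
  have h9 : (1 / 4000) * Real.exp (-c0) * m ≤ (1 / 4000) * m := by nlinarith
  linarith

lemma coinb : ∑ i : Fin m, E (fun u : Fin m → V => ind (C.coin u i))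
    ≤ Real.exp (-c0) / 4 * m := by
  have h1 := E_coin (C := C) (m := m)
  have hs := h.s0
  have hm := h.m0
  have hD := h.D0
  have hL := h.L0
  have h4 := h.a6
  have h6 := h.Wm
  have h7 := Real.exp_pos (-c0)
  have e1 : (m : ℝ) ^ 2 * (1 / nn V) ≤ 2 * (D ^ 5 * (1 + L)) * (m / s) := by
    rw [h.hN]
    have hD35 : D ≤ D ^ 5 * (1 + L) := by
      refine le_trans ?_ h.W1
      calc D = D ^ 1 := (pow_one D).symm
        _ ≤ D ^ 5 := pow_le_pow_right₀ (by have := h.D2; linarith) (by norm_num)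
    calc (m : ℝ) ^ 2 * (1 / s ^ 2) = m * m / s ^ 2 := by ring
      _ ≤ (2 * D * s) * m / s ^ 2 := by
          have := h.m2
          gcongr
      _ = 2 * D * (m / s) := by field_simp
      _ ≤ 2 * (D ^ 5 * (1 + L)) * (m / s) := by gcongr
  have e2 : (m : ℝ) ^ 2 * (1 / C.B) ≤ (1 / 12) * Real.exp (-c0) * m := by
    rw [h.hB]
    have h2 : Real.exp c0 * Real.exp (-c0) = 1 := by rw [← Real.exp_add]; simp
    have h3 : D / L ≤ (1 / 24) * Real.exp (-c0) := by
      rw [div_le_iff₀ hL]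
      calc D = (1 / 24) * Real.exp (-c0) * (24 * D * Real.exp c0) := by
            linear_combination (-D) * h2
        _ ≤ _ := by have := h.LD; gcongr
    calc (m : ℝ) ^ 2 * (1 / (L * s)) = m * m / (L * s) := by ring
      _ ≤ (2 * D * s) * m / (L * s) := by
          have := h.m2
          gcongr
      _ = 2 * (D / L) * m := by field_simp
      _ ≤ 2 * ((1 / 24) * Real.exp (-c0)) * m := by gcongr
      _ = _ := by ring
  have e3 : (m : ℝ) ^ 2 * (1 / nn V + 1 / C.B) = (m : ℝ) ^ 2 * (1 / nn V)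
      + (m : ℝ) ^ 2 * (1 / C.B) := by ring
  rw [e3] at h1
  have h8 := mul_pos h7 hm
  linarith

lemma X1 : Real.exp (-c0) / 2 * m ≤ ∑ i : Fin m,
    E (C.EI i (fun u S => ind (C.alive u i S ∧ C.good0 (16 * K * s) H u i S))) := by
  have hs := h.s0
  have hm := h.m0
  have hD := h.D0
  have hL := h.L0
  have hK := h.K0
  have hK1 := h.K1
  have hβ := h.β0
  have hc := h.c00
  have hl2 := h.log2
  have hH : (0 : ℝ) < H := by have := h.hH; nlinarith
  have hw0 : 1 ≤ C.bb * (4 * s / β) := by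
    rw [h.hbb]
    have : β * Real.log D / s * (4 * s / β) = 4 * Real.log D := by field_simp
    rw [this]; linarith
  have hp1 := part1 (C := C) (m := m) (As := 16 * K * s) (hm := H) (c0 := c0) (w0 := 4 * s / β)
    (by positivity) hH hc hw0
  have t1 : (1 / nn V) * (C.κ * nn V / (16 * K * s)) = 1 / 16 := by
    rw [h.hN, h.hκ]; field_simp
  have t2 : (1 / nn V) * (C.κ ^ 2 / H) ≤ 1 / 16 := by
    rw [h.hN, h.hκ]
    have : 1 / s ^ 2 * ((K * s) ^ 2 / H) = K ^ 2 / H := by field_simp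
    rw [this, div_le_iff₀ hH]
    have := h.hH
    linarith
  have t3 : (1 / nn V) * (C.κ * (1 + nn V / C.B)) ≤ 1 / 8 := by
    rw [h.hN, h.hκ, h.hB]
    have e1 : 1 / s ^ 2 * (K * s * (1 + s ^ 2 / (L * s))) = K / s + K / L := by field_simp
    have e2 : K / s ≤ 1 / 16 := by rw [div_le_iff₀ hs]; have := h.sK; linarith
    have e3 : K / L ≤ 1 / 16 := by rw [div_le_iff₀ hL]; have := h.LK; linarith
    rw [e1]; linarith
  have t4 : (1 / nn V) * (3 / c0 * ((4 * s / β) * (C.κ + m * Real.exp (-C.bb * (4 * s / β)))))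
      ≤ 1 / 16 := by
    have e1 : m * Real.exp (-C.bb * (4 * s / β)) ≤ s := by
      have e2 : Real.exp (-C.bb * (4 * s / β)) = 1 / D ^ 4 := by
        rw [h.hbb]
        have : -(β * Real.log D / s) * (4 * s / β) = -((4 : ℕ) * Real.log D) := by
          push_cast; field_simp
        rw [this, Real.exp_neg, Real.exp_nat_mul, Real.exp_log hD, one_div]
      rw [e2]
      have hD2 := h.D2
      calc (m : ℝ) * (1 / D ^ 4) ≤ (2 * D * s) * (1 / D ^ 4) := by
            have := h.m2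
            gcongr
        _ = (2 / D ^ 3) * s := by field_simp
        _ ≤ 1 * s := by
            apply mul_le_mul_of_nonneg_right _ hs.le
            rw [div_le_one (by positivity)]
            calc (2 : ℝ) ≤ D := by linarith
              _ = D ^ 1 := (pow_one D).symm
              _ ≤ D ^ 3 := pow_le_pow_right₀ (by linarith) (by norm_num)
        _ = s := one_mul s
    rw [h.hN, h.hκ]
    calc 1 / s ^ 2 * (3 / c0 * ((4 * s / β) * (K * s + m * Real.exp (-C.bb * (4 * s / β)))))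
        ≤ 1 / s ^ 2 * (3 / c0 * ((4 * s / β) * (K * s + s))) := by gcongr
      _ = 12 * (K + 1) / (β * c0) := by field_simp; ring
      _ = 1 / 16 := by rw [h.hc0]; field_simp; norm_num
  have hat := h.atyp
  have hκm : C.κ ≤ m / 16 := by
    rw [h.hκ]
    have h1 := h.DK
    have h2 := h.m1
    nlinarith
  have e5 : (m : ℝ) * ((1 / nn V) * (C.κ * nn V / (16 * K * s) + C.κ ^ 2 / H
        + C.κ * (1 + nn V / C.B)
        + 3 / c0 * ((4 * s / β) * (C.κ + m * Real.exp (-C.bb * (4 * s / β)))))) ≤ m * (5 / 16) := by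
    apply mul_le_mul_of_nonneg_left _ hm.le
    have : (1 / nn V) * (C.κ * nn V / (16 * K * s) + C.κ ^ 2 / H
        + C.κ * (1 + nn V / C.B)
        + 3 / c0 * ((4 * s / β) * (C.κ + m * Real.exp (-C.bb * (4 * s / β)))))
        = (1 / nn V) * (C.κ * nn V / (16 * K * s)) + (1 / nn V) * (C.κ ^ 2 / H)
        + (1 / nn V) * (C.κ * (1 + nn V / C.B))
        + (1 / nn V) * (3 / c0 * ((4 * s / β) * (C.κ + m * Real.exp (-C.bb * (4 * s / β))))) := by
      ring
    rw [this]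
    linarith
  set X := ∑ i : Fin m,
    E (C.EI i (fun u S => ind (C.alive u i S ∧ C.good0 (16 * K * s) H u i S))) with hX
  have e6 : (m : ℝ) / 2 ≤ Real.exp c0 * X := by linarith
  have h2 : Real.exp (-c0) * Real.exp c0 = 1 := by rw [← Real.exp_add]; simp
  have h3 := mul_le_mul_of_nonneg_left e6 (Real.exp_pos (-c0)).le
  have h4 : Real.exp (-c0) * (Real.exp c0 * X) = X := by rw [← mul_assoc, h2, one_mul]
  rw [h4] at h3
  linarith

lemma exG : ∃ k, k ≤ H ∧ f * m ≤ C.Gh m (16 * K * s) k := by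
  by_contra hcon
  push Not at hcon
  have h1 := sum_Gh (C := C) (m := m) (As := 16 * K * s) (hm := H)
  have h2 := h.X1
  have h3 := h.coinb
  have hm := h.m0
  have h4 : ∑ k ∈ Finset.range (H + 1), C.Gh m (16 * K * s) k
      < ∑ _k ∈ Finset.range (H + 1), f * m := by
    apply Finset.sum_lt_sum_of_nonempty
    · exact ⟨0, Finset.mem_range.mpr (by omega)⟩
    · intro k hk
      exact hcon k (by have := Finset.mem_range.mp hk; omega)
  rw [Finset.sum_const, Finset.card_range, nsmul_eq_mul] at h4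
  have h5 : ((H + 1 : ℕ) : ℝ) * (f * m) = Real.exp (-c0) / 4 * m := by
    rw [h.hf]; push_cast; field_simp
  rw [h5] at h4
  linarith

/-- the power of `ρ` is harmless -/
lemma q1 : 1 ≤ ρ ^ (4 * (H + 1)) * D := by
  have hρ := h.ρ0
  have hDρ := h.Dρ
  rw [one_div, inv_pow] at hDρ
  have h1 : 0 < ρ ^ (4 * (H + 1)) := pow_pos hρ _
  calc (1 : ℝ) = ρ ^ (4 * (H + 1)) * (ρ ^ (4 * (H + 1)))⁻¹ := by
        rw [mul_inv_cancel₀ h1.ne']
    _ ≤ _ := mul_le_mul_of_nonneg_left hDρ h1.le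

lemma ζ1 {k : ℕ} (hk : k ≤ H) : τ / (ρ ^ k * D) ≤ 1 := by
  have hρ := h.ρ0
  have hD := h.D0
  have hρ1 : ρ ≤ 1 := by have := h.ρ_le; linarith
  have hτ1 : τ ≤ 1 := by have := h.τ_le; linarith
  have q1 := h.q1
  rw [div_le_one (by positivity)]
  have h1 : ρ ^ (4 * (H + 1)) ≤ ρ ^ k := pow_le_pow_of_le_one hρ.le hρ1 (by omega)
  have h2 : ρ ^ (4 * (H + 1)) * D ≤ ρ ^ k * D := mul_le_mul_of_nonneg_right h1 hD.le
  linarith

lemma Lgb {k : ℕ} (hk : k ≤ H) : Real.log D / 2 ≤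
    Real.log (ρ * Real.exp (-C.bb * (16 * K * s)) / (τ / (ρ ^ k * D))) := by
  have hs := h.s0
  have hD := h.D0
  have hK := h.K0
  have hτ := h.τ0
  have hρ := h.ρ0
  have hρ1 : ρ ≤ 1 := by have := h.ρ_le; linarith
  have hτ1 : τ ≤ 1 := by have := h.τ_le; linarith
  have q1 := h.q1
  have hexp : Real.exp (-C.bb * (16 * K * s)) = Real.exp (-(Real.log D / 4)) := by
    rw [h.hbb, h.hβ]
    congr 1
    field_simp
    ring
  rw [hexp, Real.le_log_iff_exp_le (by positivity), le_div_iff₀ (by positivity),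
    mul_div_assoc', div_le_iff₀ (by positivity)]
  -- exp(log D / 2) τ ≤ ρ e^{-log D/4} ρ^k D
  have e1 : Real.exp (-(Real.log D / 4)) ≤ ρ ^ (H + 1) := by
    have e2 : (Real.exp (-(Real.log D / 4))) ^ 4 ≤ (ρ ^ (H + 1)) ^ 4 := by
      rw [← Real.exp_nat_mul]
      have e3 : ((4 : ℕ) : ℝ) * -(Real.log D / 4) = -Real.log D := by push_cast; ring
      rw [e3, Real.exp_neg, Real.exp_log hD, ← pow_mul, inv_eq_one_div, div_le_iff₀ hD]
      have : (H + 1) * 4 = 4 * (H + 1) := by ring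
      rw [this]
      exact q1
    exact le_of_pow_le_pow_left₀ (by norm_num) (by positivity) e2
  have e4 : ρ ^ (H + 1) ≤ ρ ^ (k + 1) := pow_le_pow_of_le_one hρ.le hρ1 (by omega)
  have e5 : Real.exp (Real.log D / 2) = Real.exp (-(Real.log D / 4)) *
      (Real.exp (-(Real.log D / 4)) * D) := by
    have : D = Real.exp (Real.log D) := (Real.exp_log hD).symm
    conv_rhs => rw [this]
    rw [Real.log_exp, ← Real.exp_add, ← Real.exp_add]
    congr 1; ring
  calc Real.exp (Real.log D / 2) * τ ≤ Real.exp (Real.log D / 2) * 1 := by gcongr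
    _ = Real.exp (-(Real.log D / 4)) * (Real.exp (-(Real.log D / 4)) * D) := by
        rw [mul_one, e5]
    _ ≤ ρ ^ (k + 1) * (Real.exp (-(Real.log D / 4)) * D) := by
        apply mul_le_mul_of_nonneg_right (e1.trans e4) (by positivity)
    _ = ρ * Real.exp (-(Real.log D / 4)) * (ρ ^ k * D) := by ring

end Num

/-- the final numerical contradiction -/
lemma core {K s D τ f ρ β l Lg z GG R X : ℝ} (hK1 : 1 ≤ K) (hs : 0 < s) (hD : 8 ≤ D)
    (hl : 2 ≤ l) (hf : 0 < f) (hf1 : f ≤ 1 / 4) (hτ : τ * (64 * K) = f)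
    (hρ : ρ * (20 * K) = τ * f) (hβ0 : 0 ≤ β) (hβ : β ≤ 1 / 64) (hLg : l / 2 ≤ Lg)
    (hz0 : 0 < z) (hz2 : z ≤ 2 * τ * s) (hG : τ * f * s ≤ GG)
    (hR : R ≤ 32 * D ^ 5 * s) (hD5 : 25 * D ^ 5 ≤ τ * f * s) (hX : X ≤ 2 * ρ * s)
    (hp : Lg * ((1 / 2) * (GG - 3 * K * z ^ 2 / s - 3 * z ^ 3 / s ^ 2))
      - (β * l / s / 2 * z ^ 2 + β * l / s / 2 * R) ≤ X + l * (ρ * K * s)) : False := by
  have hK : 0 < K := by linarith
  have hD0 : 0 < D := by linarith
  have hl0 : 0 < l := by linarith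
  have hτ0 : 0 < τ := by
    by_contra hc
    push Not at hc
    nlinarith
  have hρ0 : 0 < ρ := by
    by_contra hc
    push Not at hc
    have : 0 < τ * f := by positivity
    nlinarith
  have e2 : 3 * K * z ^ 2 / s ≤ 12 * K * τ ^ 2 * s := by
    rw [div_le_iff₀ hs]
    have : z ^ 2 ≤ (2 * τ * s) ^ 2 := pow_le_pow_left₀ hz0.le hz2 2
    calc 3 * K * z ^ 2 ≤ 3 * K * (2 * τ * s) ^ 2 := by gcongr
      _ = _ := by ring
  have e3 : 3 * z ^ 3 / s ^ 2 ≤ 24 * τ ^ 3 * s := by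
    rw [div_le_iff₀ (by positivity)]
    have : z ^ 3 ≤ (2 * τ * s) ^ 3 := pow_le_pow_left₀ hz0.le hz2 3
    calc 3 * z ^ 3 ≤ 3 * (2 * τ * s) ^ 3 := by gcongr
      _ = _ := by ring
  have hτf : 64 * τ ≤ f := by nlinarith
  have e4 : 12 * K * τ ^ 2 = (12 / 64) * (τ * f) := by rw [← hτ]; ring
  have e5 : 24 * τ ^ 3 ≤ (1 / 256) * (τ * f) := by
    have h1 : τ ≤ 1 / 256 := by linarith
    have h3 : τ ^ 3 = τ * (τ * τ) := by ring
    have h4 : τ * τ ≤ (1 / 256) * τ := mul_le_mul_of_nonneg_right h1 hτ0.le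
    have h5 : τ * (τ * τ) ≤ τ * ((1 / 256) * τ) := mul_le_mul_of_nonneg_left h4 hτ0.le
    have h6 : τ * ((1 / 256) * τ) ≤ τ * ((1 / 256) * (f / 64)) := by
      apply mul_le_mul_of_nonneg_left _ hτ0.le
      linarith
    have h7 : 0 < τ * f := by positivity
    rw [h3]
    linarith
  obtain ⟨P, hP⟩ : ∃ P : ℝ, P = τ * f * s := ⟨_, rfl⟩
  have hP0 : 0 < P := by rw [hP]; positivity
  have hlP : 0 < l * P := by positivity
  rw [← hP] at hG hD5
  have e6 : (8 / 10) * P ≤ GG - 3 * K * z ^ 2 / s - 3 * z ^ 3 / s ^ 2 := by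
    have h1 : 12 * K * τ ^ 2 * s = (12 / 64) * P := by rw [e4, hP]; ring
    have h2 : 24 * τ ^ 3 * s ≤ (1 / 256) * P := by
      calc 24 * τ ^ 3 * s ≤ (1 / 256) * (τ * f) * s := by gcongr
        _ = _ := by rw [hP]; ring
    linarith
  have e7 : (2 / 10) * (l * P) ≤ Lg * ((1 / 2) * (GG - 3 * K * z ^ 2 / s
      - 3 * z ^ 3 / s ^ 2)) := by
    calc (2 / 10) * (l * P) = (l / 2) * ((1 / 2) * ((8 / 10) * P)) := by ring
      _ ≤ _ := by
          apply mul_le_mul hLg _ (by positivity) (by linarith)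
          linarith
  have e8 : β * l / s / 2 * z ^ 2 ≤ (1 / 100) * (l * P) := by
    have h2 : z ^ 2 ≤ (2 * τ * s) ^ 2 := pow_le_pow_left₀ hz0.le hz2 2
    have h3 : τ ≤ (1 / 64) * f := by linarith
    have h4 : 0 ≤ β * l / s / 2 := by positivity
    calc β * l / s / 2 * z ^ 2 ≤ β * l / s / 2 * (2 * τ * s) ^ 2 :=
          mul_le_mul_of_nonneg_left h2 h4
      _ = (2 * β) * (l * s * τ * τ) := by field_simp
      _ ≤ (2 * (1 / 64)) * (l * s * τ * ((1 / 64) * f)) := by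
          apply mul_le_mul (by linarith) _ (by positivity) (by norm_num)
          exact mul_le_mul_of_nonneg_left h3 (by positivity)
      _ = (2 / 4096) * (l * P) := by rw [hP]; ring
      _ ≤ _ := mul_le_mul_of_nonneg_right (by norm_num) hlP.le
  have e9 : β * l / s / 2 * R ≤ (1 / 100) * (l * P) := by
    have h4 : 0 ≤ β * l / s / 2 := by positivity
    calc β * l / s / 2 * R ≤ β * l / s / 2 * (32 * D ^ 5 * s) :=
          mul_le_mul_of_nonneg_left hR h4
      _ = β * (16 * D ^ 5 * l) := by field_simp; ring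
      _ ≤ (1 / 64) * (16 * D ^ 5 * l) := mul_le_mul_of_nonneg_right hβ (by positivity)
      _ = (1 / 100) * (l * (25 * D ^ 5)) := by ring
      _ ≤ (1 / 100) * (l * P) := by gcongr
  have h3 : ρ * K * s = (1 / 20) * P := by rw [hP, ← hρ]; ring
  have e10 : X ≤ (1 / 20) * (l * P) := by
    have h5 : ρ * s ≤ ρ * K * s := by
      have : 0 < ρ * s := by positivity
      nlinarith
    have h6 : 2 * ((1 / 20) * P) ≤ l * ((1 / 20) * P) :=
      mul_le_mul_of_nonneg_right hl (by positivity)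
    calc X ≤ 2 * (ρ * s) := by linarith
      _ ≤ 2 * ((1 / 20) * P) := by linarith
      _ ≤ _ := by linarith
  rw [h3] at hp
  have h7 : l * (1 / 20 * P) = (1 / 20) * (l * P) := by ring
  rw [h7] at hp
  linarith

namespace Num

variable (h : C.Num K s D L β c0 f τ ρ H m)
include h

theorem contra : False := by
  obtain ⟨k, hk, hG⟩ := h.exG
  have hs := h.s0
  have hm := h.m0
  have hD := h.D0
  have hK := h.K0
  have hK1 := h.K1
  have hβ := h.β0
  have hf := h.f0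
  have hτ := h.τ0
  have hρ := h.ρ0
  have hρ1 : ρ ≤ 1 := by have := h.ρ_le; linarith
  have hρk : 0 < ρ ^ k := pow_pos hρ k
  have hζ1 := h.ζ1 hk
  have hLg := h.Lgb hk
  have hl2 := h.log2
  have hLg0 : 0 ≤ Real.log (ρ * Real.exp (-C.bb * (16 * K * s)) / (τ / (ρ ^ k * D))) := by
    linarith
  obtain ⟨ζ, hζdef⟩ : ∃ ζ : ℝ, ζ = τ / (ρ ^ k * D) := ⟨_, rfl⟩
  rw [← hζdef] at hζ1 hLg hLg0
  have hζ : 0 < ζ := by rw [hζdef]; positivity
  have hζ0 : 0 < ρ / D := by positivity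
  have hζρ : ρ / D ≤ ρ := by
    rw [div_le_iff₀ hD]
    have := h.D2
    nlinarith
  have hp := part2 (C := C) (As := 16 * K * s) (h := k) m hρ hρ1 hζ hζ1 hζ0 hζρ hLg0
  have hrho : Real.log (ρ / (ρ / D)) = Real.log D := by
    congr 1; field_simp
  rw [hrho] at hp
  have hzeq : ζ * ρ ^ k = τ / D := by
    rw [hζdef]; field_simp
  have hβ64 : β ≤ 1 / 64 := by
    rw [h.hβ]
    apply div_le_div_of_nonneg_left (by norm_num) (by norm_num)
    linarith
  refine core (K := K) (s := s) (D := D) (τ := τ) (f := f) (ρ := ρ) (β := β) (l := Real.log D)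
    (Lg := Real.log (ρ * Real.exp (-C.bb * (16 * K * s)) / ζ)) (z := ζ * ρ ^ k * m)
    (GG := ζ * ρ ^ k * C.Gh m (16 * K * s) k) (R := ζ ^ 2 * (m ^ 5 / nn V ^ 2))
    (X := ρ / D * m)
    hK1 hs h.D2 hl2 hf h.f_le ?_ ?_ hβ.le hβ64 hLg (by positivity) ?_ ?_ ?_ ?_ ?_ ?_
  · rw [h.hτ]; field_simp
  · rw [h.hρ]; field_simp
  · rw [hzeq, div_mul_eq_mul_div, div_le_iff₀ hD]
    have := h.m2
    nlinarith
  · rw [hzeq]
    calc τ * f * s ≤ τ / D * (f * m) := by
          rw [div_mul_eq_mul_div, le_div_iff₀ hD]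
          have := h.m1
          have h2 : 0 < τ * f := by positivity
          nlinarith
      _ ≤ _ := mul_le_mul_of_nonneg_left hG (by positivity)
  · have h1 : ζ ^ 2 ≤ 1 := pow_le_one₀ hζ.le hζ1
    have h2 : (m : ℝ) ^ 5 / nn V ^ 2 ≤ 32 * D ^ 5 * s := by
      rw [h.hN, div_le_iff₀ (by positivity)]
      calc (m : ℝ) ^ 5 ≤ (2 * D * s) ^ 5 := h.mp 5
        _ = _ := by ring
    have h3 : 0 ≤ (m : ℝ) ^ 5 / nn V ^ 2 := by
      have := nn_pos C
      positivity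
    calc ζ ^ 2 * ((m : ℝ) ^ 5 / nn V ^ 2) ≤ 1 * ((m : ℝ) ^ 5 / nn V ^ 2) :=
          mul_le_mul_of_nonneg_right h1 h3
      _ ≤ _ := by rw [one_mul]; exact h2
  · have := h.sD
    rw [div_le_iff₀ (by positivity)] at this
    linarith
  · rw [div_mul_eq_mul_div, div_le_iff₀ hD]
    have := h.m2
    nlinarith
  · have e1 : (ζ / 2) * (ρ ^ k * C.Gh m (16 * K * s) k
        - ζ * (ρ ^ (2 * k) * (m ^ 2 * (3 * C.κ / nn V)))
        - ζ ^ 2 * (ρ ^ (3 * k) * (m ^ 3 * (3 / nn V))))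
        = (1 / 2) * (ζ * ρ ^ k * C.Gh m (16 * K * s) k - 3 * K * (ζ * ρ ^ k * m) ^ 2 / s
          - 3 * (ζ * ρ ^ k * m) ^ 3 / s ^ 2) := by
      rw [h.hN, h.hκ, pow_mul', pow_mul']
      field_simp
    have e2 : C.bb / 2 * (ζ ^ 2 * (ρ ^ (2 * k) * m ^ 2 + m ^ 5 / nn V ^ 2))
        = β * Real.log D / s / 2 * (ζ * ρ ^ k * m) ^ 2
          + β * Real.log D / s / 2 * (ζ ^ 2 * (m ^ 5 / nn V ^ 2)) := by
      rw [h.hbb, pow_mul']
      ring
    have e3 : Real.log D * (ρ * C.κ) = Real.log D * (ρ * K * s) := by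
      rw [h.hκ]; ring
    rw [e1, e2, e3] at hp
    exact hp

end Num

end Ctx

/-- Main theorem on page systems. -/
theorem main (K : ℝ) (hK : 1 ≤ K) : ∃ s0 : ℝ, ∀ (V : Type) [Fintype V] (G : Sys V) (s : ℝ),
    s0 ≤ s → (Fintype.card V : ℝ) = s ^ 2 →
    ∃ S : Finset V, (∀ x ∈ S, ∀ b ∈ S, ∀ c ∈ S, ¬ G.M x b c) ∧ K * s < S.card := by
  have hK0 : 0 < K := by linarith
  obtain ⟨β, hβ⟩ : ∃ β : ℝ, β = 1 / (64 * K) := ⟨_, rfl⟩
  have hβ0 : 0 < β := by rw [hβ]; positivity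
  obtain ⟨c0, hc0⟩ : ∃ c0 : ℝ, c0 = 192 * (K + 1) / β := ⟨_, rfl⟩
  obtain ⟨H, hH⟩ : ∃ H : ℕ, 16 * K ^ 2 ≤ (H : ℝ) := exists_nat_ge _
  obtain ⟨f, hf⟩ : ∃ f : ℝ, f = Real.exp (-c0) / (4 * (H + 1)) := ⟨_, rfl⟩
  have hf0 : 0 < f := by rw [hf]; positivity
  obtain ⟨τ, hτ⟩ : ∃ τ : ℝ, τ = f / (64 * K) := ⟨_, rfl⟩
  have hτ0 : 0 < τ := by rw [hτ]; positivity
  obtain ⟨ρ, hρ⟩ : ∃ ρ : ℝ, ρ = τ * f / (20 * K) := ⟨_, rfl⟩
  have hρ0 : 0 < ρ := by rw [hρ]; positivity
  obtain ⟨D, hD⟩ : ∃ D : ℝ, D = 16 * K + 8 + (1 / ρ) ^ (4 * (H + 1)) := ⟨_, rfl⟩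
  have hp0 : 0 < (1 / ρ) ^ (4 * (H + 1)) := by positivity
  have hD8 : 8 ≤ D := by rw [hD]; linarith
  have hD0 : 0 < D := by linarith
  obtain ⟨L, hL⟩ : ∃ L : ℝ, L = 16 * K + 24 * D * Real.exp c0 := ⟨_, rfl⟩
  have hL1 : 0 < 24 * D * Real.exp c0 := by positivity
  have hL0 : 0 < L := by rw [hL]; positivity
  obtain ⟨s0, hs0⟩ : ∃ s0 : ℝ, s0 = 4000 * (D ^ 5 * (1 + L)) * Real.exp c0
      + 25 * D ^ 5 / (τ * f) + 16 * K + 1 := ⟨_, rfl⟩
  have q1 : 0 < 4000 * (D ^ 5 * (1 + L)) * Real.exp c0 := by positivity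
  have q2 : 0 < 25 * D ^ 5 / (τ * f) := by positivity
  refine ⟨s0, ?_⟩
  intro V _ G s hs hN
  by_contra hcon
  push Not at hcon
  have hs1 : 1 ≤ s := by linarith
  have hsp : 0 < s := by linarith
  have hlogD : 0 < Real.log D := Real.log_pos (by linarith)
  let C : Ctx V :=
    { toSys := G
      B := L * s
      bb := β * Real.log D / s
      κ := K * s
      hB := by positivity
      hbb := by positivity
      hind := hcon
      hN := by
        have : (0 : ℝ) < Fintype.card V := by rw [hN]; positivity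
        exact_mod_cast this }
  have hDs : 8 ≤ D * s := by nlinarith
  obtain ⟨m, hm1, hm2⟩ : ∃ m : ℕ, D * s ≤ m ∧ (m : ℝ) ≤ 2 * D * s := by
    refine ⟨⌈D * s⌉₊, Nat.le_ceil _, ?_⟩
    have := Nat.ceil_lt_add_one (show 0 ≤ D * s by linarith)
    linarith
  have hnum : C.Num K s D L β c0 f τ ρ H m :=
    { hN := hN
      hκ := rfl
      hB := rfl
      hbb := rfl
      K1 := hK
      s1 := hs1
      sK := by linarith
      sW := by linarith
      sD := by linarith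
      D2 := hD8
      DK := by rw [hD]; linarith
      Dρ := by rw [hD]; linarith
      LK := by rw [hL]; linarith
      LD := by rw [hL]; linarith
      hβ := hβ
      hc0 := hc0
      hH := hH
      hf := hf
      hτ := hτ
      hρ := hρ
      m1 := hm1
      m2 := hm2 }
  exact hnum.contra

end

end Pool.Agent.H993R2.TP
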