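import Pool.Agent.H993R2.TP.Thin
import Pool.Agent.H993R2.TP.Count

set_option autoImplicit false
set_option linter.unusedSectionVars false
set_option linter.unusedVariables false

/-!
Part 2 : the thinning inequality, averaged over the labels.
-/

namespace Pool.Agent.H993R2.TP

open scoped BigOperators Classical

noncomputable section

variable {V : Type} [Fintype V] {m : ℕ}

namespace Ctx

/-- good index for `S` with exactly `h` blockers -/
def gd (C : Ctx V) (As : ℝ) (h : ℕ) (u : Fin m → V) (i : Fin m) (S : Finset (Fin m)) : Prop :=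
  i ∉ S ∧ C.alive u i S ∧ C.kk u i S ≤ As ∧ (C.L u i S).card = h ∧
    (∀ b ∈ S, ¬ C.bp (u i) (u b)) ∧ ¬ C.coin u i

def Q (C : Ctx V) (As : ℝ) (h : ℕ) (u : Fin m → V) (S T : Finset (Fin m)) : Finset (Fin m) :=
  Finset.univ.filter (fun i => C.gd As h u i S ∧ C.L u i S ⊆ T)

variable {C : Ctx V} {As : ℝ} {h : ℕ}

lemma mem_Q {u : Fin m → V} {S T : Finset (Fin m)} {i : Fin m} :
    i ∈ C.Q As h u S T ↔ C.gd As h u i S ∧ C.L u i S ⊆ T := by
  unfold Q; simp

lemma not_coin_ne {u : Fin m → V} {i j : Fin m} (hi : ¬ C.coin u i) (hij : i ≠ j) :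
    ¬ C.bp (u i) (u j) := fun hb => hi (Or.inl ⟨j, hij.symm, hb⟩)

/-- common blockers give a two-spine configuration -/
lemma common {u : Fin m → V} {i j l : Fin m} {S : Finset (Fin m)} (hi : C.gd As h u i S)
    (hj : C.gd As h u j S) (hij : i ≠ j) (hli : l ∈ C.L u i S) (hlj : l ∈ C.L u j S) :
    ∃ j1 ∈ S, ∃ j2 ∈ S, C.twoSp u l i j1 j j2 := by
  rw [mem_L] at hli hlj
  obtain ⟨hlS, j1, hj1, hM1⟩ := hli
  obtain ⟨-, j2, hj2, hM2⟩ := hlj
  refine ⟨j1, hj1, j2, hj2, ?_, hM1, hM2⟩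
  have n1 : l ≠ i := fun h' => hi.1 (h' ▸ hlS)
  have n2 : l ≠ j1 := by
    rintro rfl; exact C.ne3 hM1 rfl
  have n3 : l ≠ j := fun h' => hj.1 (h' ▸ hlS)
  have n4 : l ≠ j2 := by
    rintro rfl; exact C.ne3 hM2 rfl
  have n5 : i ≠ j1 := fun h' => hi.1 (h' ▸ hj1)
  have n6 : i ≠ j2 := fun h' => hi.1 (h' ▸ hj2)
  have n7 : j1 ≠ j := fun h' => hj.1 (h' ▸ hj1)
  have n8 : j ≠ j2 := fun h' => hj.1 (h' ▸ hj2)
  have n9 : j1 ≠ j2 := by
    rintro rfl
    have := C.fn (C.symm hM1) (C.symm hM2)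
    exact not_coin_ne hi.2.2.2.2.2 hij (Or.inl this)
  simp [n1, n2, n3, n4, n5, n6, n7, n8, n9, hij]

lemma L_disj {u : Fin m → V} {i j r : Fin m} {S : Finset (Fin m)} (hi : C.gd As h u i S)
    (hj : C.gd As h u j S) (htr : C.tri (u i) (u j) (u r)) (hr : ∀ l ∈ C.L u i S, r ≠ l) :
    Disjoint (C.L u i S) (C.L u j S) := by
  rw [Finset.disjoint_left]
  intro l hli hlj
  have hij : i ≠ j := fun h' => C.tri_ne12 htr (congrArg u h')
  obtain ⟨j1, hj1, j2, hj2, h2⟩ := common hi hj hij hli hlj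
  apply hi.2.2.2.2.2
  refine Or.inr ⟨l, j1, j, j2, r, h2, hr l hli, ?_, ?_, ?_, ?_, htr⟩
  · rintro rfl; exact C.tri_ne13 htr rfl
  · rintro rfl; exact C.tri_ne23 htr rfl
  · exact fun hb => hi.2.2.2.2.1 j1 hj1 (Or.inr hb)
  · exact fun hb => hj.2.2.2.2.1 j2 hj2 (Or.inr hb)

/-! ### thinning averages -/

lemma ind_mul_ind_mem_filter (P : Prop) (s : Finset (Fin m)) (i : Fin m) : True := trivial

lemma AT_Q (ρ : ℝ) (u : Fin m → V) (S : Finset (Fin m)) :
    AT ρ S (fun T => ((C.Q As h u S T).card : ℝ)) = ρ ^ h * ∑ i, ind (C.gd As h u i S) := by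
  have h1 : ∀ T, ((C.Q As h u S T).card : ℝ)
      = ∑ i, ind (C.gd As h u i S) * ind (C.L u i S ⊆ T) := by
    intro T
    unfold Q
    rw [Finset.card_filter]
    push_cast
    refine Finset.sum_congr rfl fun i _ => ?_
    rw [ite_eq_ind, ind_and]
  simp only [h1]
  rw [AT_sum, Finset.mul_sum]
  refine Finset.sum_congr rfl fun i _ => ?_
  rw [AT_smul, AT_sub_ind ρ (L_subset u i S)]
  by_cases hg : C.gd As h u i S
  · rw [ind_pos hg, hg.2.2.2.1]; ring
  · rw [ind_neg hg]; ring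

lemma sum_Q_le {u : Fin m → V} {S T : Finset (Fin m)} (f : Fin m → ℝ)
    (g : Fin m → ℝ) (hf : ∀ i ∈ C.Q As h u S T, f i ≤ g i) (hg : ∀ i, 0 ≤ g i) :
    ∑ i ∈ C.Q As h u S T, f i ≤ ∑ i, g i :=
  (Finset.sum_le_sum hf).trans (Finset.sum_le_sum_of_subset_of_nonneg (Finset.subset_univ _)
    fun i _ _ => hg i)

lemma AT_c2 {ρ : ℝ} (hρ : 0 ≤ ρ) (hρ1 : ρ ≤ 1) (u : Fin m → V) (S : Finset (Fin m)) :
    AT ρ S (fun T => ∑ i ∈ C.Q As h u S T, ∑ j ∈ C.Q As h u S T,
      ind (∃ r ∈ S \ T, C.tri (u i) (u j) (u r)))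
    ≤ ρ ^ (2 * h) * ∑ i, ∑ j, ind (i ∉ S ∧ j ∉ S) * ∑ r ∈ S, ind (C.tri (u i) (u j) (u r)) := by
  set G : Fin m → Fin m → ℝ :=
    fun i j => ind (i ∉ S ∧ j ∉ S) * ∑ r ∈ S, ind (C.tri (u i) (u j) (u r)) with hG
  have hG0 : ∀ i j, 0 ≤ G i j := fun i j =>
    mul_nonneg (ind_nonneg _) (Finset.sum_nonneg fun _ _ => ind_nonneg _)
  calc AT ρ S (fun T => ∑ i ∈ C.Q As h u S T, ∑ j ∈ C.Q As h u S T,
      ind (∃ r ∈ S \ T, C.tri (u i) (u j) (u r)))
      ≤ AT ρ S (fun T => ∑ i, ∑ j, (G i j * ind ((C.L u i S ∪ C.L u j S).card = 2 * h))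
          * ind (C.L u i S ∪ C.L u j S ⊆ T)) := by
        apply AT_mono hρ hρ1
        intro T hT
        have hnn : ∀ i j, 0 ≤ (G i j * ind ((C.L u i S ∪ C.L u j S).card = 2 * h))
          * ind (C.L u i S ∪ C.L u j S ⊆ T) := fun i j =>
            mul_nonneg (mul_nonneg (hG0 i j) (ind_nonneg _)) (ind_nonneg _)
        refine sum_Q_le _ _ (fun i hi => ?_) (fun i => Finset.sum_nonneg fun j _ => hnn i j)
        refine sum_Q_le _ _ (fun j hj => ?_) (fun j => hnn i j)
        rw [mem_Q] at hi hj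
        by_cases hex : ∃ r ∈ S \ T, C.tri (u i) (u j) (u r)
        swap
        · rw [ind_neg hex]; exact hnn i j
        obtain ⟨r, hr, htr⟩ := hex
        rw [Finset.mem_sdiff] at hr
        have hd : Disjoint (C.L u i S) (C.L u j S) :=
          L_disj hi.1 hj.1 htr (fun l hl h' => hr.2 (h' ▸ hi.2 hl))
        have hcard : (C.L u i S ∪ C.L u j S).card = 2 * h := by
          rw [Finset.card_union_of_disjoint hd, hi.1.2.2.2.1, hj.1.2.2.2.1]; ring
        rw [ind_pos hcard, ind_pos (Finset.union_subset hi.2 hj.2), mul_one, mul_one]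
        simp only [hG]
        have hij' : i ∉ S ∧ j ∉ S := ⟨hi.1.1, hj.1.1⟩
        rw [ind_pos hij', one_mul]
        refine le_trans ?_ (ind_exists_le S (fun r => C.tri (u i) (u j) (u r)))
        exact ind_mono fun ⟨r, hr, h⟩ => ⟨r, (Finset.mem_sdiff.mp hr).1, h⟩
    _ = ∑ i, ∑ j, (G i j * ind ((C.L u i S ∪ C.L u j S).card = 2 * h))
          * ρ ^ (C.L u i S ∪ C.L u j S).card := by
        rw [AT_sum]
        refine Finset.sum_congr rfl fun i _ => ?_
        rw [AT_sum]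
        refine Finset.sum_congr rfl fun j _ => ?_
        rw [AT_smul, AT_sub_ind ρ (Finset.union_subset (L_subset u i S) (L_subset u j S))]
    _ ≤ ∑ i, ∑ j, ρ ^ (2 * h) * G i j := by
        refine Finset.sum_le_sum fun i _ => Finset.sum_le_sum fun j _ => ?_
        by_cases hc : (C.L u i S ∪ C.L u j S).card = 2 * h
        · rw [ind_pos hc, hc]; apply le_of_eq; ring
        · rw [ind_neg hc, mul_zero, zero_mul]
          exact mul_nonneg (pow_nonneg hρ _) (hG0 i j)
    _ = _ := by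
        rw [Finset.mul_sum]
        refine Finset.sum_congr rfl fun i _ => ?_
        rw [Finset.mul_sum]

lemma AT_c3 {ρ : ℝ} (hρ : 0 ≤ ρ) (hρ1 : ρ ≤ 1) (u : Fin m → V) (S : Finset (Fin m)) :
    AT ρ S (fun T => ∑ i ∈ C.Q As h u S T, ∑ j ∈ C.Q As h u S T, ∑ k ∈ C.Q As h u S T,
      ind (j ≠ k ∧ C.tri (u i) (u j) (u k)))
    ≤ ρ ^ (3 * h) * ∑ i, ∑ j, ∑ k, ind (C.tri (u i) (u j) (u k)) := by
  set G : Fin m → Fin m → Fin m → ℝ := fun i j k => ind (C.tri (u i) (u j) (u k)) with hG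
  have hG0 : ∀ i j k, 0 ≤ G i j k := fun i j k => ind_nonneg _
  calc AT ρ S (fun T => ∑ i ∈ C.Q As h u S T, ∑ j ∈ C.Q As h u S T, ∑ k ∈ C.Q As h u S T,
      ind (j ≠ k ∧ C.tri (u i) (u j) (u k)))
      ≤ AT ρ S (fun T => ∑ i, ∑ j, ∑ k,
          (G i j k * ind ((C.L u i S ∪ (C.L u j S ∪ C.L u k S)).card = 3 * h))
          * ind (C.L u i S ∪ (C.L u j S ∪ C.L u k S) ⊆ T)) := by
        apply AT_mono hρ hρ1
        intro T hT
        have hnn : ∀ i j k, 0 ≤
            (G i j k * ind ((C.L u i S ∪ (C.L u j S ∪ C.L u k S)).card = 3 * h))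
          * ind (C.L u i S ∪ (C.L u j S ∪ C.L u k S) ⊆ T) := fun i j k =>
            mul_nonneg (mul_nonneg (hG0 i j k) (ind_nonneg _)) (ind_nonneg _)
        refine sum_Q_le _ _ (fun i hi => ?_) (fun i => Finset.sum_nonneg fun j _ =>
          Finset.sum_nonneg fun k _ => hnn i j k)
        refine sum_Q_le _ _ (fun j hj => ?_) (fun j => Finset.sum_nonneg fun k _ => hnn i j k)
        refine sum_Q_le _ _ (fun k hk => ?_) (fun k => hnn i j k)
        rw [mem_Q] at hi hj hk
        by_cases htr : C.tri (u i) (u j) (u k)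
        swap
        · rw [ind_neg (fun h' => htr h'.2)]; exact hnn i j k
        have hd1 : Disjoint (C.L u i S) (C.L u j S) :=
          L_disj hi.1 hj.1 htr (fun l hl h' => hk.1.1 (h' ▸ L_subset u i S hl))
        have hd2 : Disjoint (C.L u i S) (C.L u k S) :=
          L_disj hi.1 hk.1 (C.tri_swap23 htr) (fun l hl h' => hj.1.1 (h' ▸ L_subset u i S hl))
        have hd3 : Disjoint (C.L u j S) (C.L u k S) :=
          L_disj hj.1 hk.1 (C.tri_swap23 (C.tri_swap12 htr))
            (fun l hl h' => hi.1.1 (h' ▸ L_subset u j S hl))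
        have hcard : (C.L u i S ∪ (C.L u j S ∪ C.L u k S)).card = 3 * h := by
          rw [Finset.card_union_of_disjoint (Finset.disjoint_union_right.mpr ⟨hd1, hd2⟩),
            Finset.card_union_of_disjoint hd3, hi.1.2.2.2.1, hj.1.2.2.2.1, hk.1.2.2.2.1]
          ring
        rw [ind_pos hcard, ind_pos (Finset.union_subset hi.2 (Finset.union_subset hj.2 hk.2)),
          mul_one, mul_one]
        exact ind_mono fun h' => h'.2
    _ = ∑ i, ∑ j, ∑ k, (G i j k * ind ((C.L u i S ∪ (C.L u j S ∪ C.L u k S)).card = 3 * h))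
          * ρ ^ (C.L u i S ∪ (C.L u j S ∪ C.L u k S)).card := by
        rw [AT_sum]
        refine Finset.sum_congr rfl fun i _ => ?_
        rw [AT_sum]
        refine Finset.sum_congr rfl fun j _ => ?_
        rw [AT_sum]
        refine Finset.sum_congr rfl fun k _ => ?_
        rw [AT_smul, AT_sub_ind ρ (Finset.union_subset (L_subset u i S)
          (Finset.union_subset (L_subset u j S) (L_subset u k S)))]
    _ ≤ ∑ i, ∑ j, ∑ k, ρ ^ (3 * h) * G i j k := by
        refine Finset.sum_le_sum fun i _ => Finset.sum_le_sum fun j _ =>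
          Finset.sum_le_sum fun k _ => ?_
        by_cases hc : (C.L u i S ∪ (C.L u j S ∪ C.L u k S)).card = 3 * h
        · rw [ind_pos hc, hc]; apply le_of_eq; ring
        · rw [ind_neg hc, mul_zero, zero_mul]
          exact mul_nonneg (pow_nonneg hρ _) (hG0 i j k)
    _ = _ := by
        rw [Finset.mul_sum]
        refine Finset.sum_congr rfl fun i _ => ?_
        rw [Finset.mul_sum]
        refine Finset.sum_congr rfl fun j _ => ?_
        rw [Finset.mul_sum]

lemma AT_W2 {ρ : ℝ} (hρ : 0 ≤ ρ) (hρ1 : ρ ≤ 1) (u : Fin m → V) (S : Finset (Fin m)) :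
    AT ρ S (fun T => C.W2 u (C.Q As h u S T))
    ≤ ρ ^ (2 * h) * ∑ i, ∑ j, C.k (u i) (u j) + ∑ x, C.soft u x := by
  have hX : ∑ i, ∑ j, ∑ l, ∑ j1, ∑ j2, ind (C.twoSp u l i j1 j j2) * C.k (u i) (u j)
      = ∑ x, C.soft u x := by
    unfold soft
    have e1 : ∀ i : Fin m, ∑ j, ∑ l, ∑ j1, ∑ j2, ind (C.twoSp u l i j1 j j2) * C.k (u i) (u j)
        = ∑ l, ∑ j1, ∑ j, ∑ j2, ind (C.twoSp u l i j1 j j2) * C.k (u i) (u j) := by
      intro i
      rw [Finset.sum_comm]
      refine Finset.sum_congr rfl fun l _ => ?_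
      rw [Finset.sum_comm]
    simp only [e1]
    rw [Finset.sum_comm]
  calc AT ρ S (fun T => C.W2 u (C.Q As h u S T))
      ≤ AT ρ S (fun T => ∑ i, ∑ j, ((C.k (u i) (u j) * ind ((C.L u i S ∪ C.L u j S).card = 2 * h))
          * ind (C.L u i S ∪ C.L u j S ⊆ T)
          + ∑ l, ∑ j1, ∑ j2, ind (C.twoSp u l i j1 j j2) * C.k (u i) (u j))) := by
        apply AT_mono hρ hρ1
        intro T hT
        have hn2 : ∀ i j, 0 ≤ ∑ l, ∑ j1, ∑ j2, ind (C.twoSp u l i j1 j j2) * C.k (u i) (u j) :=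
          fun i j => Finset.sum_nonneg fun _ _ => Finset.sum_nonneg fun _ _ =>
            Finset.sum_nonneg fun _ _ => mul_nonneg (ind_nonneg _) (C.k_nonneg _ _)
        have hn1 : ∀ i j, 0 ≤ (C.k (u i) (u j) * ind ((C.L u i S ∪ C.L u j S).card = 2 * h))
          * ind (C.L u i S ∪ C.L u j S ⊆ T) := fun i j =>
            mul_nonneg (mul_nonneg (C.k_nonneg _ _) (ind_nonneg _)) (ind_nonneg _)
        unfold W2
        refine sum_Q_le _ _ (fun i hi => ?_) (fun i => Finset.sum_nonneg fun j _ =>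
          add_nonneg (hn1 i j) (hn2 i j))
        refine sum_Q_le _ _ (fun j hj => ?_) (fun j => add_nonneg (hn1 i j) (hn2 i j))
        rw [mem_Q] at hi hj
        by_cases hij : i = j
        · subst hij
          rw [C.k_self]
          have := add_nonneg (hn1 i i) (hn2 i i)
          rw [C.k_self] at this
          exact this
        by_cases hd : Disjoint (C.L u i S) (C.L u j S)
        · have hcard : (C.L u i S ∪ C.L u j S).card = 2 * h := by
            rw [Finset.card_union_of_disjoint hd, hi.1.2.2.2.1, hj.1.2.2.2.1]; ring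
          rw [ind_pos hcard, ind_pos (Finset.union_subset hi.2 hj.2), mul_one, mul_one]
          have := hn2 i j
          linarith
        · rw [Finset.not_disjoint_iff] at hd
          obtain ⟨l, hl1, hl2⟩ := hd
          obtain ⟨j1, hj1, j2, hj2, h2⟩ := common hi.1 hj.1 hij hl1 hl2
          have h3 : C.k (u i) (u j)
              ≤ ∑ l, ∑ j1, ∑ j2, ind (C.twoSp u l i j1 j j2) * C.k (u i) (u j) := by
            calc C.k (u i) (u j) = ind (C.twoSp u l i j1 j j2) * C.k (u i) (u j) := by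
                  rw [ind_pos h2, one_mul]
              _ ≤ ∑ j2, ind (C.twoSp u l i j1 j j2) * C.k (u i) (u j) :=
                  Finset.single_le_sum
                    (f := fun j2 => ind (C.twoSp u l i j1 j j2) * C.k (u i) (u j))
                    (fun _ _ => mul_nonneg (ind_nonneg _) (C.k_nonneg _ _)) (Finset.mem_univ j2)
              _ ≤ ∑ j1, ∑ j2, ind (C.twoSp u l i j1 j j2) * C.k (u i) (u j) :=
                  Finset.single_le_sum
                    (f := fun j1 => ∑ j2, ind (C.twoSp u l i j1 j j2) * C.k (u i) (u j))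
                    (fun _ _ => Finset.sum_nonneg fun _ _ =>
                      mul_nonneg (ind_nonneg _) (C.k_nonneg _ _)) (Finset.mem_univ j1)
              _ ≤ _ := Finset.single_le_sum
                    (f := fun l => ∑ j1, ∑ j2, ind (C.twoSp u l i j1 j j2) * C.k (u i) (u j))
                    (fun _ _ => Finset.sum_nonneg fun _ _ => Finset.sum_nonneg fun _ _ =>
                      mul_nonneg (ind_nonneg _) (C.k_nonneg _ _)) (Finset.mem_univ l)
          have := hn1 i j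
          linarith
    _ = ∑ i, ∑ j, (C.k (u i) (u j) * ind ((C.L u i S ∪ C.L u j S).card = 2 * h))
          * ρ ^ (C.L u i S ∪ C.L u j S).card
        + ∑ i, ∑ j, ∑ l, ∑ j1, ∑ j2, ind (C.twoSp u l i j1 j j2) * C.k (u i) (u j) := by
        rw [AT_sum, ← Finset.sum_add_distrib]
        refine Finset.sum_congr rfl fun i _ => ?_
        rw [AT_sum, ← Finset.sum_add_distrib]
        refine Finset.sum_congr rfl fun j _ => ?_
        rw [AT_add, AT_smul,
          AT_sub_ind ρ (Finset.union_subset (L_subset u i S) (L_subset u j S))]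
        congr 1
        have e7 := AT_smul ρ S
          (∑ l, ∑ j1, ∑ j2, ind (C.twoSp u l i j1 j j2) * C.k (u i) (u j)) (fun _ => 1)
        rw [AT_one] at e7
        simp only [mul_one] at e7
        exact e7
    _ ≤ ∑ i, ∑ j, ρ ^ (2 * h) * C.k (u i) (u j) + ∑ x, C.soft u x := by
        rw [hX]
        refine add_le_add (Finset.sum_le_sum fun i _ => Finset.sum_le_sum fun j _ => ?_) le_rfl
        by_cases hc : (C.L u i S ∪ C.L u j S).card = 2 * h
        · rw [ind_pos hc, hc]; apply le_of_eq; ring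
        · rw [ind_neg hc, mul_zero, zero_mul]
          exact mul_nonneg (pow_nonneg hρ _) (C.k_nonneg _ _)
    _ = _ := by simp only [Finset.mul_sum]

/-! ### the inequality for a fixed labelling -/

lemma part2_u {ρ ζ ζ0 : ℝ} (hρ : 0 < ρ) (hρ1 : ρ ≤ 1) (hζ : 0 < ζ) (hζ1 : ζ ≤ 1)
    (hζ0 : 0 < ζ0) (hζρ : ζ0 ≤ ρ)
    (hLg : 0 ≤ Real.log (ρ * Real.exp (-C.bb * As) / ζ)) (u : Fin m → V) :
    Real.log (ρ * Real.exp (-C.bb * As) / ζ) * ((ζ / 2) *
        (ρ ^ h * C.EA Finset.univ (fun u S => ∑ i, ind (C.gd As h u i S)) u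
        - ζ * (ρ ^ (2 * h) * C.EA Finset.univ (fun u S => ∑ i, ∑ j, ind (i ∉ S ∧ j ∉ S) *
            ∑ r ∈ S, ind (C.tri (u i) (u j) (u r))) u)
        - ζ ^ 2 * (ρ ^ (3 * h) * ∑ i, ∑ j, ∑ k, ind (C.tri (u i) (u j) (u k)))))
        - C.bb / 2 * (ζ ^ 2 * (ρ ^ (2 * h) * ∑ i, ∑ j, C.k (u i) (u j) + ∑ x, C.soft u x))
      ≤ ζ0 * m + Real.log (ρ / ζ0) * (ρ * C.κ) := by
  set Lg := Real.log (ρ * Real.exp (-C.bb * As) / ζ) with hLgd
  have hbb := C.hbb
  -- the functional
  set g : Finset (Fin m) → Finset (Fin m) → ℝ := fun S T =>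
    Lg * ((ζ / 2) * (((C.Q As h u S T).card : ℝ)
        - ζ * ∑ i ∈ C.Q As h u S T, ∑ j ∈ C.Q As h u S T,
            ind (∃ r ∈ S \ T, C.tri (u i) (u j) (u r))
        - ζ ^ 2 * ∑ i ∈ C.Q As h u S T, ∑ j ∈ C.Q As h u S T, ∑ k ∈ C.Q As h u S T,
            ind (j ≠ k ∧ C.tri (u i) (u j) (u k))))
        - C.bb / 2 * (ζ ^ 2 * C.W2 u (C.Q As h u S T)) with hg
  have hcomb := comb (C := C) hρ hρ1 hζ0 hζρ u g (by
    intro S hv T hT
    simp only [hg]
    have hv1 : C.valid u (S \ T) := valid_mono Finset.sdiff_subset hv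
    refine J2 (C := C) hρ hζ hζ1 hLg hv1 ?_ ?_ ?_ ?_
    · rw [Finset.disjoint_left]
      intro i hi hiQ
      exact (mem_Q.mp hiQ).1.1 (Finset.mem_sdiff.mp hi).1
    · intro i hi
      rw [mem_Q] at hi
      obtain ⟨⟨hiS, hal, hkk, hL, hbp, hco⟩, hLT⟩ := hi
      constructor
      · intro x hx y hy hxy
        rw [Finset.mem_insert] at hx hy
        rcases hx with rfl | hx <;> rcases hy with rfl | hy
        · exact absurd rfl hxy
        · exact hbp y (Finset.mem_sdiff.mp hy).1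
        · exact fun hb => hbp x (Finset.mem_sdiff.mp hx).1 (C.bp_symm hb)
        · exact hv1.1 x hx y hy hxy
      · have key : ∀ l ∈ S \ T, ∀ j ∈ S \ T, ¬ C.M (u l) (u i) (u j) := by
          intro l hl j hj hM
          rw [Finset.mem_sdiff] at hl hj
          exact hl.2 (hLT (mem_L.mpr ⟨hl.1, j, hj.1, hM⟩))
        intro x hx y hy z hz hMM
        rw [Finset.mem_insert] at hx hy hz
        rcases hx with rfl | hx <;> rcases hy with rfl | hy <;> rcases hz with rfl | hz
        · exact C.ne1 hMM rfl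
        · exact C.ne1 hMM rfl
        · exact C.ne3 hMM rfl
        · exact hal y (Finset.mem_sdiff.mp hy).1 z (Finset.mem_sdiff.mp hz).1 hMM
        · exact C.ne2 hMM rfl
        · exact key x hx z hz hMM
        · exact key x hx y hy (C.symm hMM)
        · exact hv1.2 x hx y hy z hz hMM
    · intro i hi j hj hij
      exact not_coin_ne (mem_Q.mp hi).1.2.2.2.2.2 hij
    · intro i hi
      exact (kk_mono Finset.sdiff_subset).trans (mem_Q.mp hi).1.2.2.1)
  refine le_trans ?_ hcomb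
  -- lower bound of the average
  have hAT : ∀ S, Lg * ((ζ / 2) * (ρ ^ h * (∑ i, ind (C.gd As h u i S))
        - ζ * (ρ ^ (2 * h) * ∑ i, ∑ j, ind (i ∉ S ∧ j ∉ S) *
            ∑ r ∈ S, ind (C.tri (u i) (u j) (u r)))
        - ζ ^ 2 * (ρ ^ (3 * h) * ∑ i, ∑ j, ∑ k, ind (C.tri (u i) (u j) (u k)))))
        - C.bb / 2 * (ζ ^ 2 * (ρ ^ (2 * h) * ∑ i, ∑ j, C.k (u i) (u j) + ∑ x, C.soft u x))
      ≤ AT ρ S (g S) := by
    intro S
    have e1 : AT ρ S (g S) = Lg * ((ζ / 2) * (AT ρ S (fun T => ((C.Q As h u S T).card : ℝ))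
        - ζ * AT ρ S (fun T => ∑ i ∈ C.Q As h u S T, ∑ j ∈ C.Q As h u S T,
            ind (∃ r ∈ S \ T, C.tri (u i) (u j) (u r)))
        - ζ ^ 2 * AT ρ S (fun T => ∑ i ∈ C.Q As h u S T, ∑ j ∈ C.Q As h u S T,
            ∑ k ∈ C.Q As h u S T, ind (j ≠ k ∧ C.tri (u i) (u j) (u k)))))
        - C.bb / 2 * (ζ ^ 2 * AT ρ S (fun T => C.W2 u (C.Q As h u S T))) := by
      simp only [hg]
      rw [AT_sub, AT_smul, AT_smul, AT_sub, AT_sub, AT_smul, AT_smul, AT_smul, AT_smul]
    rw [e1, AT_Q]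
    have a2 := AT_c2 (C := C) (As := As) (h := h) hρ.le hρ1 u S
    have a3 := AT_c3 (C := C) (As := As) (h := h) hρ.le hρ1 u S
    have a4 := AT_W2 (C := C) (As := As) (h := h) hρ.le hρ1 u S
    gcongr
  have h3 : C.EA Finset.univ (fun u S => Lg * ((ζ / 2) * (ρ ^ h * (∑ i, ind (C.gd As h u i S))
        - ζ * (ρ ^ (2 * h) * ∑ i, ∑ j, ind (i ∉ S ∧ j ∉ S) *
            ∑ r ∈ S, ind (C.tri (u i) (u j) (u r)))
        - ζ ^ 2 * (ρ ^ (3 * h) * ∑ i, ∑ j, ∑ k, ind (C.tri (u i) (u j) (u k)))))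
        - C.bb / 2 * (ζ ^ 2 * (ρ ^ (2 * h) * ∑ i, ∑ j, C.k (u i) (u j) + ∑ x, C.soft u x))) u
      ≤ C.EA Finset.univ (fun _ S => AT ρ S (g S)) u := by
    unfold EA
    apply div_le_div_of_nonneg_right _ (Z_nonneg _ _)
    refine Finset.sum_le_sum fun S _ => ?_
    exact mul_le_mul_of_nonneg_left (hAT S) (wv_nonneg _ _)
  refine le_trans (le_of_eq ?_) h3
  -- linearity
  have hZ := Z_pos (C := C) u Finset.univ
  have hlin : ∀ (X Y : Finset (Fin m) → ℝ) (a b c : ℝ),
      (∑ S ∈ (Finset.univ : Finset (Fin m)).powerset, C.wv u S * (a * X S - b * Y S - c))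
        / C.Z u Finset.univ
      = a * ((∑ S ∈ (Finset.univ : Finset (Fin m)).powerset, C.wv u S * X S) / C.Z u Finset.univ)
        - b * ((∑ S ∈ (Finset.univ : Finset (Fin m)).powerset, C.wv u S * Y S)
          / C.Z u Finset.univ) - c := by
    intro X Y a b c
    have e1 : ∑ S ∈ (Finset.univ : Finset (Fin m)).powerset, C.wv u S * (a * X S - b * Y S - c)
        = a * (∑ S ∈ (Finset.univ : Finset (Fin m)).powerset, C.wv u S * X S)
          - b * (∑ S ∈ (Finset.univ : Finset (Fin m)).powerset, C.wv u S * Y S)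
          - c * C.Z u Finset.univ := by
      unfold Z
      rw [Finset.mul_sum, Finset.mul_sum, Finset.mul_sum, ← Finset.sum_sub_distrib,
        ← Finset.sum_sub_distrib]
      refine Finset.sum_congr rfl fun S _ => ?_
      ring
    rw [e1]
    field_simp
  have h4 := hlin (fun S => ∑ i, ind (C.gd As h u i S))
    (fun S => ∑ i, ∑ j, ind (i ∉ S ∧ j ∉ S) * ∑ r ∈ S, ind (C.tri (u i) (u j) (u r)))
    (Lg * ((ζ / 2) * ρ ^ h)) (Lg * ((ζ / 2) * (ζ * ρ ^ (2 * h))))
    (Lg * ((ζ / 2) * (ζ ^ 2 * (ρ ^ (3 * h) * ∑ i, ∑ j, ∑ k, ind (C.tri (u i) (u j) (u k)))))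
      + C.bb / 2 * (ζ ^ 2 * (ρ ^ (2 * h) * ∑ i, ∑ j, C.k (u i) (u j) + ∑ x, C.soft u x)))
  unfold EA
  rw [eq_comm] at h4
  refine Eq.trans ?_ (h4.trans ?_)
  · ring
  · congr 1
    refine Finset.sum_congr rfl fun S _ => ?_
    ring

/-! ### averaging over the labels -/

lemma E_c2 : E (C.EA Finset.univ (fun (u : Fin m → V) S => ∑ i, ∑ j, ind (i ∉ S ∧ j ∉ S) *
            ∑ r ∈ S, ind (C.tri (u i) (u j) (u r)))) ≤ m ^ 2 * (3 * C.κ / nn V) := by
  have hN := nn_pos C
  have hκ := κ_nonneg (C := C)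
  have h1 : ∀ i j : Fin m, E (C.EA Finset.univ (fun (u : Fin m → V) S => ind (i ∉ S ∧ j ∉ S) *
            ∑ r ∈ S, ind (C.tri (u i) (u j) (u r)))) ≤ 3 * C.κ / nn V := by
    intro i j
    by_cases hij : i = j
    · subst hij
      have h2 : ∀ u : Fin m → V, C.EA Finset.univ (fun (u : Fin m → V) S =>
          ind (i ∉ S ∧ i ∉ S) * ∑ r ∈ S, ind (C.tri (u i) (u i) (u r))) u ≤ 0 := by
        intro u
        rw [← EA_const (C := C) Finset.univ 0 u]
        apply EA_mono
        intro S _ _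
        apply le_of_eq
        rw [Finset.sum_eq_zero fun r _ => ind_neg fun h' => C.tri_ne12 h' rfl, mul_zero]
      have h3 := E_mono h2
      rw [E_const C] at h3
      have : 0 ≤ 3 * C.κ / nn V := by positivity
      linarith
    set A' := ((Finset.univ.erase i).erase j : Finset (Fin m)) with hA'
    have hiA : i ∉ A' := by rw [hA']; simp
    have hjA : j ∉ A' := by rw [hA']; simp
    have hmemA : ∀ a, a ≠ i → a ≠ j → a ∈ A' := by
      intro a h1 h2
      rw [hA', Finset.mem_erase, Finset.mem_erase]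
      exact ⟨h2, h1, Finset.mem_univ _⟩
    have s0 : E (C.EA Finset.univ (fun (u : Fin m → V) S => ind (i ∉ S ∧ j ∉ S) *
            ∑ r ∈ S, ind (C.tri (u i) (u j) (u r))))
        ≤ E (C.EA A' (fun (u : Fin m → V) S => ind (i ∉ S ∧ j ∉ S) *
            ∑ r ∈ S, ind (C.tri (u i) (u j) (u r)))) := by
      apply E_mono
      intro u
      apply EA_restrict (Finset.subset_univ _)
      · intro S
        exact mul_nonneg (ind_nonneg _) (Finset.sum_nonneg fun _ _ => ind_nonneg _)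
      · intro S hS
        rw [ind_neg, zero_mul]
        rintro ⟨h1, h2⟩
        apply hS
        intro a ha
        exact hmemA a (fun h' => h1 (h' ▸ ha)) (fun h' => h2 (h' ▸ ha))
    have s1 := EA_int (C := C) hiA (fun (u : Fin m → V) S => ind (i ∉ S ∧ j ∉ S) *
            ∑ r ∈ S, ind (C.tri (u i) (u j) (u r)))
      (fun u S => ∑ r ∈ S, (2 + C.k (u j) (u r))) 1 (by
        intro u S hS hv
        have hiS : i ∉ S := fun h' => hiA (hS h')
        have hjS : j ∉ S := fun h' => hjA (hS h')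
        rw [one_mul]
        simp only [ind_pos (show i ∉ S ∧ j ∉ S from ⟨hiS, hjS⟩), one_mul]
        rw [Finset.sum_comm]
        refine Finset.sum_le_sum fun r hr => ?_
        have hri : r ≠ i := fun h' => hiS (h' ▸ hr)
        calc ∑ v, ind (C.tri (Function.update u i v i) (Function.update u i v j)
              (Function.update u i v r)) = ∑ v, ind (C.tri (u j) (u r) v) := by
              refine Finset.sum_congr rfl fun v _ => ?_
              rw [Function.update_self, Function.update_of_ne (fun h' => hij h'.symm),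
                Function.update_of_ne hri]
              congr 1
              exact propext ⟨fun h' => C.tri_swap23 (C.tri_swap12 h'),
                fun h' => C.tri_swap12 (C.tri_swap23 h')⟩
          _ ≤ _ := C.sum_tri3 _ _)
    have s2 := EA_int (C := C) hjA (fun (u : Fin m → V) S => ∑ r ∈ S, (2 + C.k (u j) (u r)))
      (fun u S => 1) (3 * nn V * C.κ) (by
        intro u S hS hv
        have hjS : j ∉ S := fun h' => hjA (hS h')
        rw [mul_one, Finset.sum_comm]
        calc ∑ r ∈ S, ∑ v, (2 + C.k (Function.update u j v j) (Function.update u j v r))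
            ≤ ∑ _r ∈ S, 3 * nn V := by
              refine Finset.sum_le_sum fun r hr => ?_
              simp only [Function.update_self, upd_ne hjS hr]
              rw [Finset.sum_add_distrib]
              have h3 : ∑ _v : V, (2 : ℝ) = 2 * nn V := by
                unfold nn; simp; ring
              have h4 := C.sum_k' (u r)
              rw [h3]
              unfold nn at *
              linarith
          _ = S.card * (3 * nn V) := by rw [Finset.sum_const, nsmul_eq_mul]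
          _ ≤ C.κ * (3 * nn V) := mul_le_mul_of_nonneg_right (valid_card hv) (by positivity)
          _ = _ := by ring)
    have s3 : E (C.EA A' (fun (u : Fin m → V) S => (1 : ℝ))) = 1 := by
      have : C.EA A' (fun (u : Fin m → V) S => (1 : ℝ)) = fun _ => 1 := by
        funext u; exact EA_const _ _ _
      rw [this, E_const C]
    rw [s3, mul_one] at s2
    calc _ ≤ _ := s0
      _ ≤ _ := s1
      _ ≤ (1 / nn V) * (3 * nn V * C.κ / nn V) := mul_le_mul_of_nonneg_left s2 (by positivity)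
      _ = _ := by field_simp
  have h2 : E (C.EA Finset.univ (fun (u : Fin m → V) S => ∑ i, ∑ j, ind (i ∉ S ∧ j ∉ S) *
            ∑ r ∈ S, ind (C.tri (u i) (u j) (u r))))
      = ∑ i : Fin m, ∑ j : Fin m, E (C.EA Finset.univ (fun (u : Fin m → V) S =>
            ind (i ∉ S ∧ j ∉ S) * ∑ r ∈ S, ind (C.tri (u i) (u j) (u r)))) := by
    have e1 : C.EA Finset.univ (fun (u : Fin m → V) S => ∑ i, ∑ j, ind (i ∉ S ∧ j ∉ S) *
            ∑ r ∈ S, ind (C.tri (u i) (u j) (u r)))
        = fun u => ∑ i : Fin m, ∑ j : Fin m, C.EA Finset.univ (fun (u : Fin m → V) S =>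
            ind (i ∉ S ∧ j ∉ S) * ∑ r ∈ S, ind (C.tri (u i) (u j) (u r))) u := by
      funext u
      rw [EA_sum]
      refine Finset.sum_congr rfl fun i _ => ?_
      rw [EA_sum]
    rw [e1, E_sum]
    refine Finset.sum_congr rfl fun i _ => ?_
    rw [E_sum]
  rw [h2]
  calc _ ≤ ∑ _i : Fin m, ∑ _j : Fin m, 3 * C.κ / nn V :=
        Finset.sum_le_sum fun i _ => Finset.sum_le_sum fun j _ => h1 i j
    _ = _ := by
        simp only [Finset.sum_const, Finset.card_univ, Fintype.card_fin, nsmul_eq_mul]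
        ring

/-- the quantity `G_h` -/
def Gh (C : Ctx V) (m : ℕ) (As : ℝ) (h : ℕ) : ℝ :=
  ∑ i : Fin m, E (C.EA Finset.univ (fun (u : Fin m → V) S => ind (C.gd As h u i S)))

lemma Gh_nonneg (m : ℕ) (As : ℝ) (h : ℕ) : 0 ≤ C.Gh m As h :=
  Finset.sum_nonneg fun i _ => E_nonneg fun u => EA_nonneg fun S => ind_nonneg _

/-- Part 2 -/
theorem part2 {ρ ζ ζ0 : ℝ} (m : ℕ) (hρ : 0 < ρ) (hρ1 : ρ ≤ 1) (hζ : 0 < ζ) (hζ1 : ζ ≤ 1)
    (hζ0 : 0 < ζ0) (hζρ : ζ0 ≤ ρ)
    (hLg : 0 ≤ Real.log (ρ * Real.exp (-C.bb * As) / ζ)) :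
    Real.log (ρ * Real.exp (-C.bb * As) / ζ) * ((ζ / 2) *
        (ρ ^ h * C.Gh m As h
        - ζ * (ρ ^ (2 * h) * (m ^ 2 * (3 * C.κ / nn V)))
        - ζ ^ 2 * (ρ ^ (3 * h) * (m ^ 3 * (3 / nn V)))))
        - C.bb / 2 * (ζ ^ 2 * (ρ ^ (2 * h) * m ^ 2 + m ^ 5 / nn V ^ 2))
      ≤ ζ0 * m + Real.log (ρ / ζ0) * (ρ * C.κ) := by
  have hN := nn_pos C
  have hbb := C.hbb
  have h1 := E_mono (fun u : Fin m → V =>
    part2_u (C := C) (As := As) (h := h) hρ hρ1 hζ hζ1 hζ0 hζρ hLg u)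
  rw [E_const C] at h1
  refine le_trans ?_ h1
  set Lg := Real.log (ρ * Real.exp (-C.bb * As) / ζ) with hLgd
  rw [E_sub, E_smul, E_smul, E_sub, E_sub, E_smul, E_smul, E_smul, E_smul, E_smul, E_smul,
    E_smul, E_add, E_smul]
  have b1 : E (C.EA Finset.univ (fun (u : Fin m → V) S => ∑ i, ind (C.gd As h u i S)))
      = C.Gh m As h := by
    unfold Gh
    have e1 : C.EA Finset.univ (fun (u : Fin m → V) S => ∑ i, ind (C.gd As h u i S))
        = fun u => ∑ i : Fin m, C.EA Finset.univ (fun (u : Fin m → V) S =>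
            ind (C.gd As h u i S)) u := by
      funext u
      rw [EA_sum]
    rw [e1, E_sum]
  have b2 := E_c2 (C := C) (m := m)
  have b3 : E (fun u : Fin m → V => ∑ i, ∑ j, ∑ k, ind (C.tri (u i) (u j) (u k)))
      ≤ m ^ 3 * (3 / nn V) := by
    calc _ = ∑ i : Fin m, ∑ j : Fin m, ∑ k : Fin m,
          E (fun u : Fin m → V => ind (C.tri (u i) (u j) (u k))) := by
          rw [E_sum]
          refine Finset.sum_congr rfl fun i _ => ?_
          rw [E_sum]
          refine Finset.sum_congr rfl fun j _ => ?_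
          rw [E_sum]
      _ ≤ ∑ _i : Fin m, ∑ _j : Fin m, ∑ _k : Fin m, 3 / nn V :=
          Finset.sum_le_sum fun i _ => Finset.sum_le_sum fun j _ =>
            Finset.sum_le_sum fun k _ => E_tri
      _ = _ := by
          simp only [Finset.sum_const, Finset.card_univ, Fintype.card_fin, nsmul_eq_mul]
          ring
  have b4 : E (fun u : Fin m → V => ∑ i, ∑ j, C.k (u i) (u j)) ≤ m ^ 2 := by
    calc _ = ∑ i : Fin m, ∑ j : Fin m, E (fun u : Fin m → V => C.k (u i) (u j)) := by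
          rw [E_sum]
          refine Finset.sum_congr rfl fun i _ => ?_
          rw [E_sum]
      _ ≤ ∑ _i : Fin m, ∑ _j : Fin m, (1 : ℝ) :=
          Finset.sum_le_sum fun i _ => Finset.sum_le_sum fun j _ => E_k
      _ = _ := by
          simp only [Finset.sum_const, Finset.card_univ, Fintype.card_fin, nsmul_eq_mul]
          ring
  have b5 := E_soft (C := C) (m := m)
  rw [b1]
  gcongr

/-- good indices are plentiful -/
lemma sum_Gh {hm : ℕ} : ∑ i : Fin m,
        E (C.EI i (fun u S => ind (C.alive u i S ∧ C.good0 As hm u i S)))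
      - ∑ i : Fin m, E (fun u : Fin m → V => ind (C.coin u i))
      ≤ ∑ h ∈ Finset.range (hm + 1), C.Gh m As h := by
  unfold Gh
  rw [Finset.sum_comm, ← Finset.sum_sub_distrib]
  refine Finset.sum_le_sum fun i _ => ?_
  rw [← E_sub, ← E_sum]
  apply E_mono
  intro u
  rw [← EI_eq, sub_le_iff_le_add]
  have e1 : ∑ h ∈ Finset.range (hm + 1),
        C.EA Finset.univ (fun (u : Fin m → V) S => ind (C.gd As h u i S)) u + ind (C.coin u i)
      = C.EA Finset.univ (fun (u' : Fin m → V) S =>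
        (∑ h ∈ Finset.range (hm + 1), ind (C.gd As h u' i S)) + ind (C.coin u i)) u := by
    rw [EA_add Finset.univ (fun (u' : Fin m → V) S =>
        (∑ h ∈ Finset.range (hm + 1), ind (C.gd As h u' i S))) (fun _ _ => ind (C.coin u i)),
      EA_const, EA_sum]
  rw [e1]
  apply EA_mono
  intro S _ _
  have n1 : 0 ≤ ∑ h ∈ Finset.range (hm + 1), ind (C.gd As h u i S) :=
    Finset.sum_nonneg fun _ _ => ind_nonneg _
  by_cases hc : C.coin u i
  · have h2 : ind (i ∉ S) * ind (C.alive u i S ∧ C.good0 As hm u i S) ≤ 1 := by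
      calc _ ≤ (1 : ℝ) * 1 := mul_le_mul (ind_le_one _) (ind_le_one _) (ind_nonneg _) (by norm_num)
        _ = 1 := by ring
    rw [ind_pos hc]
    linarith
  · rw [ind_neg hc, add_zero, ← ind_and]
    by_cases hg : i ∉ S ∧ C.alive u i S ∧ C.good0 As hm u i S
    · obtain ⟨hiS, hal, hkk, hL, hbp⟩ := hg
      have hL' : (C.L u i S).card ≤ hm := by exact_mod_cast hL
      have hgd : C.gd As (C.L u i S).card u i S := ⟨hiS, hal, hkk, rfl, hbp, hc⟩
      rw [ind_pos ⟨hiS, hal, hkk, hL, hbp⟩]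
      calc (1 : ℝ) = ind (C.gd As (C.L u i S).card u i S) := (ind_pos hgd).symm
        _ ≤ _ := Finset.single_le_sum (f := fun h => ind (C.gd As h u i S))
            (fun _ _ => ind_nonneg _) (Finset.mem_range.mpr (by omega))
    · rw [ind_neg hg]; exact n1

end Ctx

end

end Pool.Agent.H993R2.TP
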