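import Pool.Agent.H993R2.TP.Sys

set_option autoImplicit false

/-!
Part 0 : hypergraphs without a tight 3-edge path are page systems.
-/

namespace Pool.Agent.H993R2.TP

open scoped BigOperators Classical

namespace Rep

variable {n : ℕ} (T : Fin n → Fin n → Fin n → Prop)

/-- three of the four triples of `x,b,c,d` (given that `xbc` is one) -/
def cl (x b c d : Fin n) : Prop := (T x b d ∧ T x c d) ∨ (T x b d ∧ T b c d) ∨ (T x c d ∧ T b c d)

def od (x b c d : Fin n) : Prop :=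
  (b < x ∧ b < d ∧ c < x ∧ c < d) ∨ (x < b ∧ x < c ∧ d < b ∧ d < c)

def M1 (x b c : Fin n) : Prop := T x b c ∧ (∀ d, T x b d → d = c) ∧ (∀ d, T x c d → d = b)

def M2 (x b c : Fin n) : Prop :=
  T x b c ∧ ∃ d, d ≠ x ∧ d ≠ b ∧ d ≠ c ∧ cl T x b c d ∧ od x b c d

variable {T}

structure Good (T : Fin n → Fin n → Fin n → Prop) : Prop where
  s12 : ∀ {x y z}, T x y z → T y x z
  s23 : ∀ {x y z}, T x y z → T x z y
  n12 : ∀ {x y z}, T x y z → x ≠ y
  n13 : ∀ {x y z}, T x y z → x ≠ z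
  n23 : ∀ {x y z}, T x y z → y ≠ z
  free : ∀ {a b c d e}, a ≠ d → a ≠ e → b ≠ e → T a b c → T b c d → T c d e → False

/-- an edge meeting a clump in a pair lies inside it -/
lemma clump {x b c d c' : Fin n} (h : Good T) (h1 : T x b c) (h2 : cl T x b c d) (hd : d ≠ x)
    (hdb : d ≠ b) (hdc : d ≠ c) (h3 : T x b c') (h4 : c' ≠ c) : c' = d := by
  by_contra h5
  have n1 := h.n13 h3
  have n2 := h.n23 h3
  have n3 := h.n13 h1
  have n4 := h.n23 h1
  have key : T x c d ∨ T b c d := by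
    rcases h2 with h2 | h2 | h2
    · exact Or.inl h2.2
    · exact Or.inr h2.2
    · exact Or.inl h2.1
  rcases key with hk | hk
  · -- path c', b, x, c, d
    refine h.free (a := c') (b := b) (c := x) (d := c) (e := d) h4 h5 hdb.symm ?_ ?_ hk
    · exact h.s12 (h.s23 (h.s12 h3))
    · exact h.s12 h1
  · -- path c', x, b, c, d
    refine h.free (a := c') (b := x) (c := b) (d := c) (e := d) h4 h5 hd.symm ?_ h1 hk
    exact h.s12 (h.s23 h3)

lemma M2_fn {x b c c' : Fin n} (h : Good T) (h1 : M2 T x b c) (h2 : M2 T x b c') : c = c' := by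
  by_contra hne
  obtain ⟨e1, d, hd1, hd2, hd3, hc, ho⟩ := h1
  obtain ⟨e2, d', hd1', hd2', hd3', hc', ho'⟩ := h2
  have k1 : c' = d := clump h e1 hc hd1 hd2 hd3 e2 (fun h => hne h.symm)
  have k2 : c = d' := clump h e2 hc' hd1' hd2' hd3' e1 hne
  subst k1 k2
  unfold od at ho ho'
  omega

/-- the page system of a hypergraph without a tight 3-edge path -/
def sys (h : Good T) : Sys (Fin n) where
  M x b c := M1 T x b c ∨ M2 T x b c
  symm := by
    rintro x b c (h1 | h1)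
    · exact Or.inl ⟨h.s23 h1.1, h1.2.2, h1.2.1⟩
    · right
      obtain ⟨e1, d, hd1, hd2, hd3, hc, ho⟩ := h1
      refine ⟨h.s23 e1, d, hd1, hd3, hd2, ?_, ?_⟩
      · rcases hc with hc | hc | hc
        · exact Or.inl ⟨hc.2, hc.1⟩
        · exact Or.inr (Or.inr ⟨hc.1, h.s12 hc.2⟩)
        · exact Or.inr (Or.inl ⟨hc.1, h.s12 hc.2⟩)
      · unfold od at *; tauto
  fn := by
    rintro x b c c' (h1 | h1) (h2 | h2)
    · exact (h1.2.1 c' h2.1).symm
    · exact (h1.2.1 c' h2.1).symm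
    · exact h2.2.1 c h1.1
    · exact M2_fn h h1 h2
  ne1 := by
    rintro x b c (h1 | h1)
    · exact h.n12 h1.1
    · exact h.n12 h1.1
  ne2 := by
    rintro x b c (h1 | h1)
    · exact h.n23 h1.1
    · exact h.n23 h1.1

/-- the three-vertex configuration with two bad pairs at `x` -/
lemma cover_aux {x y z d e : Fin n} (h : Good T) (h1 : T x y z) (h2 : T x y d) (hd : d ≠ z)
    (h3 : T x z e) (he : e ≠ y) : d = e := by
  by_contra hne
  -- path d, y, x, z, e
  refine h.free (a := d) (b := y) (c := x) (d := z) (e := e) hd hne he.symm ?_ ?_ h3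
  · exact h.s12 (h.s23 (h.s12 h2))
  · exact h.s12 h1

lemma ord4 {x y z d : Fin n} (a1 : x ≠ y) (a2 : x ≠ z) (a3 : y ≠ z) (b1 : x ≠ d) (b2 : y ≠ d)
    (b3 : z ≠ d) : od x y z d ∨ od y x z d ∨ od z x y d := by
  unfold od
  rcases lt_or_gt_of_ne a1 with h1 | h1 <;> rcases lt_or_gt_of_ne a2 with h2 | h2 <;>
  rcases lt_or_gt_of_ne a3 with h3 | h3 <;> rcases lt_or_gt_of_ne b1 with h4 | h4 <;>
  rcases lt_or_gt_of_ne b2 with h5 | h5 <;> rcases lt_or_gt_of_ne b3 with h6 | h6 <;>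
  first
  | exact Or.inl (Or.inl ⟨by assumption, by assumption, by assumption, by assumption⟩)
  | exact Or.inl (Or.inr ⟨by assumption, by assumption, by assumption, by assumption⟩)
  | exact Or.inr (Or.inl (Or.inl ⟨by assumption, by assumption, by assumption, by assumption⟩))
  | exact Or.inr (Or.inl (Or.inr ⟨by assumption, by assumption, by assumption, by assumption⟩))
  | exact Or.inr (Or.inr (Or.inl ⟨by assumption, by assumption, by assumption, by assumption⟩))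
  | exact Or.inr (Or.inr (Or.inr ⟨by assumption, by assumption, by assumption, by assumption⟩))
  | (exfalso; omega)

lemma cover_clump {x y z d : Fin n} (h : Good T) (h1 : T x y z) (h2 : T x y d)
    (h3 : T x z d) :
    M2 T x y z ∨ M2 T y x z ∨ M2 T z x y := by
  have a1 := h.n12 h1
  have a2 := h.n13 h1
  have a3 := h.n23 h1
  have b1 := h.n13 h2
  have b2 := h.n23 h2
  have b3 := h.n23 h3
  have key : od x y z d ∨ od y x z d ∨ od z x y d := ord4 a1 a2 a3 b1 b2 b3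
  rcases key with hk | hk | hk
  · left
    exact ⟨h1, d, b1.symm, b2.symm, b3.symm, Or.inl ⟨h2, h3⟩, hk⟩
  · right; left
    exact ⟨h.s12 h1, d, b2.symm, b1.symm, b3.symm, Or.inr (Or.inl ⟨h.s12 h2, h3⟩), hk⟩
  · right; right
    refine ⟨h.s12 (h.s23 h1), d, b3.symm, b1.symm, b2.symm, Or.inr (Or.inl ⟨h.s12 h3, h2⟩), hk⟩

lemma cover {x y z : Fin n} (h : Good T) (h1 : T x y z) : (sys h).tri x y z := by
  by_contra hcon
  unfold Sys.tri at hcon
  push Not at hcon
  obtain ⟨c1, c2, c3⟩ := hcon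
  have d1 : ¬ M1 T x y z := fun h' => c1 (Or.inl h')
  have d2 : ¬ M1 T y x z := fun h' => c2 (Or.inl h')
  have d3 : ¬ M1 T z x y := fun h' => c3 (Or.inl h')
  have e1 : ¬ (M2 T x y z ∨ M2 T y x z ∨ M2 T z x y) := by
    rintro (h' | h' | h')
    · exact c1 (Or.inr h')
    · exact c2 (Or.inr h')
    · exact c3 (Or.inr h')
  -- pairs with another edge
  have f1 : (∃ d, T x y d ∧ d ≠ z) ∨ (∃ d, T x z d ∧ d ≠ y) := by
    by_contra hc
    push Not at hc
    exact d1 ⟨h1, hc.1, hc.2⟩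
  have f2 : (∃ d, T y x d ∧ d ≠ z) ∨ (∃ d, T y z d ∧ d ≠ x) := by
    by_contra hc
    push Not at hc
    exact d2 ⟨h.s12 h1, hc.1, hc.2⟩
  have f3 : (∃ d, T z x d ∧ d ≠ y) ∨ (∃ d, T z y d ∧ d ≠ x) := by
    by_contra hc
    push Not at hc
    exact d3 ⟨h.s12 (h.s23 h1), hc.1, hc.2⟩
  -- a general tool
  have tool : ∀ {x y z : Fin n}, T x y z → (∃ d, T x y d ∧ d ≠ z) → (∃ d, T x z d ∧ d ≠ y) →
      M2 T x y z ∨ M2 T y x z ∨ M2 T z x y := by
    rintro x y z h1 ⟨d, hd, hd'⟩ ⟨e, he, he'⟩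
    have := cover_aux h h1 hd hd' he he'
    subst this
    exact cover_clump h h1 hd he
  have M2s : ∀ {x y z : Fin n}, M2 T x y z → M2 T x z y := by
    intro x y z h'
    have h'' := (sys h).symm (x := x) (b := y) (c := z) (Or.inr h')
    obtain ⟨e1, d, hd1, hd2, hd3, hc, ho⟩ := h'
    refine ⟨h.s23 e1, d, hd1, hd3, hd2, ?_, ?_⟩
    · rcases hc with hc | hc | hc
      · exact Or.inl ⟨hc.2, hc.1⟩
      · exact Or.inr (Or.inr ⟨hc.1, h.s12 hc.2⟩)
      · exact Or.inr (Or.inl ⟨hc.1, h.s12 hc.2⟩)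
    · unfold od at *; tauto
  by_cases pxy : ∃ d, T x y d ∧ d ≠ z
  · by_cases pxz : ∃ d, T x z d ∧ d ≠ y
    · exact e1 (tool h1 pxy pxz)
    · have pyz : ∃ d, T z y d ∧ d ≠ x := by
        rcases f3 with ⟨d, hd, hd'⟩ | hh
        · exact absurd ⟨d, h.s12 hd, hd'⟩ pxz
        · exact hh
      obtain ⟨d, hd, hd'⟩ := pxy
      obtain ⟨e, he, he'⟩ := pyz
      rcases tool (h.s12 h1) ⟨d, h.s12 hd, hd'⟩ ⟨e, h.s12 he, he'⟩ with h' | h' | h'
      · exact e1 (Or.inr (Or.inl h'))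
      · exact e1 (Or.inl h')
      · exact e1 (Or.inr (Or.inr (M2s h')))
  · have pxz : ∃ d, T x z d ∧ d ≠ y := by
      rcases f1 with hh | hh
      · exact absurd hh pxy
      · exact hh
    have pyz : ∃ d, T y z d ∧ d ≠ x := by
      rcases f2 with ⟨d, hd, hd'⟩ | hh
      · exact absurd ⟨d, h.s12 hd, hd'⟩ pxy
      · exact hh
    obtain ⟨d, hd, hd'⟩ := pxz
    obtain ⟨e, he, he'⟩ := pyz
    rcases tool (h.s12 (h.s23 h1)) ⟨d, h.s12 hd, hd'⟩ ⟨e, h.s12 he, he'⟩ with h' | h' | h'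
    · exact e1 (Or.inr (Or.inr h'))
    · exact e1 (Or.inl (M2s h'))
    · exact e1 (Or.inr (Or.inl (M2s h')))

end Rep

end Pool.Agent.H993R2.TP
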