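import Mathlib

set_option autoImplicit false

/-!
Page systems (combinatorial description of 3-uniform hypergraphs without a tight 3-edge path)
and basic bookkeeping: real-valued indicators, averages over labellings.
-/

namespace Pool.Agent.H993R2.TP

open scoped BigOperators Classical

noncomputable section

/-- real indicator of a proposition -/
def ind (p : Prop) : ℝ := if p then 1 else 0

lemma ind_nonneg (p : Prop) : 0 ≤ ind p := by unfold ind; split_ifs <;> norm_num

lemma ind_le_one (p : Prop) : ind p ≤ 1 := by unfold ind; split_ifs <;> norm_num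

lemma ind_pos {p : Prop} (h : p) : ind p = 1 := by unfold ind; rw [if_pos h]

lemma ind_neg {p : Prop} (h : ¬ p) : ind p = 0 := by unfold ind; rw [if_neg h]

lemma ind_mono {p q : Prop} (h : p → q) : ind p ≤ ind q := by
  by_cases hp : p
  · rw [ind_pos hp, ind_pos (h hp)]
  · rw [ind_neg hp]; exact ind_nonneg _

lemma ind_and (p q : Prop) : ind (p ∧ q) = ind p * ind q := by
  by_cases hp : p <;> by_cases hq : q <;> simp [ind, hp, hq]

lemma ind_or_le (p q : Prop) : ind (p ∨ q) ≤ ind p + ind q := by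
  by_cases hp : p <;> by_cases hq : q <;> simp [ind, hp, hq]

lemma ind_not (p : Prop) : ind (¬ p) = 1 - ind p := by
  by_cases hp : p <;> simp [ind, hp]

lemma ind_exists_le {α : Type*} (s : Finset α) (P : α → Prop) :
    ind (∃ a ∈ s, P a) ≤ ∑ a ∈ s, ind (P a) := by
  by_cases h : ∃ a ∈ s, P a
  · obtain ⟨a, ha, hP⟩ := h
    rw [ind_pos ⟨a, ha, hP⟩, ← ind_pos hP]
    exact Finset.single_le_sum (f := fun a => ind (P a)) (fun b _ => ind_nonneg _) ha
  · rw [ind_neg h]
    exact Finset.sum_nonneg fun b _ => ind_nonneg _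

lemma ind_exists_le' {α : Type*} [Fintype α] (P : α → Prop) :
    ind (∃ a, P a) ≤ ∑ a, ind (P a) := by
  have h := ind_exists_le (Finset.univ : Finset α) P
  simpa using h

lemma sum_ind_le_one {α : Type*} (s : Finset α) {p : α → Prop}
    (h : ∀ a b, p a → p b → a = b) : ∑ a ∈ s, ind (p a) ≤ 1 := by
  by_cases hs : ∃ a ∈ s, p a
  · obtain ⟨a, ha, hp⟩ := hs
    rw [Finset.sum_eq_single_of_mem a ha]
    · exact ind_le_one _
    · intro b _ hb
      exact ind_neg fun hpb => hb (h b a hpb hp)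
  · rw [Finset.sum_eq_zero]
    · norm_num
    · intro b hb
      exact ind_neg fun hpb => hs ⟨b, hb, hpb⟩

lemma ind_mul_le_of_imp {p : Prop} {x y : ℝ} (h : p → x ≤ y) (hy : 0 ≤ y) : ind p * x ≤ y := by
  by_cases hp : p
  · rw [ind_pos hp, one_mul]; exact h hp
  · rw [ind_neg hp, zero_mul]; exact hy

/-- A page system: `M x b c` reads: the page `x` is attached to the spine `{b,c}`. -/
structure Sys (V : Type) where
  M : V → V → V → Prop
  symm : ∀ {x b c}, M x b c → M x c b
  fn : ∀ {x b c c'}, M x b c → M x b c' → c = c'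
  ne1 : ∀ {x b c}, M x b c → x ≠ b
  ne2 : ∀ {x b c}, M x b c → b ≠ c

namespace Sys

variable {V : Type} (G : Sys V)

lemma ne3 {x b c : V} (h : G.M x b c) : x ≠ c := G.ne1 (G.symm h)

lemma symm_iff {x b c : V} : G.M x b c ↔ G.M x c b := ⟨G.symm, G.symm⟩

/-- an `M`-triple, in any rotation -/
def tri (x y z : V) : Prop := G.M x y z ∨ G.M y x z ∨ G.M z x y

lemma tri_swap12 {x y z : V} (h : G.tri x y z) : G.tri y x z := by
  rcases h with h | h | h
  · exact Or.inr (Or.inl h)
  · exact Or.inl h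
  · exact Or.inr (Or.inr (G.symm h))

lemma tri_swap23 {x y z : V} (h : G.tri x y z) : G.tri x z y := by
  rcases h with h | h | h
  · exact Or.inl (G.symm h)
  · exact Or.inr (Or.inr h)
  · exact Or.inr (Or.inl h)

lemma tri_ne12 {x y z : V} (h : G.tri x y z) : x ≠ y := by
  rcases h with h | h | h
  · exact G.ne1 h
  · exact (G.ne1 h).symm
  · exact G.ne2 h

lemma tri_ne13 {x y z : V} (h : G.tri x y z) : x ≠ z := G.tri_ne12 (G.tri_swap23 h)

lemma tri_ne23 {x y z : V} (h : G.tri x y z) : y ≠ z := G.tri_ne13 (G.tri_swap12 h)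

variable [Fintype V]

/-- number of pages attached to the spine `{b,c}` -/
def k (b c : V) : ℝ := ∑ x, ind (G.M x b c)

lemma k_nonneg (b c : V) : 0 ≤ G.k b c := Finset.sum_nonneg fun _ _ => ind_nonneg _

lemma k_symm (b c : V) : G.k b c = G.k c b := by
  unfold k
  refine Finset.sum_congr rfl fun x _ => ?_
  rw [G.symm_iff]

lemma k_self (b : V) : G.k b b = 0 := by
  unfold k
  refine Finset.sum_eq_zero fun x _ => ind_neg fun h => G.ne2 h rfl

lemma sum_M3 (x b : V) : ∑ c, ind (G.M x b c) ≤ 1 :=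
  sum_ind_le_one _ fun _ _ h1 h2 => G.fn h1 h2

lemma sum_M2 (x c : V) : ∑ b, ind (G.M x b c) ≤ 1 :=
  sum_ind_le_one _ fun _ _ h1 h2 => G.fn (G.symm h1) (G.symm h2)

lemma sum_k (b : V) : ∑ c, G.k b c ≤ (Fintype.card V : ℝ) := by
  unfold k
  rw [Finset.sum_comm]
  calc ∑ x : V, ∑ c, ind (G.M x b c) ≤ ∑ _x : V, (1 : ℝ) :=
        Finset.sum_le_sum fun x _ => G.sum_M3 x b
    _ = (Fintype.card V : ℝ) := by simp

lemma sum_k' (b : V) : ∑ c, G.k c b ≤ (Fintype.card V : ℝ) := by
  calc ∑ c, G.k c b = ∑ c, G.k b c := Finset.sum_congr rfl fun c _ => G.k_symm c b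
    _ ≤ _ := G.sum_k b

lemma sum_tri3 (x y : V) : ∑ z, ind (G.tri x y z) ≤ 2 + G.k x y := by
  calc ∑ z, ind (G.tri x y z) ≤ ∑ z, (ind (G.M x y z) + (ind (G.M y x z) + ind (G.M z x y))) := by
        refine Finset.sum_le_sum fun z _ => ?_
        refine (ind_or_le _ _).trans ?_
        gcongr
        exact ind_or_le _ _
    _ = ∑ z, ind (G.M x y z) + (∑ z, ind (G.M y x z) + G.k x y) := by
        rw [Finset.sum_add_distrib, Finset.sum_add_distrib]; rfl
    _ ≤ 1 + (1 + G.k x y) := by
        gcongr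
        · exact G.sum_M3 x y
        · exact G.sum_M3 y x
    _ = 2 + G.k x y := by ring

lemma sum_tri2 (x z : V) : ∑ y, ind (G.tri x y z) ≤ 2 + G.k x z := by
  calc ∑ y, ind (G.tri x y z) = ∑ y, ind (G.tri x z y) := by
        refine Finset.sum_congr rfl fun y _ => ?_
        congr 1
        exact propext ⟨G.tri_swap23, G.tri_swap23⟩
    _ ≤ _ := G.sum_tri3 x z

end Sys

/-- Context: a page system with a bound `κ` on independent sets and two parameters. -/
structure Ctx (V : Type) [Fintype V] extends Sys V where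
  B : ℝ
  bb : ℝ
  κ : ℝ
  hB : 0 < B
  hbb : 0 < bb
  hind : ∀ S : Finset V, (∀ x ∈ S, ∀ b ∈ S, ∀ c ∈ S, ¬ M x b c) → (S.card : ℝ) ≤ κ
  hN : 0 < Fintype.card V

/-- number of points -/
def nn (V : Type) [Fintype V] : ℝ := (Fintype.card V : ℝ)

/-- average over all labellings -/
def E {V : Type} [Fintype V] {m : ℕ} (f : (Fin m → V) → ℝ) : ℝ :=
  (∑ u, f u) / (nn V) ^ m

section Avg

variable {V : Type} [Fintype V] {m : ℕ}

lemma nn_pos (C : Ctx V) : 0 < nn V := by
  unfold nn; exact_mod_cast C.hN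

lemma nn_nonneg : 0 ≤ nn V := by
  unfold nn; positivity

lemma E_mono {f g : (Fin m → V) → ℝ} (h : ∀ u, f u ≤ g u) : E f ≤ E g := by
  unfold E
  exact div_le_div_of_nonneg_right (Finset.sum_le_sum fun u _ => h u) (pow_nonneg nn_nonneg _)

lemma E_nonneg {f : (Fin m → V) → ℝ} (h : ∀ u, 0 ≤ f u) : 0 ≤ E f := by
  unfold E
  exact div_nonneg (Finset.sum_nonneg fun u _ => h u) (pow_nonneg nn_nonneg _)

lemma E_add (f g : (Fin m → V) → ℝ) : E (fun u => f u + g u) = E f + E g := by
  unfold E; rw [Finset.sum_add_distrib, add_div]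

lemma E_sub (f g : (Fin m → V) → ℝ) : E (fun u => f u - g u) = E f - E g := by
  unfold E; rw [Finset.sum_sub_distrib, sub_div]

lemma E_smul (c : ℝ) (f : (Fin m → V) → ℝ) : E (fun u => c * f u) = c * E f := by
  unfold E; rw [← Finset.mul_sum, mul_div_assoc]

lemma E_sum {α : Type*} (s : Finset α) (f : α → (Fin m → V) → ℝ) :
    E (fun u => ∑ a ∈ s, f a u) = ∑ a ∈ s, E (f a) := by
  unfold E; rw [Finset.sum_comm, Finset.sum_div]

lemma E_const (C : Ctx V) (c : ℝ) : E (m := m) (V := V) (fun _ => c) = c := by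
  have hN := nn_pos C
  unfold E
  rw [Finset.sum_const, Finset.card_univ, Fintype.card_fun, Fintype.card_fin, nsmul_eq_mul]
  push_cast
  unfold nn at *
  field_simp

lemma sum_update (f : (Fin m → V) → ℝ) (i : Fin m) :
    ∑ u : Fin m → V, ∑ v, f (Function.update u i v) = nn V * ∑ u, f u := by
  let e : ((Fin m → V) × V) ≃ ((Fin m → V) × V) :=
    { toFun := fun p => (Function.update p.1 i p.2, p.1 i)
      invFun := fun p => (Function.update p.1 i p.2, p.1 i)
      left_inv := by
        rintro ⟨u, v⟩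
        simp
      right_inv := by
        rintro ⟨u, v⟩
        simp }
  calc ∑ u : Fin m → V, ∑ v, f (Function.update u i v)
      = ∑ p : (Fin m → V) × V, f (e p).1 := by
        rw [Fintype.sum_prod_type]
        rfl
    _ = ∑ p : (Fin m → V) × V, f p.1 := Equiv.sum_comp e (fun p => f p.1)
    _ = nn V * ∑ u, f u := by
        rw [Fintype.sum_prod_type]
        simp only [Finset.sum_const, Finset.card_univ, nsmul_eq_mul]
        rw [← Finset.mul_sum]; rfl

/-- integrate one label -/
lemma E_int (C : Ctx V) (f g : (Fin m → V) → ℝ) (i : Fin m) (c : ℝ)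
    (h : ∀ u, ∑ v, f (Function.update u i v) ≤ c * g u) : E f ≤ (c / nn V) * E g := by
  have hN := nn_pos C
  have h1 : nn V * ∑ u, f u ≤ c * ∑ u, g u := by
    rw [← sum_update f i, Finset.mul_sum]
    exact Finset.sum_le_sum fun u _ => h u
  unfold E
  rw [div_mul_div_comm, div_le_div_iff₀ (by positivity) (by positivity)]
  calc (∑ u, f u) * (nn V * nn V ^ m) = (nn V * ∑ u, f u) * nn V ^ m := by ring
    _ ≤ (c * ∑ u, g u) * nn V ^ m := by gcongr

end Avg

end

end Pool.Agent.H993R2.TP
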