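import Pool.Agent.H993R2.TP.Sys

set_option autoImplicit false

/-!
Valid sets, weights, partition functions.
-/

namespace Pool.Agent.H993R2.TP

open scoped BigOperators Classical

noncomputable section

variable {V : Type} [Fintype V] {m : ℕ} (C : Ctx V)

namespace Ctx

def big (x y : V) : Prop := C.B ≤ C.k x y

def bp (x y : V) : Prop := x = y ∨ C.big x y

lemma big_symm {x y : V} (h : C.big x y) : C.big y x := by
  unfold big at *; rw [C.k_symm]; exact h

lemma bp_symm {x y : V} (h : C.bp x y) : C.bp y x := by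
  rcases h with h | h
  · exact Or.inl h.symm
  · exact Or.inr (C.big_symm h)

def valid (u : Fin m → V) (S : Finset (Fin m)) : Prop :=
  (∀ a ∈ S, ∀ b ∈ S, a ≠ b → ¬ C.bp (u a) (u b)) ∧
  (∀ a ∈ S, ∀ b ∈ S, ∀ c ∈ S, ¬ C.M (u a) (u b) (u c))

def W2 (u : Fin m → V) (S : Finset (Fin m)) : ℝ := ∑ a ∈ S, ∑ b ∈ S, C.k (u a) (u b)

def kk (u : Fin m → V) (a : Fin m) (S : Finset (Fin m)) : ℝ := ∑ b ∈ S, C.k (u a) (u b)

def w (u : Fin m → V) (S : Finset (Fin m)) : ℝ := Real.exp (-(C.bb / 2) * C.W2 u S)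

def wv (u : Fin m → V) (S : Finset (Fin m)) : ℝ := ind (C.valid u S) * C.w u S

def q (u : Fin m → V) (a : Fin m) (S : Finset (Fin m)) : ℝ :=
  ind (C.valid u (insert a S)) * Real.exp (-C.bb * C.kk u a S)

def Z (u : Fin m → V) (A : Finset (Fin m)) : ℝ := ∑ S ∈ A.powerset, C.wv u S

variable {C}

lemma valid_mono {u : Fin m → V} {S S' : Finset (Fin m)} (h : S ⊆ S') (hv : C.valid u S') :
    C.valid u S :=
  ⟨fun a ha b hb => hv.1 a (h ha) b (h hb), fun a ha b hb c hc => hv.2 a (h ha) b (h hb) c (h hc)⟩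

lemma valid_empty (u : Fin m → V) : C.valid u ∅ := ⟨by simp, by simp⟩

lemma valid_inj {u : Fin m → V} {S : Finset (Fin m)} (hv : C.valid u S) {a b : Fin m}
    (ha : a ∈ S) (hb : b ∈ S) (h : u a = u b) : a = b := by
  by_contra hne
  exact hv.1 a ha b hb hne (Or.inl h)

lemma valid_card {u : Fin m → V} {S : Finset (Fin m)} (hv : C.valid u S) :
    (S.card : ℝ) ≤ C.κ := by
  have h1 : (S.image u).card = S.card := by
    apply Finset.card_image_of_injOn
    intro a ha b hb h
    exact valid_inj hv ha hb h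
  rw [← h1]
  apply C.hind
  intro x hx b hb c hc hM
  rw [Finset.mem_image] at hx hb hc
  obtain ⟨x', hx', rfl⟩ := hx
  obtain ⟨b', hb', rfl⟩ := hb
  obtain ⟨c', hc', rfl⟩ := hc
  exact hv.2 x' hx' b' hb' c' hc' hM

lemma κ_nonneg : 0 ≤ C.κ := by
  have := C.hind ∅ (by simp)
  simpa using this

lemma W2_nonneg (u : Fin m → V) (S : Finset (Fin m)) : 0 ≤ C.W2 u S :=
  Finset.sum_nonneg fun _ _ => Finset.sum_nonneg fun _ _ => C.k_nonneg _ _

lemma kk_nonneg (u : Fin m → V) (a : Fin m) (S : Finset (Fin m)) : 0 ≤ C.kk u a S :=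
  Finset.sum_nonneg fun _ _ => C.k_nonneg _ _

lemma kk_mono {u : Fin m → V} {a : Fin m} {S S' : Finset (Fin m)} (h : S ⊆ S') :
    C.kk u a S ≤ C.kk u a S' :=
  Finset.sum_le_sum_of_subset_of_nonneg h fun _ _ _ => C.k_nonneg _ _

lemma kk_insert_self (u : Fin m → V) (a : Fin m) (S : Finset (Fin m)) :
    C.kk u a (insert a S) = C.kk u a S := by
  by_cases h : a ∈ S
  · rw [Finset.insert_eq_of_mem h]
  · unfold kk
    rw [Finset.sum_insert h, C.k_self, zero_add]

lemma W2_eq (u : Fin m → V) (S : Finset (Fin m)) : C.W2 u S = ∑ a ∈ S, C.kk u a S := rfl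

lemma W2_empty (u : Fin m → V) : C.W2 u ∅ = 0 := by unfold W2; simp

lemma W2_union {u : Fin m → V} {S T : Finset (Fin m)} (h : Disjoint S T) :
    C.W2 u (S ∪ T) = C.W2 u S + C.W2 u T + 2 * ∑ i ∈ T, C.kk u i S := by
  have h1 : ∑ a ∈ S, ∑ b ∈ T, C.k (u a) (u b) = ∑ i ∈ T, C.kk u i S := by
    rw [Finset.sum_comm]
    unfold kk
    refine Finset.sum_congr rfl fun i _ => Finset.sum_congr rfl fun j _ => C.k_symm _ _
  unfold W2
  rw [Finset.sum_union h]
  simp only [Finset.sum_union h, Finset.sum_add_distrib]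
  rw [h1]
  unfold kk
  ring

lemma W2_insert {u : Fin m → V} {a : Fin m} {S : Finset (Fin m)} (h : a ∉ S) :
    C.W2 u (insert a S) = C.W2 u S + 2 * C.kk u a S := by
  have h1 : insert a S = S ∪ {a} := by ext; simp
  have hd : Disjoint S {a} := by simpa using h
  rw [h1, W2_union hd]
  have : C.W2 u {a} = 0 := by unfold W2; simp [C.k_self]
  rw [this]; simp

lemma W2_mono {u : Fin m → V} {S S' : Finset (Fin m)} (h : S ⊆ S') : C.W2 u S ≤ C.W2 u S' := by
  unfold W2
  calc ∑ a ∈ S, ∑ b ∈ S, C.k (u a) (u b) ≤ ∑ a ∈ S, ∑ b ∈ S', C.k (u a) (u b) :=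
        Finset.sum_le_sum fun a _ => Finset.sum_le_sum_of_subset_of_nonneg h
          fun _ _ _ => C.k_nonneg _ _
    _ ≤ _ := Finset.sum_le_sum_of_subset_of_nonneg h
          fun _ _ _ => Finset.sum_nonneg fun _ _ => C.k_nonneg _ _

lemma w_pos (u : Fin m → V) (S : Finset (Fin m)) : 0 < C.w u S := Real.exp_pos _

lemma w_insert {u : Fin m → V} {a : Fin m} {S : Finset (Fin m)} (h : a ∉ S) :
    C.w u (insert a S) = C.w u S * Real.exp (-C.bb * C.kk u a S) := by
  unfold w
  rw [W2_insert h, ← Real.exp_add]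
  congr 1; ring

lemma w_union {u : Fin m → V} {S T : Finset (Fin m)} (h : Disjoint S T) :
    C.w u (S ∪ T) = C.w u S *
      Real.exp (-(C.bb / 2) * C.W2 u T - C.bb * ∑ i ∈ T, C.kk u i S) := by
  unfold w
  rw [W2_union h, ← Real.exp_add]
  congr 1; ring

lemma w_anti {u : Fin m → V} {S S' : Finset (Fin m)} (h : S ⊆ S') : C.w u S' ≤ C.w u S := by
  unfold w
  apply Real.exp_le_exp.mpr
  have := W2_mono (C := C) (u := u) h
  have hb := C.hbb
  nlinarith

lemma wv_nonneg (u : Fin m → V) (S : Finset (Fin m)) : 0 ≤ C.wv u S :=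
  mul_nonneg (ind_nonneg _) (w_pos u S).le

lemma wv_of_valid {u : Fin m → V} {S : Finset (Fin m)} (h : C.valid u S) :
    C.wv u S = C.w u S := by unfold wv; rw [ind_pos h, one_mul]

lemma wv_of_not_valid {u : Fin m → V} {S : Finset (Fin m)} (h : ¬ C.valid u S) :
    C.wv u S = 0 := by unfold wv; rw [ind_neg h, zero_mul]

lemma wv_pos {u : Fin m → V} {S : Finset (Fin m)} (h : C.valid u S) : 0 < C.wv u S := by
  rw [wv_of_valid h]; exact w_pos u S

lemma wv_anti {u : Fin m → V} {S S' : Finset (Fin m)} (h : S ⊆ S') : C.wv u S' ≤ C.wv u S := by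
  by_cases hv : C.valid u S'
  · rw [wv_of_valid hv, wv_of_valid (valid_mono h hv)]; exact w_anti h
  · rw [wv_of_not_valid hv]; exact wv_nonneg _ _

lemma wv_insert {u : Fin m → V} {a : Fin m} {S : Finset (Fin m)} (h : a ∉ S) :
    C.wv u (insert a S) = C.wv u S * C.q u a S := by
  by_cases hv : C.valid u (insert a S)
  · rw [wv_of_valid hv, wv_of_valid (valid_mono (Finset.subset_insert _ _) hv), w_insert h]
    unfold q
    rw [ind_pos hv, one_mul]
  · rw [wv_of_not_valid hv]
    unfold q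
    rw [ind_neg hv]; ring

lemma q_nonneg (u : Fin m → V) (a : Fin m) (S : Finset (Fin m)) : 0 ≤ C.q u a S :=
  mul_nonneg (ind_nonneg _) (Real.exp_pos _).le

lemma q_le_one (u : Fin m → V) (a : Fin m) (S : Finset (Fin m)) : C.q u a S ≤ 1 := by
  unfold q
  have h1 : Real.exp (-C.bb * C.kk u a S) ≤ 1 := by
    apply Real.exp_le_one_iff.mpr
    have := kk_nonneg (C := C) u a S
    have hb := C.hbb
    nlinarith
  calc _ ≤ (1 : ℝ) * 1 := by
        apply mul_le_mul (ind_le_one _) h1 (Real.exp_pos _).le (by norm_num)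
    _ = 1 := by ring

lemma q_anti {u : Fin m → V} {a : Fin m} {S S' : Finset (Fin m)} (h : S ⊆ S') :
    C.q u a S' ≤ C.q u a S := by
  unfold q
  apply mul_le_mul
  · exact ind_mono (valid_mono (Finset.insert_subset_insert _ h))
  · apply Real.exp_le_exp.mpr
    have := kk_mono (C := C) (u := u) (a := a) h
    have hb := C.hbb
    nlinarith
  · exact (Real.exp_pos _).le
  · exact ind_nonneg _

lemma Z_nonneg (u : Fin m → V) (A : Finset (Fin m)) : 0 ≤ C.Z u A :=
  Finset.sum_nonneg fun _ _ => wv_nonneg _ _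

lemma wv_empty (u : Fin m → V) : C.wv u ∅ = 1 := by
  rw [wv_of_valid (valid_empty u)]
  unfold w
  rw [W2_empty]; simp

lemma Z_ge_one (u : Fin m → V) (A : Finset (Fin m)) : 1 ≤ C.Z u A := by
  rw [← wv_empty (C := C) u]
  exact Finset.single_le_sum (f := fun S => C.wv u S) (fun _ _ => wv_nonneg _ _)
    (Finset.empty_mem_powerset A)

lemma Z_pos (u : Fin m → V) (A : Finset (Fin m)) : 0 < C.Z u A :=
  lt_of_lt_of_le one_pos (Z_ge_one u A)

lemma Z_mono {u : Fin m → V} {A A' : Finset (Fin m)} (h : A ⊆ A') : C.Z u A ≤ C.Z u A' :=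
  Finset.sum_le_sum_of_subset_of_nonneg (Finset.powerset_mono.mpr h) fun _ _ _ => wv_nonneg _ _

/-! independence of labels outside -/

lemma upd_ne {u : Fin m → V} {i a : Fin m} {v : V} {S : Finset (Fin m)} (hi : i ∉ S)
    (ha : a ∈ S) : Function.update u i v a = u a := by
  apply Function.update_of_ne
  rintro rfl
  exact hi ha

lemma valid_congr {u u' : Fin m → V} {S : Finset (Fin m)} (h : ∀ a ∈ S, u a = u' a) :
    C.valid u S ↔ C.valid u' S := by
  constructor
  · rintro ⟨h1, h2⟩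
    refine ⟨fun a ha b hb hab => ?_, fun a ha b hb c hc => ?_⟩
    · rw [← h a ha, ← h b hb]; exact h1 a ha b hb hab
    · rw [← h a ha, ← h b hb, ← h c hc]; exact h2 a ha b hb c hc
  · rintro ⟨h1, h2⟩
    refine ⟨fun a ha b hb hab => ?_, fun a ha b hb c hc => ?_⟩
    · rw [h a ha, h b hb]; exact h1 a ha b hb hab
    · rw [h a ha, h b hb, h c hc]; exact h2 a ha b hb c hc

lemma W2_congr {u u' : Fin m → V} {S : Finset (Fin m)} (h : ∀ a ∈ S, u a = u' a) :
    C.W2 u S = C.W2 u' S := by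
  unfold W2
  refine Finset.sum_congr rfl fun a ha => Finset.sum_congr rfl fun b hb => ?_
  rw [h a ha, h b hb]

lemma wv_congr {u u' : Fin m → V} {S : Finset (Fin m)} (h : ∀ a ∈ S, u a = u' a) :
    C.wv u S = C.wv u' S := by
  unfold wv w
  rw [W2_congr h, show C.valid u S = C.valid u' S from propext (valid_congr h)]

lemma Z_congr {u u' : Fin m → V} {A : Finset (Fin m)} (h : ∀ a ∈ A, u a = u' a) :
    C.Z u A = C.Z u' A := by
  unfold Z
  refine Finset.sum_congr rfl fun S hS => wv_congr fun a ha => h a (Finset.mem_powerset.mp hS ha)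

lemma valid_update {u : Fin m → V} {i : Fin m} {v : V} {S : Finset (Fin m)} (hi : i ∉ S) :
    C.valid (Function.update u i v) S ↔ C.valid u S := valid_congr fun _ ha => upd_ne hi ha

lemma wv_update {u : Fin m → V} {i : Fin m} {v : V} {S : Finset (Fin m)} (hi : i ∉ S) :
    C.wv (Function.update u i v) S = C.wv u S := wv_congr fun _ ha => upd_ne hi ha

lemma Z_update {u : Fin m → V} {i : Fin m} {v : V} {A : Finset (Fin m)} (hi : i ∉ A) :
    C.Z (Function.update u i v) A = C.Z u A := Z_congr fun _ ha => upd_ne hi ha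

end Ctx

/-! ### general powerset lemmas -/

lemma sum_sum_mem {α : Type*} [DecidableEq α] (A : Finset α) (g : α → Finset α → ℝ) :
    ∑ S ∈ A.powerset, ∑ a ∈ S, g a S = ∑ a ∈ A, ∑ S ∈ (A.erase a).powerset, g a (insert a S) := by
  have h1 : ∀ S ∈ A.powerset, ∑ a ∈ S, g a S = ∑ a ∈ A, if a ∈ S then g a S else 0 := by
    intro S hS
    rw [← Finset.sum_filter]
    congr 1
    ext a
    simp only [Finset.mem_filter]
    exact ⟨fun h => ⟨Finset.mem_powerset.mp hS h, h⟩, fun h => h.2⟩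
  rw [Finset.sum_congr rfl h1, Finset.sum_comm]
  refine Finset.sum_congr rfl fun a ha => ?_
  conv_lhs => rw [← Finset.insert_erase ha]
  rw [Finset.sum_powerset_insert (Finset.notMem_erase a A)]
  have h2 : ∑ t ∈ (A.erase a).powerset, (if a ∈ t then g a t else 0) = 0 := by
    refine Finset.sum_eq_zero fun t ht => if_neg fun h => ?_
    exact Finset.notMem_erase a A (Finset.mem_powerset.mp ht h)
  rw [h2, zero_add]
  exact Finset.sum_congr rfl fun t _ => if_pos (Finset.mem_insert_self _ _)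

lemma sum_sum_notMem {α : Type*} [DecidableEq α] (A : Finset α) (g : α → Finset α → ℝ) :
    ∑ S ∈ A.powerset, ∑ a ∈ A \ S, g a S = ∑ a ∈ A, ∑ S ∈ (A.erase a).powerset, g a S := by
  have h1 : ∀ S ∈ A.powerset, ∑ a ∈ A \ S, g a S = ∑ a ∈ A, if a ∈ S then 0 else g a S := by
    intro S hS
    rw [← Finset.sum_subset (Finset.sdiff_subset : A \ S ⊆ A)]
    · refine Finset.sum_congr rfl fun a ha => ?_
      rw [if_neg (Finset.mem_sdiff.mp ha).2]
    · intro a ha hna
      rw [if_pos]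
      by_contra h
      exact hna (Finset.mem_sdiff.mpr ⟨ha, h⟩)
  rw [Finset.sum_congr rfl h1, Finset.sum_comm]
  refine Finset.sum_congr rfl fun a ha => ?_
  conv_lhs => rw [← Finset.insert_erase ha]
  rw [Finset.sum_powerset_insert (Finset.notMem_erase a A)]
  have h2 : ∑ t ∈ (A.erase a).powerset, (if a ∈ insert a t then 0 else g a (insert a t)) = 0 := by
    refine Finset.sum_eq_zero fun t _ => if_pos (Finset.mem_insert_self _ _)
  rw [h2, add_zero]
  refine Finset.sum_congr rfl fun t ht => if_neg fun h => ?_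
  exact Finset.notMem_erase a A (Finset.mem_powerset.mp ht h)

/-! ### conditional expectations given the complement of a set of indices -/

namespace Ctx

/-- the Gibbs average over the subsets of `A` -/
def EA (A : Finset (Fin m)) (Ψ : (Fin m → V) → Finset (Fin m) → ℝ) (u : Fin m → V) : ℝ :=
  (∑ S ∈ A.powerset, C.wv u S * Ψ u S) / C.Z u A

variable {C}

lemma EA_mono {A : Finset (Fin m)} {Ψ Ψ' : (Fin m → V) → Finset (Fin m) → ℝ} {u : Fin m → V}
    (h : ∀ S ⊆ A, C.valid u S → Ψ u S ≤ Ψ' u S) : C.EA A Ψ u ≤ C.EA A Ψ' u := by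
  unfold EA
  apply div_le_div_of_nonneg_right _ (Z_nonneg u A)
  refine Finset.sum_le_sum fun S hS => ?_
  by_cases hv : C.valid u S
  · exact mul_le_mul_of_nonneg_left (h S (Finset.mem_powerset.mp hS) hv) (wv_nonneg _ _)
  · rw [wv_of_not_valid hv]; simp

lemma EA_const (A : Finset (Fin m)) (c : ℝ) (u : Fin m → V) : C.EA A (fun _ _ => c) u = c := by
  unfold EA
  rw [← Finset.sum_mul]
  have := Z_pos (C := C) u A
  unfold Z at *
  field_simp

lemma EA_smul (A : Finset (Fin m)) (c : ℝ) (Ψ : (Fin m → V) → Finset (Fin m) → ℝ)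
    (u : Fin m → V) : C.EA A (fun u S => c * Ψ u S) u = c * C.EA A Ψ u := by
  unfold EA
  rw [mul_div_assoc', Finset.mul_sum]
  congr 1
  refine Finset.sum_congr rfl fun S _ => ?_
  ring

lemma EA_add (A : Finset (Fin m)) (Ψ Ψ' : (Fin m → V) → Finset (Fin m) → ℝ)
    (u : Fin m → V) : C.EA A (fun u S => Ψ u S + Ψ' u S) u = C.EA A Ψ u + C.EA A Ψ' u := by
  unfold EA
  rw [← add_div, ← Finset.sum_add_distrib]
  congr 1
  refine Finset.sum_congr rfl fun S _ => ?_
  ring

lemma EA_sum {α : Type*} (s : Finset α) (A : Finset (Fin m))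
    (Ψ : α → (Fin m → V) → Finset (Fin m) → ℝ)
    (u : Fin m → V) : C.EA A (fun u S => ∑ a ∈ s, Ψ a u S) u = ∑ a ∈ s, C.EA A (Ψ a) u := by
  unfold EA
  rw [← Finset.sum_div, Finset.sum_comm]
  congr 1
  refine Finset.sum_congr rfl fun S _ => ?_
  rw [Finset.mul_sum]

lemma EA_nonneg {A : Finset (Fin m)} {Ψ : (Fin m → V) → Finset (Fin m) → ℝ} {u : Fin m → V}
    (h : ∀ S, 0 ≤ Ψ u S) : 0 ≤ C.EA A Ψ u :=
  div_nonneg (Finset.sum_nonneg fun _ _ => mul_nonneg (wv_nonneg _ _) (h _)) (Z_nonneg _ _)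

/-- restricting to a smaller ground set -/
lemma EA_restrict {A A' : Finset (Fin m)} (hA : A' ⊆ A)
    {Ψ : (Fin m → V) → Finset (Fin m) → ℝ} {u : Fin m → V}
    (h0 : ∀ S, 0 ≤ Ψ u S) (hs : ∀ S, ¬ S ⊆ A' → Ψ u S = 0) : C.EA A Ψ u ≤ C.EA A' Ψ u := by
  unfold EA
  have h1 : ∑ S ∈ A.powerset, C.wv u S * Ψ u S = ∑ S ∈ A'.powerset, C.wv u S * Ψ u S := by
    symm
    apply Finset.sum_subset (Finset.powerset_mono.mpr hA)
    intro S _ hS
    rw [hs S (fun h => hS (Finset.mem_powerset.mpr h)), mul_zero]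
  rw [h1]
  apply div_le_div_of_nonneg_left
  · exact Finset.sum_nonneg fun _ _ => mul_nonneg (wv_nonneg _ _) (h0 _)
  · exact Z_pos _ _
  · exact Z_mono hA

/-- integrate the label of an index outside of the ground set -/
lemma EA_int {A : Finset (Fin m)} {i : Fin m} (hi : i ∉ A)
    (Ψ Ψ' : (Fin m → V) → Finset (Fin m) → ℝ) (c : ℝ)
    (h : ∀ u, ∀ S ⊆ A, C.valid u S → ∑ v, Ψ (Function.update u i v) S ≤ c * Ψ' u S) :
    E (C.EA A Ψ) ≤ (c / nn V) * E (C.EA A Ψ') := by
  apply E_int C _ _ i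
  intro u
  unfold EA
  simp only [Z_update (C := C) (u := u) hi]
  rw [← Finset.sum_div, Finset.sum_comm, mul_div_assoc', Finset.mul_sum]
  apply div_le_div_of_nonneg_right _ (Z_nonneg u A)
  refine Finset.sum_le_sum fun S hS => ?_
  have hS' := Finset.mem_powerset.mp hS
  have hiS : i ∉ S := fun h => hi (hS' h)
  simp only [wv_update (C := C) (u := u) hiS]
  rw [← Finset.mul_sum]
  by_cases hv : C.valid u S
  · calc C.wv u S * ∑ v, Ψ (Function.update u i v) S ≤ C.wv u S * (c * Ψ' u S) :=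
          mul_le_mul_of_nonneg_left (h u S hS' hv) (wv_nonneg _ _)
      _ = c * (C.wv u S * Ψ' u S) := by ring
  · rw [wv_of_not_valid hv]; simp

/-! ### Step A : the average of `W2` -/

lemma exp_trick {b x w0 : ℝ} (hb : 0 < b) (hw0 : 1 ≤ b * w0) (hx : 0 ≤ x) :
    x * Real.exp (-b * x) ≤ w0 * Real.exp (-b * x) + w0 * Real.exp (-b * w0) := by
  have hw : 0 < w0 := by
    by_contra h
    push Not at h
    nlinarith
  rcases le_total x w0 with h | h
  · have h1 : x * Real.exp (-b * x) ≤ w0 * Real.exp (-b * x) :=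
      mul_le_mul_of_nonneg_right h (Real.exp_pos _).le
    have h2 : 0 ≤ w0 * Real.exp (-b * w0) := by positivity
    linarith
  · have h3 : x * Real.exp (-b * x) ≤ w0 * Real.exp (-b * w0) := by
      have h4 : x / w0 ≤ Real.exp (b * (x - w0)) := by
        have h5 : x / w0 = 1 + (x - w0) / w0 := by field_simp; ring
        have h6 : (x - w0) / w0 ≤ b * (x - w0) := by
          rw [div_le_iff₀ hw]
          nlinarith [mul_nonneg (sub_nonneg.mpr h) (sub_nonneg.mpr hw0)]
        have h7 := Real.add_one_le_exp (b * (x - w0))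
        linarith
      have h8 : x ≤ w0 * Real.exp (b * (x - w0)) := by
        rw [div_le_iff₀ hw] at h4; linarith
      calc x * Real.exp (-b * x) ≤ (w0 * Real.exp (b * (x - w0))) * Real.exp (-b * x) :=
            mul_le_mul_of_nonneg_right h8 (Real.exp_pos _).le
        _ = w0 * Real.exp (-b * w0) := by
            rw [mul_assoc, ← Real.exp_add]; congr 2; ring
    have h2 : 0 ≤ w0 * Real.exp (-b * x) := by positivity
    linarith

lemma stepA (A : Finset (Fin m)) (u : Fin m → V) {w0 : ℝ} (hw0 : 1 ≤ C.bb * w0) :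
    C.EA A (fun u S => C.W2 u S) u ≤ w0 * (C.κ + m * Real.exp (-C.bb * w0)) := by
  have hbb := C.hbb
  have hw : 0 < w0 := by
    by_contra h
    push Not at h
    nlinarith
  unfold EA
  rw [div_le_iff₀ (Z_pos u A)]
  have h1 : ∑ S ∈ A.powerset, C.wv u S * C.W2 u S
      = ∑ a ∈ A, ∑ S ∈ (A.erase a).powerset, C.wv u (insert a S) * C.kk u a (insert a S) := by
    rw [← sum_sum_mem A (fun a S => C.wv u S * C.kk u a S)]
    refine Finset.sum_congr rfl fun S _ => ?_
    rw [W2_eq, Finset.mul_sum]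
  have h2 : ∀ a ∈ A, ∑ S ∈ (A.erase a).powerset, C.wv u (insert a S) * C.kk u a (insert a S)
      ≤ ∑ S ∈ (A.erase a).powerset, (w0 * C.wv u (insert a S)
          + w0 * Real.exp (-C.bb * w0) * C.wv u S) := by
    intro a _
    refine Finset.sum_le_sum fun S hS => ?_
    have haS : a ∉ S := fun h => Finset.notMem_erase a A (Finset.mem_powerset.mp hS h)
    rw [kk_insert_self]
    by_cases hv : C.valid u (insert a S)
    · have hvS := valid_mono (Finset.subset_insert a S) hv
      rw [wv_of_valid hv, wv_of_valid hvS, w_insert haS]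
      have h3 := exp_trick hbb hw0 (kk_nonneg (C := C) u a S)
      have h4 := w_pos (C := C) u S
      nlinarith [mul_le_mul_of_nonneg_left h3 h4.le]
    · rw [wv_of_not_valid hv]
      have := wv_nonneg (C := C) u S
      have : 0 ≤ w0 * Real.exp (-C.bb * w0) * C.wv u S := by positivity
      linarith
  have h5 : ∑ a ∈ A, ∑ S ∈ (A.erase a).powerset, C.wv u (insert a S)
      = ∑ S ∈ A.powerset, C.wv u S * S.card := by
    rw [← sum_sum_mem A (fun a S => C.wv u S)]
    refine Finset.sum_congr rfl fun S _ => ?_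
    rw [Finset.sum_const, nsmul_eq_mul]; ring
  have h6 : ∑ S ∈ A.powerset, C.wv u S * (S.card : ℝ) ≤ C.κ * C.Z u A := by
    unfold Z
    rw [Finset.mul_sum]
    refine Finset.sum_le_sum fun S _ => ?_
    by_cases hv : C.valid u S
    · have := valid_card hv
      have h7 := wv_nonneg (C := C) u S
      nlinarith
    · rw [wv_of_not_valid hv]; simp
  have h7 : ∑ a ∈ A, ∑ S ∈ (A.erase a).powerset, C.wv u S ≤ m * C.Z u A := by
    calc ∑ a ∈ A, ∑ S ∈ (A.erase a).powerset, C.wv u S ≤ ∑ _a ∈ A, C.Z u A :=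
          Finset.sum_le_sum fun a _ => Z_mono (Finset.erase_subset _ _)
      _ = A.card * C.Z u A := by rw [Finset.sum_const, nsmul_eq_mul]
      _ ≤ m * C.Z u A := by
          have h8 : (A.card : ℝ) ≤ m := by
            have := Finset.card_le_univ A
            rw [Fintype.card_fin] at this
            exact_mod_cast this
          exact mul_le_mul_of_nonneg_right h8 (Z_nonneg _ _)
  rw [h1]
  calc ∑ a ∈ A, ∑ S ∈ (A.erase a).powerset, C.wv u (insert a S) * C.kk u a (insert a S)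
      ≤ ∑ a ∈ A, ∑ S ∈ (A.erase a).powerset, (w0 * C.wv u (insert a S)
          + w0 * Real.exp (-C.bb * w0) * C.wv u S) := Finset.sum_le_sum h2
    _ = w0 * ∑ S ∈ A.powerset, C.wv u S * (S.card : ℝ)
        + w0 * Real.exp (-C.bb * w0) * ∑ a ∈ A, ∑ S ∈ (A.erase a).powerset, C.wv u S := by
        rw [← h5]
        simp only [Finset.sum_add_distrib, Finset.mul_sum]
    _ ≤ w0 * (C.κ * C.Z u A) + w0 * Real.exp (-C.bb * w0) * (m * C.Z u A) := by
        gcongr
    _ = w0 * (C.κ + m * Real.exp (-C.bb * w0)) * C.Z u A := by ring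

end Ctx

end

end Pool.Agent.H993R2.TP
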